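import Pool.Agent.P.MP_a11f68_mp.Q.Iface
import Pool.Agent.P.MP_a11f68_mp.Main

/-! Integration by parts on the torus. -/

namespace Pool.Agent.P.MP_a11f68_mp.Q

open Complex ComplexConjugate MeasureTheory UnitAddTorus Metric Filter Topology Set Laplacian
open scoped Real ENNReal

lemma ibp_add (a b : ℂ) : pr (a + b) = pr a + pr b := by
  ext i; fin_cases i <;> simp [pr]

lemma ibp_int {f : UnitAddTorus (Fin 2) → ℂ} (h : Continuous f) : Integrable f :=
  h.integrable_of_hasCompactSupport (HasCompactSupport.of_compactSpace f)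

lemma ibp_dir (hL : S_LIFT) {G : ℂ → ℂ} (hG : ContDiff ℝ 1 G) (h1 : ∀ ζ, G (ζ + 1) = G ζ)
    (h2 : ∀ ζ, G (ζ + I) = G ζ) (e : ℂ) : ∃ r : UnitAddTorus (Fin 2) → ℂ, Continuous r ∧
      (∀ ζ, r (pr ζ) = fderiv ℝ G ζ e) ∧ ∫ x, r x = 0 := by
  obtain ⟨hs, hp, hl, hc, -⟩ := hL
  have per : ∀ γ, (∀ ζ, G (ζ + γ) = G ζ) → ∀ ζ, fderiv ℝ G (ζ + γ) e = fderiv ℝ G ζ e :=
    fun γ h ζ => by rw [← fderiv_comp_add_right, funext h]
  obtain ⟨g, hg⟩ := hl G h1 h2
  obtain ⟨r, hr⟩ := hl (fun ζ => fderiv ℝ G ζ e) (per 1 h1) (per I h2)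
  have cg : Continuous g := hc g (by rw [funext hg]; exact hG.continuous)
  have cr : Continuous r := hc r (by
    rw [funext hr]; exact (hG.continuous_fderiv one_ne_zero).clm_apply continuous_const)
  obtain ⟨C, hC⟩ := isCompact_univ.exists_bound_of_continuousOn cr.continuousOn
  have key := (hasDerivAt_integral_of_dominated_loc_of_deriv_le (μ := volume) (x₀ := (0 : ℝ))
    (F := fun τ x => g (x + pr (τ • e))) (F' := fun τ x => r (x + pr (τ • e)))
    (bound := fun _ => C) univ_mem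
    (Eventually.of_forall fun τ => (cg.comp (by fun_prop)).aestronglyMeasurable)
    (ibp_int (cg.comp (by fun_prop))) (cr.comp (by fun_prop)).aestronglyMeasurable
    (Eventually.of_forall fun x τ _ => hC _ trivial) (integrable_const C)
    (Eventually.of_forall fun x τ _ => by
      obtain ⟨ζ, rfl⟩ := hs x
      simp only [← ibp_add, hg, hr]
      simpa [Function.comp_def] using (hG.differentiable one_ne_zero (ζ + τ • e)).hasFDerivAt.comp_hasDerivAt τ
        (((hasDerivAt_id τ).smul_const e).const_add ζ))).2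
  simp only [integral_add_right_eq_self] at key
  exact ⟨r, cr, hr, key.unique (hasDerivAt_const _ _)⟩

lemma ibp_core (hL : S_LIFT) {G : ℂ → ℂ} (hG : ContDiff ℝ 1 G) (h1 : ∀ ζ, G (ζ + 1) = G ζ)
    (h2 : ∀ ζ, G (ζ + I) = G ζ) (c : ℂ) (p : UnitAddTorus (Fin 2) → ℂ)
    (hp : ∀ ζ, p (pr ζ) = (fderiv ℝ G ζ 1 + c * fderiv ℝ G ζ I) / 2) :
    Continuous p ∧ ∫ x, p x = 0 := by
  obtain ⟨r, cr, hr, ir⟩ := ibp_dir hL hG h1 h2 1
  obtain ⟨s, cs, hs, is⟩ := ibp_dir hL hG h1 h2 I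
  have : p = fun x => (r x + c * s x) / 2 := funext fun x => by
    obtain ⟨ζ, rfl⟩ := hL.1 x
    rw [hp, hr, hs]
  subst this
  refine ⟨by fun_prop, ?_⟩
  rw [integral_div, integral_add (ibp_int cr) (ibp_int (by fun_prop)), integral_const_mul, ir, is]
  simp

lemma ibp_bl (k l : Fin 2 → ℂ) (ζ : ℂ) : bl (k + l) ζ = bl k ζ * bl l ζ := by
  simp only [bl, ← Complex.exp_add, Pi.add_apply]; congr 1; ring

lemma ibp_bl' (k : Fin 2 → ℂ) (ζ γ : ℂ) : bl k (ζ + γ) = bl k γ * bl k ζ := by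
  simp only [bl, ← Complex.exp_add, add_re, add_im]; congr 1; push_cast; ring

lemma ibp_W (k : Fin 2 → ℂ) (ζ : ℂ) : HasW (bl k) (π * I * (k 0 - k 1 * I) * bl k ζ)
    (π * I * (k 0 + k 1 * I) * bl k ζ) ζ := by
  have h := ((((hasW_re ζ).const_mul (k 0)).sub ((hasW_im ζ).const_mul (k 1 * I))).const_mul
    (2 * π * I)).comp_hol (Complex.hasDerivAt_exp _)
  have e : ∀ z : ℂ, cexp (2 * π * I * (k 0 * z.re - k 1 * I * (I * z.im))) = bl k z := fun z => by
    rw [bl]; congr 2; linear_combination (-k 1 * z.im) * I_sq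
  simp only [e] at h
  exact h.congr (by ring) (by ring)

lemma ibp_cd (k : Fin 2 → ℂ) : ContDiff ℝ 1 (bl k) := by
  have h1 : ContDiff ℝ 1 fun z : ℂ => (z.re : ℂ) := (ofRealCLM.comp reCLM).contDiff
  have h2 : ContDiff ℝ 1 fun z : ℂ => (z.im : ℂ) := (ofRealCLM.comp imCLM).contDiff
  exact (contDiff_const.mul ((contDiff_const.mul h1).add (contDiff_const.mul h2))).cexp

theorem p_IBP (hL : S_LIFT) : S_IBP := by
  intro k u v g hu hv hg n
  obtain ⟨hs, -, hl, hc, hm, hper, hco, -⟩ := id hL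
  set m : Fin 2 → ℂ := -k + fun i => (((-n) i : ℤ) : ℂ) with hmd
  have z1 : ∀ ζ, bl (-k) ζ * bl k ζ = 1 := fun ζ => by rw [← ibp_bl]; simp [bl]
  have lift : ∀ {U : ℂ → ℂ} {V : UnitAddTorus (Fin 2) → ℂ}, (∀ ζ, U ζ = bl k ζ * V (pr ζ)) →
      ∀ ζ, mFourier (-n) (pr ζ) * V (pr ζ) = U ζ * bl m ζ := fun {U V} h ζ => by
    rw [h, hm, hmd, ibp_bl]; linear_combination (-bl _ ζ * V (pr ζ)) * z1 ζ
  have du := hu.differentiable two_ne_zero
  have cw : ContDiff ℝ 1 (wd u) := contDiff_wd hu (by norm_num)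
  have per : ∀ γ, (∀ ζ, pr (ζ + γ) = pr ζ) → (∀ ζ, u (ζ + γ) * bl m (ζ + γ) = u ζ * bl m ζ) ∧
      ∀ ζ, wd u (ζ + γ) * bl m (ζ + γ) = wd u ζ * bl m ζ := fun γ h => by
    refine ⟨fun ζ => by rw [← lift hv, ← lift hv, h], fun ζ => ?_⟩
    have h0 : bl m γ * bl k γ = 1 := by
      have h1 := hm (-n) (0 + γ)
      rw [h, hm, zero_add] at h1
      rw [hmd, ibp_bl, ← h1, mul_right_comm, z1]; simp [bl]
    rw [wd_shift du (χ := bl k γ) fun z => by rw [hv, hv, h, ibp_bl', mul_assoc], ibp_bl']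
    linear_combination (wd u ζ * bl m ζ) * h0
  obtain ⟨a1, a2⟩ := per 1 fun ζ => (hper ζ).1
  obtain ⟨b1, b2⟩ := per I fun ζ => (hper ζ).2
  obtain ⟨w, hw⟩ := hl (fun ζ => wd u ζ * bl m ζ) a2 b2
  have c1 : Continuous w := hc w (by rw [funext hw]; exact (cw.mul (ibp_cd m)).continuous)
  have c2 : Continuous fun x => mFourier (-n) x * v x :=
    hc _ (by rw [funext (lift hv)]; exact hu.continuous.mul (ibp_cd m).continuous)
  obtain ⟨-, i1⟩ := ibp_core hL ((hu.of_le one_le_two).mul (ibp_cd m)) a1 b1 (-I)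
    (fun x => w x + π * I * (m 0 - m 1 * I) * (mFourier (-n) x * v x)) fun ζ => by
      have := ((hasW_of_differentiableAt (du ζ)).mul (ibp_W m ζ)).wd_eq
      rw [wd] at this
      rw [hw, lift hv, neg_mul, ← sub_eq_add_neg, this]; ring
  obtain ⟨c3, i2⟩ := ibp_core hL (cw.mul (ibp_cd m)) a2 b2 I
    (fun x => mFourier (-n) x * g x / 4 + π * I * (m 0 + m 1 * I) * w x) fun ζ => by
      have := ((hasW_of_differentiableAt (cw.differentiable one_ne_zero ζ)).mul (ibp_W m ζ)).wb_eq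
      rw [wb] at this
      rw [hw, lift hg, this, wb_wd hu]; ring
  have c4 : Continuous fun x => mFourier (-n) x * g x / 4 :=
    (c3.sub (continuous_const.mul c1)).congr fun x => add_sub_cancel_right _ _
  rw [integral_add (ibp_int c1) (ibp_int (by fun_prop)), integral_const_mul] at i1
  rw [integral_add (ibp_int c4) (ibp_int (by fun_prop)), integral_const_mul, integral_div] at i2
  rw [hco, hco, Fin.sum_univ_two]
  have e0 : m 0 = -(k 0 + n 0) := by simp [hmd]; ring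
  have e1 : m 1 = -(k 1 + n 1) := by simp [hmd]; ring
  rw [e0, e1] at i1 i2
  set A := ∫ x, mFourier (-n) x * v x
  linear_combination 4 * i2 - 4 * π * I * (-(k 0 + n 0) + -(k 1 + n 1) * I) * i1 +
    (4 * π ^ 2 * A * ((k 0 + n 0) ^ 2 + (k 1 + n 1) ^ 2 - (k 1 + n 1) ^ 2 * I ^ 2)) * I_sq

end Pool.Agent.P.MP_a11f68_mp.Q

/-! Classical Bloch solutions are weak solutions. -/

namespace Pool.Agent.P.MP_a11f68_mp.Q

open Complex ComplexConjugate MeasureTheory UnitAddTorus Metric Filter Topology Set Laplacian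
open scoped Real ENNReal

theorem br1_one (k : Fin 2 → ℂ) (ζ : ℂ) : bl k (ζ + 1) = cexp (2 * π * I * k 0) * bl k ζ := by
  rw [bl, bl, ← Complex.exp_add]
  congr 1
  simp only [add_re, one_re, add_im, one_im, add_zero]
  push_cast
  ring

theorem br1_I (k : Fin 2 → ℂ) (ζ : ℂ) : bl k (ζ + I) = cexp (2 * π * I * k 1) * bl k ζ := by
  rw [bl, bl, ← Complex.exp_add]
  congr 1
  simp only [add_re, I_re, add_im, I_im, add_zero]
  push_cast
  ring

theorem p_BR1 (hL : S_LIFT) (hI : S_IBP) : S_BR1 := by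
  rintro V lam k hV ⟨u, h1, h2, h3, h4, h5⟩
  obtain ⟨-, -, l3, l4, -, -, l7, -⟩ := hL
  have b0 : ∀ ζ, bl k ζ ≠ 0 := fun ζ => Complex.exp_ne_zero _
  obtain ⟨v, hv⟩ := l3 (fun ζ => u ζ / bl k ζ)
    (fun ζ => by rw [h4, br1_one, mul_div_mul_left _ _ (Complex.exp_ne_zero _)])
    fun ζ => by rw [h5, br1_I, mul_div_mul_left _ _ (Complex.exp_ne_zero _)]
  have c0 : Continuous (bl k) := by unfold bl; fun_prop
  have c1 : Continuous v := l4 v (by simp only [hv]; exact h1.continuous.div c0 b0)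
  have e1 : ∀ ζ, u ζ = bl k ζ * v (pr ζ) := fun ζ => by rw [hv, mul_div_cancel₀ _ (b0 ζ)]
  have int : ∀ f : UnitAddTorus (Fin 2) → ℂ, Continuous f → Integrable f volume := fun f hf =>
    hf.integrable_of_hasCompactSupport (HasCompactSupport.of_compactSpace f)
  refine ⟨v, c1.memLp_of_hasCompactSupport (HasCompactSupport.of_compactSpace v), fun h => h2 ?_,
    fun n => ?_⟩
  · have := (c1.ae_eq_iff_eq volume continuous_zero).1 h
    funext ζ
    rw [e1, this]
    simp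
  · have := hI k u v (fun x => V x * v x - lam * v x) h1 e1 (fun ζ => by rw [h3, e1]; ring) n
    have e2 : mFourierCoeff (fun x => V x * v x - lam * v x) n =
        mFourierCoeff (fun x => V x * v x) n - lam * mFourierCoeff v n := by
      rw [l7, l7, l7, ← integral_const_mul, ← integral_sub (int _ (by fun_prop))
        (int _ (by fun_prop))]
      exact integral_congr_ae (Eventually.of_forall fun x => by ring)
    rw [e2] at this
    linear_combination this

end Pool.Agent.P.MP_a11f68_mp.Q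

/-! The Fourier series of a twice differentiable potential converges absolutely. -/

namespace Pool.Agent.P.MP_a11f68_mp.Q

open Complex ComplexConjugate MeasureTheory UnitAddTorus Metric Filter Topology Set Laplacian
open scoped Real ENNReal

lemma wie_sq (g : C(UnitAddTorus (Fin 2), ℂ)) : Summable fun n => ‖mFourierCoeff g n‖ ^ 2 :=
  (hasSum_sq_mFourierCoeff _).summable.congr fun n => congrArg (‖·‖ ^ 2) (mFourierCoeff_toLp g n)

lemma wie_per {u : ℂ → ℂ} {a : ℂ} (h : ∀ ζ, u (ζ + a) = u ζ) (ζ : ℂ) : Δ u (ζ + a) = Δ u ζ := by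
  simp only [InnerProductSpace.laplacian_eq_iteratedFDeriv_complexPlane,
    ← iteratedFDeriv_comp_add_right, h]

lemma wie_cont {u : ℂ → ℂ} (h : ContDiff ℝ 2 u) : Continuous (Δ u) := by
  have := h.continuous_iteratedFDeriv (m := 2) le_rfl
  rw [InnerProductSpace.laplacian_eq_iteratedFDeriv_complexPlane]
  fun_prop

lemma wie_norm (n : Fin 2 → ℤ) : ‖n‖ ^ 2 ≤ ‖4 * (π : ℂ) ^ 2 * ∑ i, (0 + (n i : ℂ)) ^ 2‖ := by
  have e : 4 * (π : ℂ) ^ 2 * ∑ i, (0 + (n i : ℂ)) ^ 2 =
      ((4 * π ^ 2 * ∑ i, (n i : ℝ) ^ 2 : ℝ) : ℂ) := by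
    push_cast
    simp
  have h0 : 0 ≤ ∑ i, (n i : ℝ) ^ 2 := Finset.sum_nonneg fun i _ => sq_nonneg _
  have h1 : ‖n‖ ≤ √(∑ i, (n i : ℝ) ^ 2) := (pi_norm_le_iff_of_nonneg (Real.sqrt_nonneg _)).2
    fun i => by
      rw [Int.norm_eq_abs]
      exact Real.abs_le_sqrt (Finset.single_le_sum (f := fun i => (n i : ℝ) ^ 2)
        (fun i _ => sq_nonneg _) (Finset.mem_univ i))
  have h2 := (Real.le_sqrt (norm_nonneg n) h0).1 h1
  have h3 : 1 ≤ 4 * π ^ 2 := by nlinarith [Real.pi_gt_three]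
  rw [e, Complex.norm_real, Real.norm_of_nonneg (by positivity)]
  nlinarith

theorem p_WIE (hL : S_LIFT) (hI : S_IBP) : S_WIE := by
  intro V hV
  obtain ⟨-, -, h3, h4, -, h6, -, -⟩ := hL
  obtain ⟨g, hg⟩ := h3 (Δ fun ζ => V (pr ζ)) (wie_per fun ζ => by rw [(h6 ζ).1])
    (wie_per fun ζ => by rw [(h6 ζ).2])
  have gc : Continuous g := h4 g (by simp only [hg]; exact wie_cont hV)
  have key := hI 0 _ V g hV (fun ζ => by simp [bl]) fun ζ => by simp [bl, hg]
  refine Summable.of_norm_bounded_eventually ((wie_sq ⟨g, gc⟩).add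
    (EisensteinSeries.summable_one_div_norm_rpow (k := 4) (by norm_num))) ?_
  filter_upwards [(Set.finite_singleton (0 : Fin 2 → ℤ)).compl_mem_cofinite] with n hn
  have n0 : 0 < ‖n‖ := norm_pos_iff.2 hn
  have h1 : ‖n‖ ^ 2 * ‖mFourierCoeff V n‖ ≤ ‖mFourierCoeff g n‖ := by
    rw [key n, norm_mul, norm_neg]
    exact mul_le_mul_of_nonneg_right (wie_norm n) (norm_nonneg _)
  have e : ‖n‖ ^ (-4 : ℝ) = ((‖n‖ ^ 2)⁻¹) ^ 2 := by
    rw [Real.rpow_neg n0.le, inv_pow, ← pow_mul, ← Real.rpow_natCast]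
    norm_num
  have h2 : ‖mFourierCoeff V n‖ ≤ ‖mFourierCoeff g n‖ * (‖n‖ ^ 2)⁻¹ := by
    rw [← div_eq_mul_inv, le_div_iff₀ (by positivity), mul_comm]
    exact h1
  rw [e, ContinuousMap.coe_mk]
  have h5 : 0 ≤ ‖mFourierCoeff g n‖ * (‖n‖ ^ 2)⁻¹ := by positivity
  nlinarith [sq_nonneg (‖mFourierCoeff g n‖ - (‖n‖ ^ 2)⁻¹)]

end Pool.Agent.P.MP_a11f68_mp.Q

namespace Pool.Agent.P.MP_a11f68_mp.Q

open Complex ComplexConjugate MeasureTheory UnitAddTorus Metric Filter Topology Set Laplacian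
open scoped Real ENNReal

lemma reg_abs (n : Fin 2 → ℤ) (i : Fin 2) : |(n i : ℝ)| ≤ ‖gi n‖ := by
  fin_cases i
  · simpa [gi] using abs_re_le_norm (gi n)
  · simpa [gi] using abs_im_le_norm (gi n)

lemma reg_norm (n : Fin 2 → ℤ) : ‖n‖ ≤ ‖gi n‖ :=
  (pi_norm_le_iff_of_nonneg (norm_nonneg _)).2 fun i => reg_abs n i

lemma reg_sq (n : Fin 2 → ℤ) : ((‖gi n‖ : ℂ)) ^ 2 = (n 0 : ℂ) ^ 2 + (n 1 : ℂ) ^ 2 := by
  have : ‖gi n‖ ^ 2 = (n 0 : ℝ) ^ 2 + (n 1 : ℝ) ^ 2 := by
    rw [Complex.sq_norm, normSq_apply]; simp [gi]; ring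
  exact_mod_cast congrArg (fun x : ℝ => (x : ℂ)) this

lemma reg_D (lam : ℂ) (k : Fin 2 → ℂ) : ∀ᶠ n : Fin 2 → ℤ in cofinite, 1 ≤ ‖n‖ ∧
    1 + ‖gi n‖ ^ 2 ≤ ‖(4 * π ^ 2 * ∑ i, (k i + n i) ^ 2 - lam : ℂ)‖ := by
  have t : Tendsto (fun n : Fin 2 → ℤ => ‖n‖) cofinite atTop := by
    rw [← cocompact_eq_cofinite]; exact tendsto_norm_cocompact_atTop
  set A := 8 * π ^ 2 * (‖k 0‖ + ‖k 1‖) with hA
  set B := ‖(4 * π ^ 2 * (k 0 ^ 2 + k 1 ^ 2) - lam : ℂ)‖ with hB
  have A0 : 0 ≤ A := by positivity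
  have B0 : 0 ≤ B := norm_nonneg _
  filter_upwards [t.eventually_ge_atTop (A + B + 1)] with n hn
  refine ⟨by linarith, ?_⟩
  set r := ‖gi n‖ with hr
  have r1 : A + B + 1 ≤ r := hn.trans (reg_norm n)
  have e : (4 * π ^ 2 * (r : ℂ) ^ 2) = (4 * π ^ 2 * ∑ i, (k i + n i) ^ 2 - lam : ℂ) -
      8 * π ^ 2 * (k 0 * n 0 + k 1 * n 1) - (4 * π ^ 2 * (k 0 ^ 2 + k 1 ^ 2) - lam) := by
    rw [hr, reg_sq, Fin.sum_univ_two]; ring
  have a : ‖(8 * π ^ 2 * (k 0 * n 0 + k 1 * n 1) : ℂ)‖ ≤ A * r := by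
    have b : ‖k 0 * n 0 + k 1 * n 1‖ ≤ (‖k 0‖ + ‖k 1‖) * r := by
      refine (norm_add_le _ _).trans ?_
      rw [norm_mul, norm_mul, add_mul, Complex.norm_intCast, Complex.norm_intCast]
      gcongr <;> exact reg_abs n _
    rw [norm_mul, hA, mul_assoc (8 * π ^ 2)]
    have c : ‖(8 * π ^ 2 : ℂ)‖ = 8 * π ^ 2 := by simp
    rw [c]; gcongr
  have b : 4 * π ^ 2 * r ^ 2 ≤ ‖(4 * π ^ 2 * ∑ i, (k i + n i) ^ 2 - lam : ℂ)‖ + A * r + B := by
    have c : ‖(4 * π ^ 2 * (r : ℂ) ^ 2)‖ = 4 * π ^ 2 * r ^ 2 := by simp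
    rw [← c, e]
    exact (norm_sub_le _ _).trans (add_le_add ((norm_sub_le _ _).trans (by linarith)) le_rfl)
  have p : 2 * r ^ 2 ≤ 4 * π ^ 2 * r ^ 2 := by
    have := Real.pi_gt_three
    gcongr; nlinarith
  nlinarith

theorem p_REG (hL : S_LIFT) : S_REG := by
  intro V v lam k hV hs hv he
  obtain ⟨-, -, -, -, -, -, hc, hm⟩ := hL
  have : IsFiniteMeasure (volume : Measure (UnitAddTorus (Fin 2))) := by rw [hm]; infer_instance
  let W : C(UnitAddTorus (Fin 2), ℂ) := ⟨V, hV⟩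
  have hVv : MemLp (fun x => V x * v x) 2 volume :=
    hv.of_le_mul (c := ‖W‖) (hV.aestronglyMeasurable.mul hv.1) (.of_forall fun x => by
      rw [norm_mul]; gcongr; exact W.norm_coe_le_norm x)
  have s2 : Summable fun n => ‖mFourierCoeff (fun x => V x * v x) n‖ ^ 2 := by
    rw [hm] at hVv
    refine (hasSum_sq_mFourierCoeff hVv.toLp).summable.congr fun n => ?_
    congr 2
    exact integral_congr_ae (ae_eq_rfl.smul hVv.coeFn_toLp)
  have key : ∀ᶠ n : Fin 2 → ℤ in cofinite, 1 ≤ ‖n‖ ∧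
      (1 + ‖gi n‖ ^ 2) * ‖mFourierCoeff v n‖ ≤ ‖mFourierCoeff (fun x => V x * v x) n‖ := by
    filter_upwards [reg_D lam k] with n hn
    refine ⟨hn.1, ?_⟩
    rw [eq_neg_of_add_eq_zero_right (he n), norm_neg, norm_mul]
    gcongr; exact hn.2
  have s1 : Summable fun n => ‖mFourierCoeff v n‖ := by
    refine (s2.add (EisensteinSeries.summable_one_div_norm_rpow (k := 4) (by norm_num))
      ).of_norm_bounded_eventually ?_
    filter_upwards [key] with n hn
    rw [norm_norm, Real.rpow_neg (norm_nonneg _), show (4 : ℝ) = (4 : ℕ) by norm_num,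
      Real.rpow_natCast]
    have a : ‖n‖ ^ 2 * ‖mFourierCoeff v n‖ ≤ ‖mFourierCoeff (fun x => V x * v x) n‖ := by
      refine le_trans ?_ hn.2
      have := pow_le_pow_left₀ (norm_nonneg _) (reg_norm n) 2
      gcongr; linarith
    have p : 0 < ‖n‖ ^ 2 := by have := hn.1; positivity
    rw [← le_div_iff₀' p, div_eq_mul_inv] at a
    rw [show ‖n‖ ^ 4 = (‖n‖ ^ 2) ^ 2 by ring, ← inv_pow]
    have q := inv_pos.2 p
    nlinarith [sq_nonneg (‖mFourierCoeff (fun x => V x * v x) n‖ - (‖n‖ ^ 2)⁻¹),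
      mul_nonneg (norm_nonneg (mFourierCoeff (fun x => V x * v x) n)) q.le]
  have vi : Integrable v := hv.integrable one_le_two
  have n1 : ∀ (m : Fin 2 → ℤ) x, ‖mFourier m x‖ = 1 := fun m x => by
    simp [mFourier, fourier_apply]
  have conv : ∀ n, HasSum (fun m => mFourierCoeff V m * mFourierCoeff v (n - m))
      (mFourierCoeff (fun x => V x * v x) n) := fun n => by
    have a := hasSum_integral_of_summable_integral_norm (μ := volume)
      (F := fun m x => mFourierCoeff V m * (mFourier (-(n - m)) x * v x))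
      (fun m => (vi.bdd_mul (c := 1) (mFourier _).continuous.aestronglyMeasurable
        (.of_forall fun x => (n1 _ x).le)).const_mul _)
      (by
        simp only [norm_mul, n1, one_mul, integral_const_mul]
        exact hs.norm.mul_right _)
    simp only [integral_const_mul, ← hc] at a
    refine Eq.subst (motive := fun z => HasSum _ z) (Eq.symm ?_) a
    rw [hc]
    refine integral_congr_ae (.of_forall fun x => ?_)
    have b := ((hasSum_mFourier_series_apply_of_summable (f := W) hs x).mul_right (v x)).mul_left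
      (mFourier (-n) x)
    refine (b.tsum_eq.symm.trans (tsum_congr fun m => ?_))
    rw [show -(n - m) = -n + m by ring, mFourier_add, smul_eq_mul]
    change _ * (mFourierCoeff V m * _ * _) = _
    ring
  have s3 : Summable fun n => ∑' m, ‖mFourierCoeff V m‖ * ‖mFourierCoeff v (n - m)‖ := by
    have a := hs.norm.mul_of_nonneg s1 (fun _ => norm_nonneg _) fun _ => norm_nonneg _
    let e : (Fin 2 → ℤ) × (Fin 2 → ℤ) ≃ (Fin 2 → ℤ) × (Fin 2 → ℤ) :=
      ⟨fun p => (p.2, p.1 - p.2), fun p => (p.1 + p.2, p.1), fun p => by simp, fun p => by simp⟩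
    exact (e.summable_iff.2 a).prod
  refine s3.of_norm_bounded_eventually ?_
  filter_upwards [key] with n hn
  rw [Real.norm_of_nonneg (by positivity)]
  refine hn.2.trans ?_
  rw [← (conv n).tsum_eq]
  simp only [← norm_mul]
  exact norm_tsum_le_tsum_norm (conv n).summable.norm

end Pool.Agent.P.MP_a11f68_mp.Q

/-! Weak solutions are classical. -/

namespace Pool.Agent.P.MP_a11f68_mp.Q

open Complex ComplexConjugate MeasureTheory UnitAddTorus Metric Filter Topology Set Laplacian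
open scoped Real ENNReal

lemma br2_rep (hL : S_LIFT) (v : UnitAddTorus (Fin 2) → ℂ) (hv : MemLp v 2 volume)
    (hs : Summable fun n => ‖mFourierCoeff v n‖) :
    ∃ v0 : C(UnitAddTorus (Fin 2), ℂ), v0 =ᵐ[volume] v ∧
      ∀ x, v0 x = ∑' n, mFourierCoeff v n * mFourier n x := by
  have h1 : Summable fun n => mFourierCoeff v n • mFourier n :=
    .of_norm (by simpa only [norm_smul, mFourier_norm, mul_one] using hs)
  refine ⟨_, ?_, fun x => ((ContinuousMap.evalCLM ℂ x).hasSum h1.hasSum).tsum_eq.symm⟩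
  rw [hL.2.2.2.2.2.2.2] at hv ⊢
  have h2 := hasSum_mFourier_series_L2 (hv.toLp v)
  have h3 : mFourierCoeff (hv.toLp v) = mFourierCoeff v := funext fun n =>
    integral_congr_ae (hv.coeFn_toLp.mono fun x hx => by simp only [hx])
  rw [h3] at h2
  have h4 := (ContinuousMap.toLp (E := ℂ) 2
    (Measure.pi fun _ : Fin 2 => (AddCircle.haarAddCircle : Measure UnitAddCircle)) ℂ).hasSum
    h1.hasSum
  simp only [map_smul] at h4
  have h5 := h4.unique h2
  refine (ContinuousMap.coeFn_toLp (p := 2) (𝕜 := ℂ) _ _).symm.trans ?_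
  rw [h5]
  exact hv.coeFn_toLp

lemma br2_zero (f : UnitAddTorus (Fin 2) → ℂ) (hf : Continuous f)
    (h : ∀ n, mFourierCoeff f n = 0) (x : UnitAddTorus (Fin 2)) : f x = 0 := by
  have h0 : mFourierCoeff (⟨f, hf⟩ : C(UnitAddTorus (Fin 2), ℂ)) = fun _ => 0 := funext h
  have h1 := hasSum_mFourier_series_apply_of_summable (f := ⟨f, hf⟩) (h0 ▸ summable_zero) x
  rw [h0] at h1
  simp only [zero_smul] at h1
  exact h1.unique hasSum_zero

lemma br2_itd (i : ℕ) :
    iteratedDeriv i (fun t : ℝ => cexp (t * I)) = fun t : ℝ => I ^ i * cexp (t * I) := by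
  induction i with
  | zero => simp
  | succ i ih =>
    rw [iteratedDeriv_succ, ih]
    funext t
    have h := (((Complex.ofRealCLM.hasDerivAt (x := t)).mul_const I).cexp).const_mul (I ^ i)
    have h2 := h.deriv
    simp only [Complex.ofRealCLM_apply, Complex.ofReal_one, one_mul] at h2
    rw [h2]
    ring

lemma br2_ecd : ContDiff ℝ 2 fun t : ℝ => cexp (t * I) :=
  (Complex.ofRealCLM.contDiff.mul contDiff_const).cexp

/-- the phase of a monomial -/
noncomputable def br2_ph (n : Fin 2 → ℤ) : ℂ →L[ℝ] ℝ := (2 * π) • innerSL ℝ (gi n)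

lemma br2_bl (n : Fin 2 → ℤ) :
    bl (fun i => n i) = (fun t : ℝ => cexp (t * I)) ∘ br2_ph n := by
  funext ζ
  simp only [bl, br2_ph, Function.comp, smul_apply, innerSL_apply_apply, Complex.inner, gi,
    smul_eq_mul]
  congr 1
  simp
  ring

lemma br2_bd (n : Fin 2 → ℤ) (a : ℂ) (i : ℕ) (hi : i ≤ 2) (ζ : ℂ) :
    ‖iteratedFDeriv ℝ i (fun ζ => a * bl (fun i => n i) ζ) ζ‖ ≤
      (2 * π) ^ i * ((1 + ‖gi n‖ ^ 2) * ‖a‖) := by
  have hi' : (i : WithTop ℕ∞) ≤ 2 := by exact_mod_cast hi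
  have h1 : ContDiff ℝ 2 (bl fun i => n i) := by
    rw [br2_bl]; exact br2_ecd.comp (br2_ph n).contDiff
  have h2 : ‖br2_ph n‖ = 2 * π * ‖gi n‖ := by
    rw [br2_ph, norm_smul, innerSL_apply_norm, Real.norm_of_nonneg (by positivity)]
  have h3 : ‖gi n‖ ^ i ≤ 1 + ‖gi n‖ ^ 2 := by
    have := norm_nonneg (gi n)
    interval_cases i <;> nlinarith [sq_nonneg (‖gi n‖ - 1)]
  have h4 := iteratedFDeriv_const_smul_apply' (a := a) (x := ζ) (h1.of_le hi').contDiffAt
  simp only [smul_eq_mul] at h4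
  rw [h4, norm_smul, br2_bl, (br2_ph n).iteratedFDeriv_comp_right br2_ecd ζ hi']
  refine (mul_le_mul_of_nonneg_left
    (ContinuousMultilinearMap.norm_compContinuousLinearMap_le _ _) (norm_nonneg a)).trans ?_
  rw [norm_iteratedFDeriv_eq_norm_iteratedDeriv, br2_itd, norm_mul, norm_pow, Complex.norm_I,
    Complex.norm_exp_ofReal_mul_I, Finset.prod_const, Finset.card_fin, h2, mul_pow (2 * π)]
  calc _ = (2 * π) ^ i * (‖gi n‖ ^ i * ‖a‖) := by ring
    _ ≤ _ := by gcongr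

lemma br2_cd (a : (Fin 2 → ℤ) → ℂ) (hs : Summable fun n => (1 + ‖gi n‖ ^ 2) * ‖a n‖) :
    ContDiff ℝ 2 fun ζ => ∑' n, a n * bl (fun i => n i) ζ := by
  refine contDiff_tsum (N := 2) (v := fun i n => (2 * π) ^ i * ((1 + ‖gi n‖ ^ 2) * ‖a n‖))
    (fun n => contDiff_const.mul ?_) (fun i _ => hs.mul_left _)
    fun i n ζ hi => br2_bd n (a n) i (by exact_mod_cast hi) ζ
  rw [br2_bl]
  exact br2_ecd.comp (br2_ph n).contDiff

lemma br2_blcd (k : Fin 2 → ℂ) : ContDiff ℝ 2 (bl k) :=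
  (contDiff_const.mul
    ((contDiff_const.mul (Complex.ofRealCLM.contDiff.comp Complex.reCLM.contDiff)).add
      (contDiff_const.mul (Complex.ofRealCLM.contDiff.comp Complex.imCLM.contDiff)))).cexp

lemma br2_qp (k : Fin 2 → ℂ) : QP k (bl k) := by
  constructor <;> intro ζ <;> simp only [bl, ← Complex.exp_add] <;> congr 1 <;> simp <;> ring

lemma br2_shift {u : ℂ → ℂ} (hu : ContDiff ℝ 2 u) {a c : ℂ} (h : ∀ ζ, u (ζ + a) = c * u ζ)
    (ζ : ℂ) : Δ u (ζ + a) = c * Δ u ζ := by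
  have h1 : (fun z => u (z + a)) = c • u := funext h
  have h2 := InnerProductSpace.laplacian_smul c (hu.contDiffAt (x := ζ))
  rw [← h1] at h2
  rw [← smul_eq_mul, ← h2]
  simp only [InnerProductSpace.laplacian_eq_iteratedFDeriv_complexPlane,
    iteratedFDeriv_comp_add_right]

lemma br2_cont {u : ℂ → ℂ} (hu : ContDiff ℝ 2 u) : Continuous (Δ u) := by
  have h := hu.continuous_iteratedFDeriv (m := 2) le_rfl
  rw [InnerProductSpace.laplacian_eq_iteratedFDeriv_complexPlane]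
  exact (h.eval_const _).add (h.eval_const _)

theorem p_BR2 (hL : S_LIFT) (hI : S_IBP) (hW : S_WIE) (hR : S_REG) : S_BR2 := by
  rintro V lam k hV ⟨v, hv, hv0, heq⟩
  obtain ⟨l1, l2, l3, l4, l5, l6, l7, -⟩ := id hL
  have hVc : Continuous V := l4 V hV.continuous
  have hs := hR V v lam k hVc (hW V hV) hv heq
  obtain ⟨v0, h0, h1⟩ := br2_rep hL v hv (hs.of_nonneg_of_le (fun _ => norm_nonneg _) fun n =>
    le_mul_of_one_le_left (norm_nonneg _) (le_add_of_nonneg_right (sq_nonneg _)))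
  have h2 : ContDiff ℝ 2 fun ζ => v0 (pr ζ) := by
    simp only [h1, l5]
    exact br2_cd _ hs
  have hb : ∀ ζ, bl k ζ ≠ 0 := fun ζ => Complex.exp_ne_zero _
  obtain ⟨u, hu⟩ : ∃ u : ℂ → ℂ, u = fun ζ => bl k ζ * v0 (pr ζ) := ⟨_, rfl⟩
  have hu2 : ContDiff ℝ 2 u := hu ▸ (br2_blcd k).mul h2
  have hq : QP k u := by
    constructor <;> intro ζ
    · simp only [hu, (br2_qp k).1, (l6 ζ).1, mul_assoc]
    · simp only [hu, (br2_qp k).2, (l6 ζ).2, mul_assoc]
  refine ⟨u, hu2, fun h => hv0 (h0.symm.trans (Eventually.of_forall fun x => ?_)), fun ζ => ?_, hq⟩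
  · obtain ⟨ζ, rfl⟩ := l1 x
    have := congrFun (hu.symm.trans h) ζ
    exact (mul_eq_zero.1 this).resolve_left (hb ζ)
  obtain ⟨g, hg⟩ := l3 (fun ζ => Δ u ζ / bl k ζ)
    (fun ζ => by
      rw [br2_shift hu2 hq.1, (br2_qp k).1, mul_div_mul_left _ _ (Complex.exp_ne_zero _)])
    (fun ζ => by
      rw [br2_shift hu2 hq.2, (br2_qp k).2, mul_div_mul_left _ _ (Complex.exp_ne_zero _)])
  have hgc : Continuous g := l4 g (by
    simp only [hg]
    exact (br2_cont hu2).div (br2_blcd k).continuous hb)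
  have hg' : ∀ ζ, Δ u ζ = bl k ζ * g (pr ζ) := fun ζ => by
    rw [hg, mul_div_cancel₀ _ (hb ζ)]
  have h3 := hI k u v0 g hu2 (fun ζ => by rw [hu]) hg'
  have hint : ∀ (n : Fin 2 → ℤ) (f : UnitAddTorus (Fin 2) → ℂ), Continuous f →
      Integrable (fun x => mFourier (-n) x * f x) := fun n f hf =>
    ((mFourier (-n)).continuous.mul hf).integrable_of_hasCompactSupport
      (HasCompactSupport.of_compactSpace _)
  have h4 := br2_zero (fun x => g x - V x * v0 x + lam * v0 x) (by fun_prop) (fun n => by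
    have e1 : mFourierCoeff v0 n = mFourierCoeff v n := by
      rw [l7, l7]
      exact integral_congr_ae (h0.mono fun x hx => by simp only [hx])
    have e2 : mFourierCoeff (fun x => V x * v0 x) n = mFourierCoeff (fun x => V x * v x) n := by
      rw [l7, l7]
      exact integral_congr_ae (h0.mono fun x hx => by simp only [hx])
    have e3 : mFourierCoeff (fun x => g x - V x * v0 x + lam * v0 x) n =
        mFourierCoeff g n - mFourierCoeff (fun x => V x * v0 x) n + lam * mFourierCoeff v0 n := by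
      have i1 := hint n g hgc
      have i2 := hint n (fun x => V x * v0 x) (by fun_prop)
      have i3 := (hint n v0 v0.continuous).const_mul lam
      rw [l7, l7, l7, l7, ← integral_sub i1 i2, ← integral_const_mul]
      refine Eq.trans ?_ (integral_add (i1.sub i2) i3)
      exact integral_congr_ae (Eventually.of_forall fun x => by simp only [Pi.sub_apply]; ring)
    rw [e3, h3, e1, e2]
    linear_combination -heq n) (pr ζ)
  rw [hg', hu]
  linear_combination bl k ζ * h4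

end Pool.Agent.P.MP_a11f68_mp.Q

/-! Block BR3: from the Euclidean plane to the complex coordinate and the torus. -/

namespace Pool.Agent.P.MP_a11f68_mp.Q

open Complex ComplexConjugate MeasureTheory UnitAddTorus Metric Filter Topology Set Laplacian
open scoped Real ENNReal

noncomputable section

lemma br3_symm (x : EuclideanSpace ℝ (Fin 2)) : ee.symm x = x 0 + x 1 * I := by
  rw [Complex.orthonormalBasisOneI_repr_symm_apply]

lemma br3_av (hL : S_LIFT) (W : EuclideanSpace ℝ (Fin 2) → ℂ) (V : UnitAddTorus (Fin 2) → ℂ)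
    (h : ∀ x : EuclideanSpace ℝ (Fin 2), W x = V (pr (x 0 + x 1 * I))) :
    average W = ∫ x, V x := by
  rw [hL.2.2.2.2.2.2.2]
  refine Eq.trans ?_ (UnitAddTorus.integral_preimage V 0).symm
  unfold average
  rw [← (PiLp.volume_preserving_toLp (Fin 2)).setIntegral_preimage_emb
    (MeasurableEquiv.toLp 2 _).measurableEmbedding]
  have e1 : (WithLp.toLp 2 : (Fin 2 → ℝ) → EuclideanSpace ℝ (Fin 2)) ⁻¹'
      {x | ∀ i, x i ∈ Set.Icc (0 : ℝ) 1} = Set.Icc (0 : Fin 2 → ℝ) 1 := by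
    ext x
    simp [Set.mem_Icc, Pi.le_def, forall_and]
  have e2 : {x : Fin 2 → ℝ | ∀ i, x i ∈ Ioc ((0 : Fin 2 → ℝ) i) ((0 : Fin 2 → ℝ) i + 1)} =
      univ.pi fun i => Ioc ((0 : Fin 2 → ℝ) i) ((1 : Fin 2 → ℝ) i) := by
    ext x
    simp
  rw [e1, e2, volume_pi, setIntegral_congr_set Measure.univ_pi_Ioc_ae_eq_Icc]
  refine integral_congr_ae (.of_forall fun x => ?_)
  simp only [h]
  congr 1
  funext i
  fin_cases i <;> simp [pr]

theorem p_BR3 (hL : S_LIFT) : S_BR3 := by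
  intro W V h
  refine ⟨br3_av hL W V h, fun lam k => ?_⟩
  have hW : ∀ x, W x = V (pr (ee.symm x)) := fun x => by rw [h, br3_symm]
  constructor
  · rintro ⟨u, hu, hne, heq, hB⟩
    refine ⟨fun z => u (ee z), hu.comp ee.contDiff, fun h0 => hne ?_, fun z => ?_, fun z => ?_,
      fun z => ?_⟩
    · ext x
      have := congrFun h0 (ee.symm x)
      rwa [LinearIsometryEquiv.apply_symm_apply] at this
    · rw [laplacian_comp_isometry ee hu]
      have := heq (ee z)
      rw [hW, LinearIsometryEquiv.symm_apply_apply] at this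
      linear_combination -this
    · have := hB ![1, 0] (ee z)
      have h1 : latticePoint ![1, 0] = ee 1 := by
        apply ee.symm.injective; rw [ee_symm_lattice]; simp
      rw [h1, ← map_add] at this
      simpa using this
    · have := hB ![0, 1] (ee z)
      have h1 : latticePoint ![0, 1] = ee I := by
        apply ee.symm.injective; rw [ee_symm_lattice]; simp
      rw [h1, ← map_add] at this
      simpa using this
  · rintro ⟨u, hu, hne, heq, h1, h2⟩
    refine ⟨fun x => u (ee.symm x), hu.comp ee.symm.contDiff, fun h0 => hne ?_, fun x => ?_,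
      fun n x => ?_⟩
    · ext z
      simpa using congrFun h0 (ee z)
    · rw [laplacian_comp_isometry ee.symm hu, heq, hW]
      ring
    · simp only [map_add, ee_symm_lattice]
      have := shift_int h1 (n 0) (ee.symm x)
      rw [mul_one] at this
      rw [← add_assoc, shift_int h2, this, ← mul_assoc, ← Complex.exp_add, Fin.sum_univ_two]
      congr 2; ring

end

end Pool.Agent.P.MP_a11f68_mp.Q
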