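import Pool.Agent.P.MP_a11f68_mp.Defs

namespace Pool.Agent.P.MP_a11f68_mp

open Complex Real MeasureTheory UnitAddTorus

/-- The Fermi variety of `-Δ + V` at energy `lam` for a potential on the torus `ℝ²/ℤ²`, in Floquet
form: `k` belongs to it when some nonzero `v ∈ L²(𝕋²)` satisfies, coefficient by coefficient, the
equation `(-Δ + V - lam) u = 0` for `u x = exp (2 π i k·x) v x`. -/
def weakFermi (V : UnitAddTorus (Fin 2) → ℂ) (lam : ℂ) : Set (Fin 2 → ℂ) :=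
  {k | ∃ v : UnitAddTorus (Fin 2) → ℂ, MemLp v 2 volume ∧ ¬ (v =ᵐ[volume] 0) ∧
    ∀ n : Fin 2 → ℤ, (4 * π ^ 2 * ∑ i, (k i + n i) ^ 2 - lam) * mFourierCoeff v n
      + mFourierCoeff (fun x => V x * v x) n = 0}

end Pool.Agent.P.MP_a11f68_mp
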