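import Pool.Agent.P.MP_a11f68_mp.Q.Plane

namespace Pool.Agent.P.MP_a11f68_mp.Q

open Complex ComplexConjugate MeasureTheory UnitAddTorus Metric Filter Topology Set Laplacian
open scoped Real ENNReal

variable {F B : Set (ℂ × ℂ)} {c : ℂ} {N : ℕ} {C : ℝ}

/-- Over the perforated plane `F \ B` stays at bounded distance from the real diagonal. -/
lemma main_perf (D : Data F c N C) (hI : Inv B) (hend : endSet F N ⊆ B) {w z : ℂ}
    (h1 : (w, z) ∈ F) (h2 : (w, z) ∉ B) (hw : w ∈ Perf) : ‖w - conj z‖ ≤ 2 * N + 1 := by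
  have hN : (0 : ℝ) ≤ N := Nat.cast_nonneg N
  by_cases hz : z ∈ Perf
  · by_contra h
    exact D.gap w hw z hz (by linarith) h1
  · obtain ⟨n, hn⟩ := not_Perf hz
    set m : Fin 2 → ℤ := ![n 0, -n 1] with hm
    have e1 : conj (gi m) = gi n := by rw [hm, gi_conj, conj_conj]
    have h3 := (D.inv.iff w z m).2 h1
    have h4 := mt (hI.iff w z m).1 h2
    have h5 : w + gi m ∉ Far N := fun h =>
      h4 (hend ⟨h3, ⟨Perf_add hw m, h⟩, by rw [e1]; linarith⟩)
    have h6 : w - conj z = (w + gi m) - conj (z + conj (gi m)) := by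
      rw [map_add, conj_conj]; ring
    rw [h6]
    refine (norm_sub_le _ _).trans ?_
    rw [norm_conj, e1]
    linarith [not_Far h5]

/-- The trace of the fibres is quasi-periodic, so the Legendre relation applies. -/
lemma main_leg (hL : S_LEG) (hF : Inv F) (hI : Inv B) {d : ℕ} {S : ℂ → ℂ} {E : Set ℂ}
    (hE : E.Countable) (hS : DifferentiableOn ℂ S (range gi)ᶜ)
    (h : ∀ s ∉ range gi, (fib F B univ s).Finite ∧ (s ∉ E → (fib F B univ s).ncard = d) ∧
      ((fib F B univ s).ncard = d → S s = ∑ᶠ t ∈ fib F B univ s, t)) {c₀ : ℂ}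
    (hc : Tendsto (fun w => w * S w) (𝓝[≠] 0) (𝓝 c₀)) : c₀ = d / π := by
  have key : ∀ n, ∀ w ∉ range gi, S (w + gi n) = S w + d * conj (gi n) := by
    intro n w hw
    have := closed_of_dense (g := fun w => S (w + gi n) - (S w + d * conj (gi n))) (C := {0})
      isClosed_gi.isOpen_compl hE ((hS.continuousOn.comp (by fun_prop)
        fun x hx => add_gi_notMem hx n).sub (hS.continuousOn.add continuousOn_const))
      isClosed_singleton (fun x hx hxE => ?_) w hw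
    · exact sub_eq_zero.1 this
    obtain ⟨h1, h2, h3⟩ := h x hx
    have e : fib F B univ (x + gi n) = (fun t => t + conj (gi n)) '' fib F B univ x := by
      ext t
      obtain ⟨t, rfl⟩ : ∃ t', t = t' + conj (gi n) := ⟨t - conj (gi n), by ring⟩
      rw [(add_left_injective _).mem_set_image]
      simp only [fib, mem_ofPred_eq, mem_univ, true_and, hF.iff, hI.iff]
    have e2 : (fib F B univ (x + gi n)).ncard = d := by
      rw [e, ncard_image_of_injective _ (add_left_injective _), h2 hxE]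
    rw [mem_singleton_iff, sub_eq_zero, (h _ (add_gi_notMem hx n)).2.2 e2, h3 (h2 hxE), e,
      finsum_mem_image (add_left_injective _).injOn, finsum_mem_add_distrib h1]
    congr 1
    rw [finsum_mem_eq_finite_toFinset_sum _ h1, Finset.sum_const, nsmul_eq_mul,
      ← ncard_eq_toFinset_card _ h1, h2 hxE]
  refine hL S d c₀ hS (fun w hw => ⟨?_, ?_⟩) hc
  · simpa [gi] using key ![1, 0] w hw
  · simpa [gi, sub_eq_add_neg] using key ![0, 1] w hw

theorem p_MAIN (hF : S_FIB) (hP : S_PERF) (hL : S_LEG) (hS : S_PSI) : S_MAIN := by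
  intro F B c N C D hc hB hI hend
  have hN : (0 : ℝ) ≤ N := Nat.cast_nonneg N
  set M : ℕ := 2 * N + 2 with hM
  have hM' : (M : ℝ) = 2 * N + 2 := by rw [hM]; push_cast; ring
  set Y : ℂ → Set ℂ := fib (Prod.swap ⁻¹' F) (Prod.swap ⁻¹' B) (ball 0 (1 / 2)) with hY
  have hYm : ∀ z w, w ∈ Y z ↔ ‖w‖ < 1 / 2 ∧ (w, z) ∈ F ∧ (w, z) ∉ B := fun z w => by
    simp [hY, fib]
  obtain ⟨d', S', E', hE', hS', h'⟩ := hF (Prod.swap ⁻¹' F) (Prod.swap ⁻¹' B) (ball 0 (1 / 2))
    (Far M) D.hyp.swap hB.swap isOpen_ball (isOpen_Far M) (hP M).2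
    (fun z _ => D.line hc z) (fun z₀ hz₀ => ⟨closedBall 0 (2 / 5), isCompact_closedBall _ _,
      closedBall_subset_ball (by norm_num), by
        filter_upwards [(isOpen_Far M).mem_nhds hz₀] with z hz w hw
        obtain ⟨h1, h2, h3⟩ := (hYm z w).1 hw
        refine mem_closedBall_zero_iff.2 (not_Perf_small (fun hp => ?_) h1)
        have h4 := main_perf D hI hend h2 h3 hp
        have h5 := norm_sub_norm_le (conj z) w
        rw [norm_conj, norm_sub_rev] at h5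
        linarith [Far_norm hz]⟩)
  rw [← hY] at h'
  have hNM : Far M ⊆ Far N := Far_mono (by omega)
  have hd' : d' ≤ 1 := by
    obtain ⟨z, hz, hzE, -⟩ := exists_far hE' M 0
    rw [← (h' z hz.2).2.2.1 hzE]
    refine (ncard_le_one (h' z hz.2).1).2 fun a ha b hb => ?_
    rw [hYm] at ha hb
    exact D.e2.uniq z ⟨hz.1, hNM hz.2⟩ a b ha.1 hb.1 ha.2.1 hb.2.1
  have red : ∀ w z, (w, z) ∈ F → (w, z) ∉ B → ‖w - conj z‖ ≤ 2 * M + 1 ∨
      ∃ n, z + conj (gi n) ∈ Far M ∧ w + gi n ∈ Y (z + conj (gi n)) := by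
    intro w z h1 h2
    by_cases hw : w ∈ Perf
    · exact Or.inl ((main_perf D hI hend h1 h2 hw).trans (by linarith))
    obtain ⟨n, hn⟩ := not_Perf hw
    by_cases hz : z + conj (gi n) ∈ Far M
    · exact Or.inr ⟨n, hz, (hYm _ _).2 ⟨by linarith, (D.inv.iff w z n).2 h1,
        mt (hI.iff w z n).1 h2⟩⟩
    · left
      rw [show w - conj z = (w + gi n) - conj (z + conj (gi n)) by rw [map_add, conj_conj]; ring]
      refine (norm_sub_le _ _).trans ?_
      rw [norm_conj]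
      linarith [not_Far hz]
  have bd : ∀ {w z : ℂ} {ρ : ℝ}, ‖w - conj z‖ ≤ ρ → ‖z‖ ≤ ‖w‖ + ρ := fun {w z ρ} h => by
    have h5 := norm_sub_norm_le (conj z) w
    rw [norm_conj, norm_sub_rev] at h5
    linarith
  have hline : ∀ s, ∃ t, (s, t) ∉ F := fun s => D.swap.line hc s
  rcases Nat.le_one_iff_eq_zero_or_eq_one.1 hd' with rfl | rfl
  · left
    obtain ⟨d, S, E, hE, hSd, h⟩ := hF F B univ univ D.hyp hB isOpen_univ isOpen_univ
      isPreconnected_univ (fun s _ => hline s) (fun w₀ _ =>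
        ⟨closedBall 0 (‖w₀‖ + 1 + (2 * M + 1)), isCompact_closedBall _ _, subset_univ _, by
        filter_upwards [ball_mem_nhds w₀ one_pos] with w hw z hz
        rcases red w z hz.2.1 hz.2.2 with h | ⟨n, h1, h2⟩
        · have := norm_sub_norm_le w w₀
          rw [mem_ball, dist_eq_norm] at hw
          exact mem_closedBall_zero_iff.2 ((bd h).trans (by linarith))
        · obtain ⟨h5, h6, -⟩ := h' _ h1
          rw [Nat.le_zero, ncard_eq_zero h5] at h6
          rw [h6] at h2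
          exact h2.elim⟩)
    have hd : (0 : ℂ) = d / π := by
      refine main_leg hL D.inv hI hE (hSd.mono (subset_univ _))
        (fun s _ => ⟨(h s trivial).1, (h s trivial).2.2⟩) ?_
      have : Tendsto (fun w => w * S w) (𝓝 0) (𝓝 (0 * S 0)) :=
        tendsto_id.mul (differentiableOn_univ.1 hSd).continuous.continuousAt
      simpa using this.mono_left nhdsWithin_le_nhds
    have hd0 : d = 0 := by
      have hπ : (π : ℂ) ≠ 0 := ofReal_ne_zero.2 Real.pi_ne_zero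
      rw [eq_comm, div_eq_zero_iff] at hd
      exact_mod_cast hd.resolve_right hπ
    rintro ⟨w, z⟩ hq
    by_contra hq'
    obtain ⟨h5, h6, -⟩ := h w trivial
    rw [hd0, Nat.le_zero, ncard_eq_zero h5] at h6
    exact (h6 ▸ (show z ∈ fib F B univ w from ⟨trivial, hq, hq'⟩) : z ∈ (∅ : Set ℂ))
  right
  have g1 : ∀ z ∈ Far M, ∀ w ∈ Y z, S' z = w := fun z hz w hw => by
    obtain ⟨h1, h2, -, h4⟩ := h' z hz
    have h5 : (Y z).ncard = 1 := le_antisymm h2 ((ncard_pos h1).2 ⟨w, hw⟩)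
    obtain ⟨a, ha⟩ := ncard_eq_one.1 h5
    rw [h4 h5, ha, finsum_mem_singleton]
    rw [ha] at hw
    exact hw.symm
  have g2 : ∀ z ∈ Far M, z ∉ E' → S' z ∈ Y z := fun z hz hzE => by
    obtain ⟨w, hw⟩ := nonempty_of_ncard_ne_zero
      (show (Y z).ncard ≠ 0 by rw [(h' z hz).2.2.1 hzE]; exact one_ne_zero)
    rwa [g1 z hz w hw]
  have hfar : ∀ z : ℂ, 2 * (M : ℝ) < ‖z‖ → z ∈ Far M := fun z hz => by
    by_contra h
    linarith [not_Far h]
  refine ⟨fun hsub => ?_, ?_⟩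
  · obtain ⟨z, hz, hzE, -⟩ := exists_far hE' M 0
    obtain ⟨h1, h2, h3⟩ := (hYm _ _).1 (g2 z hz.2 hzE)
    exact h3 (hsub (show (z, S' z) ∈ endSet (Prod.swap ⁻¹' F) N from ⟨h2, ⟨hz.1, hNM hz.2⟩, h1⟩))
  obtain ⟨p1, R₂, hR₂, p2⟩ := hS S' c (2 * M) hc (by linarith) (hS'.mono hfar) (fun z hz => by
      have := closed_of_dense (C := closedBall 0 1) (isOpen_Far M) hE' hS'.continuousOn
        isClosed_closedBall (fun x hx hxE => mem_closedBall_zero_iff.2 (by
          linarith [((hYm _ _).1 (g2 x hx hxE)).1])) z (hfar z hz)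
      exact mem_closedBall_zero_iff.1 this) (fun ε hε R' => by
      obtain ⟨z, hz, hzE, hR⟩ := exists_far hE' M (max R' (|C| / ε))
      obtain ⟨h1, h2, -⟩ := (hYm _ _).1 (g2 z hz.2 hzE)
      refine ⟨z, (le_max_left _ _).trans_lt hR,
        (D.e2.asym z ⟨hz.1, hNM hz.2⟩ _ h1 h2).trans_lt ?_⟩
      have h3 := (le_max_right _ _).trans_lt hR
      have h4 : 0 < ‖z‖ := lt_of_le_of_lt (by positivity) h3
      rw [div_lt_iff₀ hε] at h3
      rw [div_lt_iff₀ h4]
      linarith [le_abs_self C])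
  obtain ⟨d, S, E, hE, hSd, h⟩ := hF F B univ (range gi)ᶜ D.hyp hB isOpen_univ
    isClosed_gi.isOpen_compl
    ((countable_range gi).isPathConnected_compl_of_one_lt_rank
      (by rw [Complex.rank_real_complex]; norm_num)).isConnected.isPreconnected
    (fun s _ => hline s) (fun w₀ hw₀ => by
      obtain ⟨δ, hδ, hsub⟩ := Metric.isOpen_iff.1 isClosed_gi.isOpen_compl w₀ hw₀
      obtain ⟨R₁, hR₁⟩ := p1 (δ / 2) (by linarith)
      refine ⟨closedBall 0 (‖w₀‖ + δ + max (2 * (M : ℝ) + 1) (R₁ + 1)), isCompact_closedBall _ _,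
        subset_univ _, ?_⟩
      filter_upwards [ball_mem_nhds w₀ (half_pos hδ)] with w hw z hz
      have h0 := norm_sub_norm_le w w₀
      rw [mem_ball, dist_eq_norm] at hw
      have : ‖w - conj z‖ ≤ max (2 * (M : ℝ) + 1) (R₁ + 1) := by
        rcases red w z hz.2.1 hz.2.2 with h | ⟨n, h1, h2⟩
        · exact h.trans (le_max_left _ _)
        refine le_trans ?_ (le_max_right _ _)
        have h3 : ‖z + conj (gi n)‖ ≤ R₁ := by
          by_contra h4
          have h5 := hR₁ _ (not_le.1 h4)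
          rw [g1 _ h1 _ h2] at h5
          refine hsub (a := gi (-n)) ?_ ⟨-n, rfl⟩
          rw [mem_ball, dist_eq_norm, gi_neg,
            show -gi n - w₀ = (w - w₀) - (w + gi n) by ring]
          linarith [norm_sub_le (w - w₀) (w + gi n)]
        rw [show w - conj z = (w + gi n) - conj (z + conj (gi n)) by
          rw [map_add, conj_conj]; ring]
        refine (norm_sub_le _ _).trans ?_
        rw [norm_conj]
        linarith [((hYm _ _).1 h2).1]
      exact mem_closedBall_zero_iff.2 ((bd this).trans (by linarith)))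
  refine ⟨d, main_leg hL D.inv hI hE hSd (fun s hs => ⟨(h s hs).1, (h s hs).2.2⟩) ?_⟩
  rw [Metric.tendsto_nhds]
  intro ε hε
  have hR0 : 0 < R₂ := by linarith
  obtain ⟨η₀, hη₀, p3⟩ := Metric.eventually_nhds_iff.1
    (eventually_nhdsWithin_iff.1 (p2 (ε / 3) (by linarith)))
  set η := min (min η₀ (1 / 2)) (ε / 3 / ((d + 1) * R₂)) with hη
  have hη0 : 0 < η := lt_min (lt_min hη₀ (by norm_num)) (by positivity)
  have hΩ : ∀ w ∈ ball (0 : ℂ) η \ {0}, w ∉ range gi := by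
    rintro _ ⟨h1, h2⟩ ⟨n, rfl⟩
    exact h2 (gi_norm (by
      linarith [mem_ball_zero_iff.1 h1, min_le_left (min η₀ (1 / 2)) (ε / 3 / ((d + 1) * R₂)),
        min_le_right η₀ (1 / 2)]))
  have key := closed_of_dense (g := fun w => w * S w) (C := closedBall c (2 * ε / 3))
    (isOpen_ball.sdiff isClosed_singleton) (hE.union (hE'.image S'))
    (continuousOn_id.mul (hSd.continuousOn.mono hΩ)) isClosed_closedBall (fun w hw hwE => by
      have hw1 : ‖w‖ < η := mem_ball_zero_iff.1 hw.1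
      have hw2 : ‖w‖ < η₀ := hw1.trans_le ((min_le_left _ _).trans (min_le_left _ _))
      have hw3 : ‖w‖ < 1 / 2 := hw1.trans_le ((min_le_left _ _).trans (min_le_right _ _))
      have hw4 : ‖w‖ < ε / 3 / ((d + 1) * R₂) := hw1.trans_le (min_le_right _ _)
      obtain ⟨z, q1, q2, q3, q4⟩ := p3 (y := w) (by rwa [dist_zero_right]) hw.2
      have hzF := hfar z (by linarith)
      have hzE : z ∉ E' := fun hz => hwE (Or.inr ⟨z, hz, q2⟩)
      have hz := (hYm _ _).1 (q2 ▸ g2 z hzF hzE)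
      obtain ⟨r1, r2, r3, r4⟩ := h w (hΩ w hw)
      have hzT : z ∈ r1.toFinset := r1.mem_toFinset.2 ⟨trivial, hz.2⟩
      classical
      rw [mem_closedBall, dist_eq_norm, r4 (r3 fun hE => hwE (Or.inl hE)),
        finsum_mem_eq_finite_toFinset_sum _ r1, ← Finset.add_sum_erase _ _ hzT,
        show w * (z + ∑ t ∈ r1.toFinset.erase z, t) - c
          = (w * z - c) + w * ∑ t ∈ r1.toFinset.erase z, t by ring]
      have s1 : ‖∑ t ∈ r1.toFinset.erase z, t‖ ≤ (d + 1) * R₂ := by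
        refine (norm_sum_le _ _).trans ((Finset.sum_le_card_nsmul _ _ R₂ fun t ht => ?_).trans ?_)
        · by_contra h5
          have h6 := not_le.1 h5
          obtain ⟨h7, h8⟩ := Finset.mem_erase.1 ht
          exact h7 (q4 t h6 (g1 t (hfar t (by linarith)) w
            ((hYm _ _).2 ⟨hw3, (r1.mem_toFinset.1 h8).2⟩)))
        · rw [nsmul_eq_mul]
          refine mul_le_mul_of_nonneg_right ?_ hR0.le
          have : (r1.toFinset.erase z).card ≤ d :=
            Finset.card_erase_le.trans (by rwa [← ncard_eq_toFinset_card _ r1])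
          have : ((r1.toFinset.erase z).card : ℝ) ≤ d := by exact_mod_cast this
          linarith
      rw [lt_div_iff₀ (by positivity)] at hw4
      refine (norm_add_le _ _).trans ?_
      rw [norm_mul]
      nlinarith [norm_nonneg w])
  filter_upwards [mem_nhdsWithin_of_mem_nhds (ball_mem_nhds 0 hη0), self_mem_nhdsWithin]
    with w h1 h2
  exact (mem_closedBall.1 (key w ⟨h1, h2⟩)).trans_lt (by linarith)

end Pool.Agent.P.MP_a11f68_mp.Q

namespace Pool.Agent.P.MP_a11f68_mp.Q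

open Complex ComplexConjugate MeasureTheory UnitAddTorus Metric Filter Topology Set Laplacian
open scoped Real ENNReal

noncomputable section

/-- The coordinates `(w, z)`. -/
def cφ (k : Fin 2 → ℂ) : ℂ × ℂ := (k 0 + k 1 * I, k 0 - k 1 * I)

/-- The inverse change of coordinates. -/
def cψ (q : ℂ × ℂ) : Fin 2 → ℂ := ![(q.1 + q.2) / 2, (q.2 - q.1) * I / 2]

lemma cφ_cψ (q : ℂ × ℂ) : cφ (cψ q) = q := by
  ext <;> simp only [cφ, cψ, Matrix.cons_val_zero, Matrix.cons_val_one]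
  · linear_combination (q.2 - q.1) / 2 * I_sq
  · linear_combination (q.1 - q.2) / 2 * I_sq

lemma cψ_cφ (k : Fin 2 → ℂ) : cψ (cφ k) = k := by
  ext i
  fin_cases i <;> simp [cφ, cψ]
  linear_combination (-k 1) * I_sq

lemma cφ_add (k : Fin 2 → ℂ) (n : Fin 2 → ℤ) :
    cφ (fun i => k i + n i) = ((cφ k).1 + gi n, (cφ k).2 + conj (gi n)) := by
  ext <;> simp [cφ, gi] <;> ring

lemma an_cφ (k : Fin 2 → ℂ) : AnalyticAt ℂ cφ k := by
  have h : ∀ i, AnalyticAt ℂ (fun k : Fin 2 → ℂ => k i) k := fun i =>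
    (ContinuousLinearMap.proj (R := ℂ) (φ := fun _ : Fin 2 => ℂ) i).analyticAt k
  exact ((h 0).add ((h 1).mul analyticAt_const)).prod ((h 0).sub ((h 1).mul analyticAt_const))

lemma an_cψ (q : ℂ × ℂ) : AnalyticAt ℂ cψ q := by
  refine AnalyticAt.pi fun i => ?_
  fin_cases i
  · exact (analyticAt_fst.add analyticAt_snd).div_const
  · exact ((analyticAt_snd.sub analyticAt_fst).mul analyticAt_const).div_const

lemma an_of {A : Set (Fin 2 → ℂ)} (h : IsAnalyticSubset A) : An (cψ ⁻¹' A) := fun p => by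
  obtain ⟨U, h1, h2, m, f, h3, h4⟩ := h (cψ p)
  exact ⟨cψ ⁻¹' U, h1.preimage (continuous_iff_continuousAt.2 fun q => (an_cψ q).continuousAt),
    h2, m, fun j q => f j (cψ q), fun j q hq => (h3 j _ hq).comp (an_cψ q), fun q hq => h4 _ hq⟩

lemma An.to {A : Set (ℂ × ℂ)} (h : An A) : IsAnalyticSubset (cφ ⁻¹' A) := fun p => by
  obtain ⟨U, h1, h2, m, f, h3, h4⟩ := h (cφ p)
  exact ⟨cφ ⁻¹' U, h1.preimage (continuous_iff_continuousAt.2 fun q => (an_cφ q).continuousAt),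
    h2, m, fun j q => f j (cφ q), fun j q hq => (h3 j _ hq).comp (an_cφ q), fun q hq => h4 _ hq⟩

lemma inv_of {A : Set (Fin 2 → ℂ)} (h : IsLatticeInvariant A) : Inv (cψ ⁻¹' A) := fun q hq n => by
  have := h _ hq n
  rw [← cψ_cφ (fun i => cψ q i + n i), cφ_add, cφ_cψ] at this
  exact this

lemma Inv.to {A : Set (ℂ × ℂ)} (h : Inv A) : IsLatticeInvariant (cφ ⁻¹' A) := fun k hk n => by
  rw [mem_preimage, cφ_add]
  exact h _ hk n

lemma exists_data (h1 : S_OP) (h2 : S_SCHUR) (h3 : S_EST) {V : UnitAddTorus (Fin 2) → ℂ}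
    (hV : MemLp V ∞ volume) (lam : ℂ) : ∃ (F : Set (ℂ × ℂ)) (N : ℕ) (C : ℝ),
      Data F ((lam - ∫ x, V x) / (4 * π ^ 2)) N C ∧ weakFermi V lam = cφ ⁻¹' F := by
  obtain ⟨hi, T, hT, hk⟩ := h1 V lam hV
  obtain ⟨N, C, g, e1, e2⟩ := h3 T
  have hw : weakFermi V lam = cφ ⁻¹' opF T := Set.ext hk
  have hc : -T e0 0 = (lam - ∫ x, V x) / (4 * π ^ 2) := by rw [hT]; ring
  rw [hc] at e1 e2
  refine ⟨opF T, N, C, ⟨h2 T, ?_, g, e1, e2⟩, hw⟩
  have := inv_of hi
  rwa [hw, preimage_preimage, show (fun q => cφ (cψ q)) = id from funext cφ_cψ,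
    preimage_id] at this

/-- Reducibility forces the quantisation of the energy. -/
theorem necessity (h1 : S_OP) (h2 : S_SCHUR) (h3 : S_EST) (hD : S_DICH) (hM : S_MAIN)
    {V : UnitAddTorus (Fin 2) → ℂ} (hV : MemLp V ∞ volume) {μ : ℂ}
    (h : ¬ IrreducibleModPeriodicity (weakFermi V ((∫ x, V x) + μ))) :
    ∃ d : ℕ, μ = 4 * π * d := by
  obtain ⟨F, N, C, D, hF⟩ := exists_data h1 h2 h3 hV ((∫ x, V x) + μ)
  rw [add_sub_cancel_left] at D
  have hπ : (π : ℂ) ≠ 0 := ofReal_ne_zero.2 Real.pi_ne_zero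
  by_cases hμ : μ = 0
  · exact ⟨0, by simp [hμ]⟩
  have hc : μ / (4 * π ^ 2) ≠ 0 := div_ne_zero hμ (by simp [hπ])
  obtain ⟨A, B, a1, b1, a2, b2, a3, b3, hu⟩ := not_not.1 h
  have key : ∀ A : Set (Fin 2 → ℂ), IsAnalyticSubset A → IsLatticeInvariant A →
      A ⊂ weakFermi V ((∫ x, V x) + μ) → endSet F N ⊆ cψ ⁻¹' A → ∃ d : ℕ, μ = 4 * π * d := by
    intro A a1 a2 a3 he
    rcases hM F _ _ N C D hc (an_of a1) (inv_of a2) he with h | ⟨-, d, hd⟩
    · refine absurd (fun k hk => ?_) a3.2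
      rw [hF] at hk
      have := h hk
      rwa [mem_preimage, cψ_cφ] at this
    · refine ⟨d, ?_⟩
      field_simp at hd
      linear_combination hd
  rcases hD F _ _ N C D.hyp D.e1 (an_of a1) with ha | ⟨E, hE, ha⟩
  · exact key A a1 a2 a3 ha
  rcases hD F _ _ N C D.hyp D.e1 (an_of b1) with hb | ⟨E', hE', hb⟩
  · exact key B b1 b2 b3 hb
  obtain ⟨s, hs, hsE, -⟩ := exists_far (hE.union hE') N 0
  obtain ⟨t, t1, t2, t3⟩ := ha s hs fun h => hsE (Or.inl h)
  obtain ⟨t', t1', t2', t3'⟩ := hb s hs fun h => hsE (Or.inr h)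
  obtain rfl := D.e1.uniq s hs t t' t1 t1' t2 t2'
  have : cψ (s, t) ∈ A ∪ B := by rw [hu, hF, mem_preimage, cφ_cψ]; exact t2
  exact (this.elim t3 t3').elim

lemma memLp_top {V : UnitAddTorus (Fin 2) → ℂ} (hV : Continuous V) : MemLp V ∞ volume :=
  hV.memLp_top_of_hasCompactSupport (HasCompactSupport.of_compactSpace V) volume

lemma Aset_inv (d : ℕ) (A : ℂ → ℂ) : Inv (Aset d A) := by
  rintro q ⟨m, hm⟩ n
  refine ⟨m + -n, ?_⟩
  rw [← hm, gi_add, gi_neg]
  congr 1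
  ext <;> simp only [map_add, map_neg] <;> ring

/-- The theta potentials have a reducible Fermi curve at energy zero. -/
theorem sharp (h1 : S_OP) (h2 : S_SCHUR) (h3 : S_EST) (hD : S_DICH) (hM : S_MAIN) (hS : S_SOL)
    (hA : S_ASET) (hB : S_BR1) {d : ℕ} {f g a : ℂ → ℂ} (hd : 0 < d) (hT : Th d f g a)
    {V : UnitAddTorus (Fin 2) → ℂ} (hV : Continuous V) (hVp : ∀ ζ, V (pr ζ) = pot f g ζ) :
    (∫ x, V x) + 4 * π * d = 0 ∧ ¬ IrreducibleModPeriodicity (weakFermi V 0) := by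
  obtain ⟨F, N, C, D, hF⟩ := exists_data h1 h2 h3 (memLp_top hV) 0
  obtain ⟨-, -, -, hsol⟩ := hS d f g a hd hT
  obtain ⟨an, ⟨w₀, hw₀⟩, cov⟩ := hA d f g a hd hT
  set A := Aset d a with hAdef
  have hI : Inv A := Aset_inv d a
  have hπ : (π : ℂ) ≠ 0 := ofReal_ne_zero.2 Real.pi_ne_zero
  have mem : ∀ q : ℂ × ℂ, (GG d a q = 0 ∨ GG d a q.swap = 0) → q ∈ F := fun q hq => by
    have e := cφ_cψ q
    have : cψ q ∈ weakFermi V 0 := by
      refine hB V 0 _ hV ?_
      rw [show (fun ζ => V (pr ζ)) = fun ζ => (pot f g ζ : ℂ) from funext hVp]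
      refine hsol _ ?_
      rw [← e] at hq
      exact hq
    rwa [hF, mem_preimage, e] at this
  have base : ∀ q : ℂ × ℂ, GG d a q = 0 → q ∈ A := fun q hq => ⟨0, by simpa using hq⟩
  have AF : A ⊆ F := by
    rintro ⟨w, z⟩ ⟨n, hn⟩
    exact (D.inv.iff w z n).1 (mem _ (Or.inl hn))
  have BF : Prod.swap ⁻¹' A ⊆ F := by
    rintro ⟨w, z⟩ ⟨n, hn⟩
    refine (D.inv.iff w z ![n 0, -n 1]).1 (mem _ (Or.inr ?_))
    rw [gi_conj, conj_conj]
    exact hn
  have hc : (0 - ∫ x, V x) / (4 * π ^ 2) = d / π := by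
    refine eq_of_forall_dist_le fun ε hε => ?_
    obtain ⟨R, hR⟩ := cov (min (ε / 2) (1 / 2)) (by positivity)
    obtain ⟨z, hz, -, hzR⟩ := exists_far countable_empty N (max R (|C| / (ε / 2)))
    obtain ⟨w, w1, w2, w3⟩ := hR z ((le_max_left _ _).trans_lt hzR)
    have h4 := D.e2.asym z hz w (w1.trans_le (min_le_right _ _)) (AF (base _ w2))
    have h5 := (le_max_right _ _).trans_lt hzR
    have h6 : 0 < ‖z‖ := lt_of_le_of_lt (by positivity) h5
    rw [div_lt_iff₀ (by linarith)] at h5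
    have h7 : C / ‖z‖ ≤ ε / 2 := by
      rw [div_le_iff₀ h6]
      linarith [le_abs_self C]
    have h8 := dist_triangle_left ((0 - ∫ x, V x) / (4 * π ^ 2) : ℂ) (d / π) (z * w)
    rw [dist_eq_norm (z * w), dist_eq_norm (z * w)] at h8
    rw [mul_comm] at w3
    linarith [min_le_left (ε / 2) (1 / 2)]
  have hc0 : (0 - ∫ x, V x) / (4 * π ^ 2) ≠ 0 := by
    rw [hc]; exact div_ne_zero (by exact_mod_cast hd.ne') hπ
  refine ⟨by field_simp at hc; linear_combination -hc, ?_⟩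
  obtain ⟨R, hR⟩ := cov (1 / 2) (by norm_num)
  have ends : ∀ G : Set (ℂ × ℂ), Data G ((0 - ∫ x, V x) / (4 * π ^ 2)) N C →
      Prod.swap ⁻¹' A ⊆ G → ∀ X, An X → Prod.swap ⁻¹' A ⊆ X → endSet G N ⊆ X := by
    intro G DG hG X hX hAX
    rcases hD G X _ N C DG.hyp DG.e1 hX with h | ⟨E, hE, h⟩
    · exact h
    obtain ⟨s, hs, hsE, hsR⟩ := exists_far hE N R
    obtain ⟨t, t1, t2, t3⟩ := h s hs hsE
    obtain ⟨w, w1, w2, -⟩ := hR s hsR
    have hw : (s, w) ∈ Prod.swap ⁻¹' A := base _ w2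
    obtain rfl := DG.e1.uniq s hs t w t1 w1 t2 (hG hw)
    exact (t3 (hAX hw)).elim
  have hU := an.union an.swap
  have FU : F ⊆ A ∪ Prod.swap ⁻¹' A :=
    (hM F _ _ N C D hc0 hU (hI.union hI.swap) (ends F D BF _ hU subset_union_right)).resolve_right
      fun h => h.1 (ends _ D.swap (fun q hq => AF hq) _ hU.swap fun q hq => Or.inl hq)
  have BA : ¬ Prod.swap ⁻¹' A ⊆ A := fun h => by
    obtain ⟨ρ, hρ⟩ := hw₀.isBounded.exists_norm_le
    obtain ⟨n, hn⟩ := exists_nat_gt (max (R + ‖w₀‖) (ρ + 1))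
    have e : gi ![n, 0] = n := by simp [gi]
    have hn' : ‖gi ![n, 0]‖ = n := by rw [e, Complex.norm_natCast]
    obtain ⟨z, z1, z2, -⟩ := hR (w₀ + gi ![n, 0]) (by
      have := norm_sub_le (w₀ + gi ![n, 0]) w₀
      rw [add_sub_cancel_left, hn'] at this
      linarith [le_max_left (R + ‖w₀‖) (ρ + 1)])
    have h4 : (w₀, z - conj (gi ![n, 0])) ∈ Prod.swap ⁻¹' A :=
      (hI.swap.iff _ _ ![n, 0]).1 (by rw [sub_add_cancel]; exact base _ z2)
    have h5 := hρ _ (h h4)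
    have h6 := norm_sub_norm_le (conj (gi ![n, 0])) z
    rw [norm_conj, hn', norm_sub_rev] at h6
    linarith [le_max_right (R + ‖w₀‖) (ρ + 1)]
  have sur : Function.Surjective cφ := fun q => ⟨cψ q, cφ_cψ q⟩
  refine not_not.2 ⟨cφ ⁻¹' A, cφ ⁻¹' (Prod.swap ⁻¹' A), an.to, an.swap.to, hI.to, hI.swap.to,
    ?_, ?_, ?_⟩
  · rw [hF]
    exact ⟨preimage_mono AF, fun h => BA (BF.trans (sur.preimage_subset_preimage_iff.1 h))⟩
  · rw [hF]
    refine ⟨preimage_mono BF, fun h => BA fun q hq => ?_⟩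
    have h' : A ⊆ Prod.swap ⁻¹' A := AF.trans (sur.preimage_subset_preimage_iff.1 h)
    have h'' : q.swap.swap ∈ A := h' (show q.swap ∈ A from hq)
    rwa [Prod.swap_swap] at h''
  · rw [hF, ← preimage_union, FU.antisymm (union_subset AF BF)]

/-- For a `C²` potential the classical and the Floquet form of the Fermi variety agree. -/
theorem bridge (hL : S_LIFT) (h1 : S_BR1) (h2 : S_BR2) (h3 : S_BR3)
    {W : EuclideanSpace ℝ (Fin 2) → ℂ} (hW : ContDiff ℝ 2 W)
    (hp : ∀ (n : Fin 2 → ℤ) (x : EuclideanSpace ℝ (Fin 2)), W (x + latticePoint n) = W x) :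
    ∃ V : UnitAddTorus (Fin 2) → ℂ, Continuous V ∧
      (∀ ζ : ℂ, V (pr ζ) = W (WithLp.toLp 2 ![ζ.re, ζ.im])) ∧ average W = ∫ x, V x ∧
      ∀ lam, fermiVariety W lam = weakFermi V lam := by
  obtain ⟨-, -, hl, hcont, -⟩ := hL
  obtain ⟨V, hV⟩ := hl (fun ζ => W (WithLp.toLp 2 ![ζ.re, ζ.im])) (fun ζ => by
      rw [← hp ![1, 0] (WithLp.toLp 2 ![ζ.re, ζ.im])]
      congr 1
      ext i
      fin_cases i <;> simp [latticePoint]) (fun ζ => by
      rw [← hp ![0, 1] (WithLp.toLp 2 ![ζ.re, ζ.im])]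
      congr 1
      ext i
      fin_cases i <;> simp [latticePoint])
  have hc : ContDiff ℝ 2 fun ζ => V (pr ζ) := by
    rw [show (fun ζ => V (pr ζ)) = fun ζ : ℂ => W (WithLp.toLp 2 ![ζ.re, ζ.im]) from funext hV]
    refine hW.comp (contDiff_euclidean.2 fun i => ?_)
    fin_cases i
    · exact reCLM.contDiff
    · exact imCLM.contDiff
  have hVc := hcont V hc.continuous
  obtain ⟨a, b⟩ := h3 W V fun x => by
    rw [hV]
    congr 1
    ext i
    fin_cases i <;> simp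
  exact ⟨V, hVc, hV, a, fun lam => Set.ext fun k =>
    (b lam k).trans ⟨h1 V lam k hVc, h2 V lam k hc⟩⟩

/-- For every `d` a real-analytic real potential is reducible at `4 π d` above its average. -/
theorem sufficiency (h1 : S_OP) (h2 : S_SCHUR) (h3 : S_EST) (hD : S_DICH) (hM : S_MAIN)
    (hS : S_SOL) (hA : S_ASET) (hL : S_LIFT) (b1 : S_BR1) (b2 : S_BR2) (b3 : S_BR3) (t1 : S_TH1)
    (t2 : S_TH2) (hZ : S_ZERO) (d : ℕ) :
    ∃ V : EuclideanSpace ℝ (Fin 2) → ℝ, AnalyticOnNhd ℝ V univ ∧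
      (∀ (n : Fin 2 → ℤ) (x : EuclideanSpace ℝ (Fin 2)), V (x + latticePoint n) = V x) ∧
      ¬ IrreducibleModPeriodicity (fermiVariety (fun x => (V x : ℂ))
        (average (fun x => (V x : ℂ)) + 4 * π * d)) := by
  rcases Nat.eq_zero_or_pos d with rfl | hd
  · refine ⟨fun _ => 0, analyticOnNhd_const, fun _ _ => rfl, ?_⟩
    obtain ⟨V, -, hV, -, hb⟩ := bridge hL b1 b2 b3 (W := fun _ => ((0 : ℝ) : ℂ)) contDiff_const
      fun _ _ => rfl
    obtain rfl : V = fun _ => 0 := funext fun x => by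
      obtain ⟨ζ, rfl⟩ := hL.1 x
      rw [hV, ofReal_zero]
    rw [hb, show average (fun _ => ((0 : ℝ) : ℂ)) + 4 * π * ((0 : ℕ) : ℂ) = 0 by simp [average]]
    exact hZ
  obtain ⟨p1, p2, p3, p4, p5, p6, p7, p8, p9, p10, p11, p12, p13⟩ := t1 d hd
  have hT : Th d (s0 d) (s1 d) (AA d) :=
    ⟨p1, p2, p3, p4, p5, p6, p7, p8, p9, p10, p11, p12, p13, t2 d hd⟩
  obtain ⟨an, per1, perI, -⟩ := hS d _ _ _ hd hT
  set P := pot (s0 d) (s1 d) with hP
  have hl : ∀ x : EuclideanSpace ℝ (Fin 2),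
      AnalyticAt ℝ (fun x : EuclideanSpace ℝ (Fin 2) => (x 0 : ℂ) + x 1 * I) x := fun x => by
    have h : ∀ i, AnalyticAt ℝ (fun x : EuclideanSpace ℝ (Fin 2) => (x i : ℂ)) x := fun i =>
      (ofRealCLM.comp (EuclideanSpace.proj i)).analyticAt x
    exact (h 0).add ((h 1).mul analyticAt_const)
  have hW : AnalyticOnNhd ℝ (fun x : EuclideanSpace ℝ (Fin 2) => P (x 0 + x 1 * I)) univ :=
    fun x _ => (an _ trivial).comp (hl x)
  have hp : ∀ (n : Fin 2 → ℤ) (x : EuclideanSpace ℝ (Fin 2)),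
      P ((x + latticePoint n) 0 + (x + latticePoint n) 1 * I) = P (x 0 + x 1 * I) := fun n x => by
    have q1 := (show Function.Periodic P 1 from per1).int_mul (n 0)
    have q2 := (show Function.Periodic P I from perI).int_mul (n 1)
    rw [← q1 (x 0 + x 1 * I), ← q2 (x 0 + x 1 * I + n 0 * 1)]
    congr 1
    simp [latticePoint]
    ring
  refine ⟨_, hW, hp, ?_⟩
  obtain ⟨V, hVc, hV, ha, hb⟩ := bridge hL b1 b2 b3
    (W := fun x : EuclideanSpace ℝ (Fin 2) => (P (x 0 + x 1 * I) : ℂ))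
    (ofRealCLM.contDiff.comp hW.contDiff) fun n x => by rw [hp]
  obtain ⟨e, h⟩ := sharp h1 h2 h3 hD hM hS hA b1 hd hT hVc fun ζ => by
    rw [hV]
    simp [hP]
  rwa [hb, ha, e]

end

end Pool.Agent.P.MP_a11f68_mp.Q
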