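import Pool.Agent.P.MP_a11f68_mp.Q.Iface

/-! The weighted argument principle. -/

namespace Pool.Agent.P.MP_a11f68_mp.Q

open Complex ComplexConjugate MeasureTheory UnitAddTorus Metric Filter Topology Set Laplacian
open scoped Real ENNReal

lemma arg_ne {f : ℂ → ℂ} {c : ℂ} {R : ℝ} (hR : 0 < R) (h0 : ∀ t ∈ sphere c R, f t ≠ 0) :
    ¬ EqOn f 0 (closedBall c R) := fun h => by
  obtain ⟨t, ht⟩ := (NormedSpace.sphere_nonempty (x := c)).2 hR.le
  exact h0 t ht (h (sphere_subset_closedBall ht))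

lemma arg_fac {f : ℂ → ℂ} {U : Set ℂ} (hf : AnalyticOnNhd ℂ f U) {a : ℂ} (ha : a ∈ U)
    (h : ¬ ∀ᶠ z in 𝓝 a, f z = 0) :
    ∃ (m : ℕ) (g : ℂ → ℂ), AnalyticOnNhd ℂ g U ∧ g a ≠ 0 ∧ f = fun t => (t - a) ^ m * g t := by
  classical
  obtain ⟨m, g, h1, h2, h3⟩ := (hf a ha).exists_eventuallyEq_pow_smul_nonzero_iff.2 h
  have e : f = fun t => (t - a) ^ m * if t = a then g a else f t / (t - a) ^ m := by
    funext t
    split_ifs with ht
    · rw [ht]; exact h3.self_of_nhds
    · rw [mul_div_cancel₀ _ (pow_ne_zero _ (sub_ne_zero.2 ht))]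
  refine ⟨m, fun t => if t = a then g a else f t / (t - a) ^ m, fun t ht => ?_, by simpa, e⟩
  by_cases hta : t = a
  · subst hta
    refine h1.congr (h3.mono fun z hz => ?_)
    beta_reduce
    split_ifs with hz'
    · rw [hz']
    · rw [hz, smul_eq_mul, mul_div_cancel_left₀ _ (pow_ne_zero _ (sub_ne_zero.2 hz'))]
  · refine ((hf t ht).div (g := fun t => (t - a) ^ m) (by fun_prop)
      (pow_ne_zero _ (sub_ne_zero.2 hta))).congr ?_
    filter_upwards [isOpen_ne.mem_nhds hta] with z hz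
    exact (if_neg hz).symm

lemma arg_ind {c : ℂ} {R : ℝ} (hR : 0 < R) (Z : Finset ℂ) : ∀ f : ℂ → ℂ,
    AnalyticOnNhd ℂ f (closedBall c R) → (∀ t ∈ sphere c R, f t ≠ 0) →
    (∀ t, t ∈ Z ↔ t ∈ ball c R ∧ f t = 0) → ∃ m : ℂ → ℕ, (∀ t ∈ Z, 0 < m t) ∧
      ∀ h : ℂ → ℂ, AnalyticOnNhd ℂ h (closedBall c R) →
        (∮ t in C(c, R), h t * (deriv f t / f t)) = 2 * π * I * ∑ t ∈ Z, (m t : ℂ) * h t := by
  classical
  induction Z using Finset.induction_on with
  | empty =>
    refine fun f hf h0 hZ => ⟨0, by simp, fun h hh => ?_⟩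
    have ne : ∀ t ∈ closedBall c R, f t ≠ 0 := fun t ht e => by
      rcases (mem_closedBall.1 ht).eq_or_lt with h | h
      · exact h0 t h e
      · simpa using (hZ t).2 ⟨h, e⟩
    have an : AnalyticOnNhd ℂ (fun t => h t * (deriv f t / f t)) (closedBall c R) := fun t ht =>
      (hh t ht).mul ((hf t ht).deriv.div (hf t ht) (ne t ht))
    rw [Finset.sum_empty, mul_zero]
    exact circleIntegral_eq_zero_of_differentiable_on_off_countable hR.le countable_empty
      an.continuousOn fun z hz => (an z (ball_subset_closedBall hz.1)).differentiableAt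
  | insert a Z haZ ih =>
    intro f hf h0 hZ
    obtain ⟨ha, ha0⟩ := (hZ a).1 (Finset.mem_insert_self _ _)
    have ha' := ball_subset_closedBall ha
    obtain ⟨n, g, hg, hga, rfl⟩ := arg_fac hf ha' fun h => arg_ne hR h0
      (hf.eqOn_zero_of_preconnected_of_eventuallyEq_zero (convex_closedBall c R).isPreconnected
        ha' h)
    have g0 : ∀ t ∈ sphere c R, g t ≠ 0 := fun t ht => right_ne_zero_of_mul (h0 t ht)
    have sa : ∀ t ∈ sphere c R, t - a ≠ 0 := fun t ht e => by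
      rw [sub_eq_zero.1 e] at ht
      exact (mem_ball.1 ha).ne ht
    obtain ⟨m, hm, hi⟩ := ih g hg g0 fun t => by
      refine ⟨fun ht => ?_, fun ht => ?_⟩
      · obtain ⟨h1, h2⟩ := (hZ t).1 (Finset.mem_insert_of_mem ht)
        refine ⟨h1, (mul_eq_zero.1 h2).resolve_left (pow_ne_zero _ fun e => haZ ?_)⟩
        rwa [← sub_eq_zero.1 e]
      · refine (Finset.mem_insert.1 ((hZ t).2 ⟨ht.1, by simp [ht.2]⟩)).resolve_left ?_
        rintro rfl
        exact hga ht.2
    refine ⟨Function.update m a n, fun t ht => ?_, fun h hh => ?_⟩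
    · rcases Finset.mem_insert.1 ht with rfl | ht
      · rw [Function.update_self]
        refine Nat.pos_of_ne_zero ?_
        rintro rfl
        exact hga (by simpa using ha0)
      · rw [Function.update_of_ne (ne_of_mem_of_not_mem ht haZ)]
        exact hm t ht
    have c1 : ContinuousOn (fun t => n * ((t - a)⁻¹ • h t)) (sphere c R) :=
      continuousOn_const.mul ((ContinuousOn.inv₀ (by fun_prop) sa).smul
        (hh.continuousOn.mono sphere_subset_closedBall))
    have c2 : ContinuousOn (fun t => h t * (deriv g t / g t)) (sphere c R) :=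
      (hh.continuousOn.mono sphere_subset_closedBall).mul
        ((hg.deriv.continuousOn.mono sphere_subset_closedBall).div
          (hg.continuousOn.mono sphere_subset_closedBall) g0)
    rw [circleIntegral.integral_congr hR.le
      (g := fun t => n * ((t - a)⁻¹ • h t) + h t * (deriv g t / g t)),
      circleIntegral.integral_add (c1.circleIntegrable hR.le) (c2.circleIntegrable hR.le), hi h hh,
      circleIntegral.integral_const_mul,
      circleIntegral_sub_inv_smul_of_differentiable_on_off_countable countable_empty ha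
        hh.continuousOn fun z hz => (hh z (ball_subset_closedBall hz.1)).differentiableAt,
      Finset.sum_insert haZ, Function.update_self, Finset.sum_congr rfl
        (f := fun t => (Function.update m a n t : ℂ) * h t) (g := fun t => m t * h t)
        fun t ht => by rw [Function.update_of_ne (ne_of_mem_of_not_mem ht haZ)], smul_eq_mul]
    · ring
    · intro t ht
      have d := logDeriv_mul (f := fun t => (t - a) ^ n) (g := g) t (pow_ne_zero _ (sa t ht))
        (g0 t ht) (by fun_prop) (hg t (sphere_subset_closedBall ht)).differentiableAt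
      rw [logDeriv_fun_pow (by fun_prop), logDeriv_apply, logDeriv_apply, logDeriv_apply] at d
      simp only [d, smul_eq_mul]
      simp only [deriv_sub_const, deriv_id'', one_div]
      ring

theorem p_ARG : S_ARG := by
  intro f c R hR hf h0
  have fin : (closedBall c R \ {t | f t ≠ 0}).Finite :=
    (isCompact_closedBall c R).finite_sdiff_of_mem_codiscreteWithin
      ((hf.eqOn_zero_or_eventually_ne_zero_of_preconnected
        (convex_closedBall c R).isPreconnected).resolve_left (arg_ne hR h0))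
  have fin' : {t | t ∈ ball c R ∧ f t = 0}.Finite :=
    fin.subset fun t ht => ⟨ball_subset_closedBall ht.1, not_not.2 ht.2⟩
  obtain ⟨m, h1, h2⟩ := arg_ind hR fin'.toFinset f hf h0 fun t => fin'.mem_toFinset
  exact ⟨_, m, fun t => fin'.mem_toFinset, h1, h2⟩

end Pool.Agent.P.MP_a11f68_mp.Q

/-! Circle integrals with a holomorphic parameter. -/

namespace Pool.Agent.P.MP_a11f68_mp.Q

open Complex ComplexConjugate MeasureTheory UnitAddTorus Metric Filter Topology Set Laplacian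
open scoped Real ENNReal

theorem p_PAR : S_PAR := by
  intro G D c R hD hR hG s hs
  obtain ⟨ε, h0, hε⟩ := nhds_basis_closedBall.mem_iff.1 (hD.mem_nhds hs)
  have m : ∀ x ∈ D, ∀ θ, (x, circleMap c R θ) ∈ D ×ˢ sphere c R := fun x hx θ =>
    ⟨hx, circleMap_mem_sphere c hR.le θ⟩
  have c1 : Continuous fun θ => deriv (circleMap c R) θ := by
    simp only [deriv_circleMap]; fun_prop
  have c2 : ∀ {H : ℂ × ℂ → ℂ}, ContinuousOn H (D ×ˢ sphere c R) → ∀ x ∈ D,
      Continuous fun θ => deriv (circleMap c R) θ • H (x, circleMap c R θ) := fun h x hx =>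
    c1.smul (h.comp_continuous (by fun_prop) (m x hx))
  have c3 : ContinuousOn (fun p => fderiv ℂ G p (1, 0)) (D ×ˢ sphere c R) :=
    hG.fderiv.continuousOn.clm_apply continuousOn_const
  obtain ⟨C, hC⟩ := IsCompact.exists_bound_of_continuousOn
    ((isCompact_closedBall s ε).prod (isCompact_sphere c R)) (c3.mono (prod_mono hε Subset.rfl))
  refine (intervalIntegral.hasDerivAt_integral_of_dominated_loc_of_deriv_le
    (F' := fun x θ => deriv (circleMap c R) θ • fderiv ℂ G (x, circleMap c R θ) (1, 0))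
    (bound := fun _ => R * C) (closedBall_mem_nhds s h0)
    (eventually_of_mem (hD.mem_nhds hs) fun x hx =>
      (c2 hG.continuousOn x hx).aestronglyMeasurable)
    ((c2 hG.continuousOn s hs).intervalIntegrable _ _) (c2 c3 s hs).aestronglyMeasurable
    (.of_forall fun θ _ x hx => ?_) intervalIntegrable_const
    (.of_forall fun θ _ x hx => ?_)).2.differentiableAt.differentiableWithinAt
  · rw [norm_smul, deriv_circleMap, norm_mul, norm_circleMap_zero, norm_I, mul_one, abs_of_pos hR]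
    exact mul_le_mul_of_nonneg_left (hC _ ⟨hx, circleMap_mem_sphere c hR.le θ⟩) hR.le
  · exact (HasFDerivAt.comp_hasDerivAt (f := fun x => (x, circleMap c R θ)) x
      (hG _ (m x (hε hx) θ)).differentiableAt.hasFDerivAt
      ((hasDerivAt_id x).prodMk (hasDerivAt_const x _))).const_smul (deriv (circleMap c R) θ)

end Pool.Agent.P.MP_a11f68_mp.Q

/-! Hankel determinants count points and give their sum. -/

namespace Pool.Agent.P.MP_a11f68_mp.Q

open Complex ComplexConjugate MeasureTheory UnitAddTorus Metric Filter Topology Set Laplacian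
open scoped Real ENNReal

lemma hank_card {r : ℕ} {Z : Finset ℂ} {W : ℂ → ℂ} (h : (hank r 0 Z W).det ≠ 0) : r ≤ Z.card := by
  classical
  have e : hank r 0 Z W = (Matrix.of fun (a : Fin r) (t : Z) => W t * (t : ℂ) ^ (a : ℕ)) *
      Matrix.of fun (t : Z) (b : Fin r) => (t : ℂ) ^ (b : ℕ) := by
    ext a b
    simp only [hank, Matrix.mul_apply, Matrix.of_apply]
    rw [← Finset.sum_coe_sort]
    exact Finset.sum_congr rfl fun t _ => by ring
  have a := Matrix.rank_of_isUnit _ ((Matrix.isUnit_iff_isUnit_det _).2 h.isUnit)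
  rw [e, Fintype.card_fin] at a
  exact a.symm.le.trans ((Matrix.rank_mul_le_right _ _).trans
    ((Matrix.rank_le_card_height _).trans_eq (Fintype.card_coe Z)))

lemma hank_eq {r : ℕ} {Z : Finset ℂ} (W : ℂ → ℂ) (e : Fin r ≃ Z) (k : ℕ) :
    hank r k Z W = (Matrix.vandermonde fun i => (e i : ℂ)).transpose *
      Matrix.diagonal (fun i => W (e i) * (e i : ℂ) ^ k) *
        Matrix.vandermonde fun i => (e i : ℂ) := by
  ext a b
  rw [Matrix.mul_apply]
  simp only [hank, Matrix.mul_diagonal, Matrix.of_apply, Matrix.transpose_apply,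
    Matrix.vandermonde_apply]
  rw [← Finset.sum_coe_sort, ← e.sum_comp]
  exact Finset.sum_congr rfl fun t _ => by ring

theorem p_HANK : S_HANK := by
  intro r Z W hr
  by_cases hc : Z.card = r
  swap
  · exact ⟨⟨fun h => absurd (hr.antisymm (hank_card h)) hc, fun h => absurd h.1 hc⟩,
      fun h => absurd (hr.antisymm (hank_card h)) hc⟩
  let e := (Finset.equivFinOfCardEq hc).symm
  have v : (Matrix.vandermonde fun i => (e i : ℂ)).det ≠ 0 :=
    Matrix.det_vandermonde_ne_zero_iff.2 (Subtype.val_injective.comp e.injective)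
  refine ⟨?_, fun _ => ?_⟩
  · rw [hank_eq W e, Matrix.det_mul, Matrix.det_mul, Matrix.det_transpose, Matrix.det_diagonal]
    simp only [ne_eq, mul_eq_zero, v, false_or, or_false, pow_zero, mul_one, hc, true_and,
      Finset.prod_eq_zero_iff, Finset.mem_univ, not_exists]
    exact ⟨fun h t ht => by simpa using h (e.symm ⟨t, ht⟩), fun h i => h _ (e i).2⟩
  · have a : hank r 1 Z W = hank r 0 Z W * ((Matrix.vandermonde fun i => (e i : ℂ))⁻¹ *
        (Matrix.diagonal (fun i => (e i : ℂ)) * Matrix.vandermonde fun i => (e i : ℂ))) := by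
      rw [hank_eq W e, hank_eq W e, Matrix.mul_assoc _ (Matrix.vandermonde _),
        Matrix.mul_nonsing_inv_cancel_left _ _ v.isUnit, Matrix.mul_assoc, Matrix.mul_assoc,
        ← Matrix.mul_assoc (Matrix.diagonal _), Matrix.diagonal_mul_diagonal]
      simp only [pow_zero, pow_one, mul_one]
    rw [a, ← Matrix.mul_assoc, Matrix.adjugate_mul, Matrix.smul_mul, Matrix.one_mul,
      Matrix.trace_smul, Matrix.trace_mul_comm, Matrix.mul_nonsing_inv_cancel_right _ _ v.isUnit,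
      Matrix.trace_diagonal, smul_eq_mul, ← Finset.sum_coe_sort Z, ← e.sum_comp]

end Pool.Agent.P.MP_a11f68_mp.Q

/-! Local weights on the fibres. -/

namespace Pool.Agent.P.MP_a11f68_mp.Q

open Complex ComplexConjugate MeasureTheory UnitAddTorus Metric Filter Topology Set Laplacian
open scoped Real ENNReal

/-- The conclusion for a family of sets over `U`. -/
def loc_Q (φ : ℂ → Set ℂ) (U : Set ℂ) : Prop :=
  ∃ (M : ℕ) (Z : ℂ → Finset ℂ), (∀ s ∈ U, (Z s : Set ℂ) = φ s ∧ (Z s).card ≤ M) ∧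
    ∀ s₁ ∈ U, ∃ W : ℂ → ℂ → ℂ, (∀ t ∈ Z s₁, W s₁ t ≠ 0) ∧
      ∀ a : ℕ, DifferentiableOn ℂ (fun s => ∑ t ∈ Z s, W s t * t ^ a) U

lemma loc_mono {φ φ' : ℂ → Set ℂ} {U U' : Set ℂ} (h : loc_Q φ U) (hU : U' ⊆ U)
    (e : ∀ s ∈ U', φ s = φ' s) : loc_Q φ' U' := by
  obtain ⟨M, Z, h1, h2⟩ := h
  refine ⟨M, Z, fun s hs => e s hs ▸ h1 s (hU hs), fun s hs => ?_⟩
  obtain ⟨W, w1, w2⟩ := h2 s (hU hs)
  exact ⟨W, w1, fun a => (w2 a).mono hU⟩

lemma loc_union {F B : Set (ℂ × ℂ)} {D D' U : Set ℂ} (h : loc_Q (fib F B D) U)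
    (h' : loc_Q (fib F B D') U) (hd : Disjoint D D') : loc_Q (fib F B (D ∪ D')) U := by
  classical
  obtain ⟨M, Z, h1, h2⟩ := h
  obtain ⟨M', Z', h1', h2'⟩ := h'
  have a1 : ∀ s ∈ U, ∀ t ∈ Z s, t ∈ D := fun s hs t ht =>
    ((h1 s hs).1 ▸ Finset.mem_coe.2 ht : t ∈ fib F B D s).1
  have a2 : ∀ s ∈ U, ∀ t ∈ Z' s, t ∉ D := fun s hs t ht =>
    disjoint_right.1 hd ((h1' s hs).1 ▸ Finset.mem_coe.2 ht : t ∈ fib F B D' s).1
  refine ⟨M + M', fun s => Z s ∪ Z' s, fun s hs => ⟨?_, (Finset.card_union_le _ _).trans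
    (add_le_add (h1 s hs).2 (h1' s hs).2)⟩, fun s₁ hs => ?_⟩
  · rw [Finset.coe_union, (h1 s hs).1, (h1' s hs).1]
    ext t
    simp only [fib, mem_union, mem_ofPred_eq, or_and_right]
  · obtain ⟨W, w1, w2⟩ := h2 s₁ hs
    obtain ⟨W', w1', w2'⟩ := h2' s₁ hs
    refine ⟨fun s t => if t ∈ D then W s t else W' s t, fun t ht => ?_, fun a => ?_⟩
    · rcases Finset.mem_union.1 ht with ht | ht
      · simpa only [if_pos (a1 _ hs t ht)] using w1 t ht
      · simpa only [if_neg (a2 _ hs t ht)] using w1' t ht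
    · refine ((w2 a).add (w2' a)).congr fun s hs => ?_
      rw [Finset.sum_union (Finset.disjoint_left.2 fun t h h' => a2 s hs t h' (a1 s hs t h))]
      exact congrArg₂ (· + ·) (Finset.sum_congr rfl fun t ht => by simp only [if_pos (a1 s hs t ht)])
        (Finset.sum_congr rfl fun t ht => by simp only [if_neg (a2 s hs t ht)])

lemma loc_biUnion {F B : Set (ℂ × ℂ)} {U : Set ℂ} (D : ℂ → Set ℂ) (T : Finset ℂ)
    (h : ∀ t ∈ T, loc_Q (fib F B (D t)) U)
    (hd : ∀ t ∈ T, ∀ t' ∈ T, t ≠ t' → Disjoint (D t) (D t')) :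
    loc_Q (fib F B (⋃ t ∈ T, D t)) U := by
  classical
  induction T using Finset.induction_on with
  | empty => exact ⟨0, fun _ => ∅, fun s _ => by simp [fib], fun s _ => ⟨0, by simp, by simp⟩⟩
  | insert a T ha ih =>
    rw [Finset.set_biUnion_insert]
    refine loc_union (h a (Finset.mem_insert_self _ _))
      (ih (fun t ht => h t (Finset.mem_insert_of_mem ht)) fun t ht t' ht' =>
        hd t (Finset.mem_insert_of_mem ht) t' (Finset.mem_insert_of_mem ht')) ?_
    exact disjoint_iUnion₂_right.2 fun t ht => hd a (Finset.mem_insert_self _ _) t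
      (Finset.mem_insert_of_mem ht) fun e => ha (e ▸ ht)

lemma loc_sl {f : ℂ × ℂ → ℂ} {s t : ℂ} (h : AnalyticAt ℂ f (s, t)) :
    AnalyticAt ℂ (fun t => f (s, t)) t :=
  h.comp₂ analyticAt_const analyticAt_id

lemma loc_iso {F : Set (ℂ × ℂ)} (hF : Hyp F) {s : ℂ} (h : ∃ t, (s, t) ∉ F) (t : ℂ) :
    ∀ᶠ t' in 𝓝[≠] t, (s, t') ∉ F := by
  have key : ∀ t, (∀ᶠ t' in 𝓝 t, (s, t') ∈ F) ∨ ∀ᶠ t' in 𝓝[≠] t, (s, t') ∉ F := fun t => by
    obtain ⟨U, hU, hp, f, hf, e⟩ := hF (s, t)
    have m : ∀ᶠ t' in 𝓝 t, (s, t') ∈ U :=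
      (Continuous.prodMk_right s).continuousAt.eventually (hU.mem_nhds hp)
    refine (loc_sl (hf _ hp)).eventually_eq_zero_or_eventually_ne_zero.imp (fun k => ?_) fun k => ?_
    · filter_upwards [k, m] with x k m using (e _ m).2 k
    · filter_upwards [k, nhdsWithin_le_nhds m] with x k m using fun h => k ((e _ m).1 h)
  have cl : IsClopen {t | ∀ᶠ t' in 𝓝 t, (s, t') ∈ F} := by
    refine ⟨isClosed_of_closure_subset fun t ht => ?_, isOpen_setOfPred_eventually_nhds⟩
    refine (key t).elim id fun k => ?_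
    obtain ⟨x, h1, h2⟩ := ((mem_closure_iff_frequently.1 ht).and_eventually
      (eventually_nhdsWithin_iff.1 k)).exists
    by_cases e : x = t
    · exact e ▸ h1
    · exact absurd h1.self_of_nhds (h2 e)
  refine (key t).resolve_left fun k => ?_
  obtain ⟨x, hx⟩ := h
  have : x ∈ {t | ∀ᶠ t' in 𝓝 t, (s, t') ∈ F} := (cl.eq_univ ⟨t, k⟩).symm ▸ mem_univ x
  exact hx this.self_of_nhds

lemma loc_disc (hA : S_ARG) (hP : S_PAR) {F B : Set (ℂ × ℂ)} (hF : Hyp F) (hB : An B) {s₀ : ℂ}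
    (h : ∃ t, (s₀, t) ∉ F) (c : ℂ) :
    ∀ᶠ r in 𝓝[>] (0 : ℝ), ∀ᶠ δ in 𝓝[>] (0 : ℝ), loc_Q (fib F B (ball c r)) (ball s₀ δ) := by
  classical
  obtain ⟨U, hU, hp, f, hf, e⟩ := hF (s₀, c)
  obtain ⟨U', hU', hp', m, g, hg, e'⟩ := hB (s₀, c)
  have hV := hU.inter hU'
  obtain ⟨r₀, r0, hr⟩ := Metric.eventually_nhds_iff.1
    (((Continuous.prodMk_right s₀).continuousAt.eventually (hV.mem_nhds ⟨hp, hp'⟩)).and
      (eventually_nhdsWithin_iff.1 (loc_iso hF h c)))
  filter_upwards [Ioo_mem_nhdsGT r0] with r ⟨r1, r2⟩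
  have tube : ∀ᶠ s in 𝓝 s₀, ∀ t ∈ closedBall c r,
      (s, t) ∈ U ∩ U' ∧ (t ∈ sphere c r → f (s, t) ≠ 0) := by
    refine (isCompact_closedBall c r).eventually_forall_of_forall_eventually fun t ht => ?_
    have k := hr (lt_of_le_of_lt ht r2)
    refine (show ∀ᶠ z : ℂ × ℂ in 𝓝 (s₀, t), (z.1, z.2) ∈ U ∩ U' from hV.mem_nhds k.1).and ?_
    by_cases q : t = c
    · subst q
      filter_upwards [continuous_snd.continuousAt.eventually (ball_mem_nhds t r1)] with z hz k
      exact absurd k (ne_of_lt hz)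
    · filter_upwards [(hf _ k.1.1).continuousAt.eventually_ne fun z => k.2 q ((e _ k.1.1).2 z)]
        with z hz _ using hz
  obtain ⟨δ₁, d0, hd⟩ := Metric.eventually_nhds_iff.1 tube
  choose! Z μ z1 z2 z3 using fun s (hs : s ∈ ball s₀ δ₁) => hA (fun t => f (s, t)) c r r1
    (fun t ht => loc_sl (hf _ (hd hs t ht).1.1)) fun t ht => (hd hs t (sphere_subset_closedBall ht)).2 ht
  have dif : ∀ u : ℂ × ℂ → ℂ, AnalyticOnNhd ℂ u (U ∩ U') →
      DifferentiableOn ℂ (fun s => ∑ t ∈ Z s, (μ s t : ℂ) * u (s, t)) (ball s₀ δ₁) := fun u hu => by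
    have k := hP (fun q => u q * (fderiv ℂ f q (0, 1) / f q)) _ c r (isOpen_ball (x := s₀)) r1
      fun q hq => by
        have a := hd hq.1 q.2 (sphere_subset_closedBall hq.2)
        exact (hu _ a.1).mul ((((ContinuousLinearMap.apply ℂ ℂ ((0, 1) : ℂ × ℂ)).analyticAt _).comp
          (hf.fderiv _ a.1.1)).div (hf _ a.1.1) (a.2 hq.2))
    refine (k.const_mul (2 * π * I)⁻¹).congr fun s hs => ?_
    rw [eq_inv_mul_iff_mul_eq₀ two_pi_I_ne_zero,
      ← z3 s hs (fun t => u (s, t)) fun t ht => loc_sl (hu _ (hd hs t ht).1)]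
    refine circleIntegral.integral_congr r1.le fun t ht => ?_
    have a := (hf _ (hd hs t (sphere_subset_closedBall ht)).1.1).differentiableAt.hasFDerivAt
    have b := a.comp_hasDerivAt t ((hasDerivAt_const t s).prodMk (hasDerivAt_id t))
    exact congrArg (fun x => u (s, t) * (x / f (s, t))) b.deriv
  have cnt := ((dif 1 analyticOnNhd_const).continuousOn.continuousAt (ball_mem_nhds s₀ d0)).norm
  obtain ⟨M, hM⟩ := exists_nat_gt ‖∑ t ∈ Z s₀, (μ s₀ t : ℂ) * (1 : ℂ × ℂ → ℂ) (s₀, t)‖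
  obtain ⟨δ₂, d2, hd2⟩ := Metric.eventually_nhds_iff.1 (cnt.eventually_lt_const hM)
  filter_upwards [Ioo_mem_nhdsGT (lt_min d0 d2)] with δ ⟨_, hδ⟩
  have b1 : ball s₀ δ ⊆ ball s₀ δ₁ := ball_subset_ball (hδ.le.trans (min_le_left _ _))
  have mem : ∀ s ∈ ball s₀ δ, ∀ t ∈ Z s, (s, t) ∈ U ∩ U' := fun s hs t ht =>
    (hd (b1 hs) t (ball_subset_closedBall ((z1 s (b1 hs) t).1 ht).1)).1
  refine ⟨M, fun s => (Z s).filter fun t => (s, t) ∉ B, fun s hs => ⟨?_, ?_⟩, fun s₁ hs => ?_⟩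
  · ext t
    simp only [Finset.coe_filter, z1 s (b1 hs), fib, mem_ofPred_eq, and_assoc]
    exact and_congr_right fun ht => by rw [e _ (hd (b1 hs) t (ball_subset_closedBall ht)).1.1]
  · have k := hd2 (hs.trans (hδ.trans_le (min_le_right _ _)))
    simp only [Pi.one_apply, mul_one, ← Nat.cast_sum, norm_natCast, Nat.cast_lt] at k
    refine (Finset.card_filter_le _ _).trans (le_trans ?_ k.le)
    rw [Finset.card_eq_sum_ones]
    exact Finset.sum_le_sum (z2 s (b1 hs))
  · obtain ⟨L, hL⟩ := Module.exists_dual_forall_apply_ne_zero (K := ℂ)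
      (fun t : ((Z s₁).filter fun t => (s₁, t) ∉ B) => fun j => g j (s₁, t.1)) fun t k => by
        obtain ⟨a, b⟩ := Finset.mem_filter.1 t.2
        exact b ((e' _ (mem _ hs _ a).2).2 (congrFun k))
    refine ⟨fun s t => μ s t * L fun j => g j (s, t), fun t ht => mul_ne_zero
      (Nat.cast_ne_zero.2 (z2 _ (b1 hs) t (Finset.mem_filter.1 ht).1).ne') (hL ⟨t, ht⟩),
      fun a => (((dif (fun q => L (fun j => g j q) * q.2 ^ a) fun q hq => ?_).mono b1).congr
        fun s hs => ?_)⟩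
    · exact ((L.toContinuousLinearMap.analyticAt _).comp
        (analyticAt_pi_iff.2 fun j => hg j q hq.2)).mul (analyticAt_snd.pow a)
    · rw [Finset.sum_filter]
      refine Finset.sum_congr rfl fun t ht => ?_
      split_ifs with k
      · rw [show (fun j => g j (s, t)) = 0 from funext ((e' _ (mem s hs t ht).2).1 k)]
        simp
      · rw [mul_assoc]

theorem p_LOC (hA : S_ARG) (hP : S_PAR) : S_LOC := by
  intro F B O K s₀ hF hB hO hK hKO h hev
  obtain ⟨T, t1, t2⟩ := hK.elim_nhds_subcover (fun t => {x | x ∈ ({t}ᶜ : Set ℂ) → (s₀, x) ∉ F})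
    fun t _ => eventually_nhdsWithin_iff.1 (loc_iso hF h t)
  have e1 : ∀ᶠ r in 𝓝[>] (0 : ℝ), ∀ t ∈ T, ball t r ⊆ O := (eventually_all_finset T).2 fun t ht => by
    obtain ⟨ε, e0, he⟩ := Metric.isOpen_iff.1 hO t (hKO (t1 t ht))
    filter_upwards [Ioo_mem_nhdsGT e0] with r hr using (ball_subset_ball hr.2.le).trans he
  have e2 : ∀ᶠ r in 𝓝[>] (0 : ℝ), ∀ t ∈ T, ∀ t' ∈ T, t ≠ t' → Disjoint (ball t r) (ball t' r) :=
    (eventually_all_finset T).2 fun t _ => (eventually_all_finset T).2 fun t' _ => by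
      by_cases e : t = t'
      · exact .of_forall fun _ k => absurd e k
      · filter_upwards [Ioo_mem_nhdsGT (half_pos (dist_pos.2 e))] with r hr _
        exact ball_disjoint_ball (by linarith [hr.2])
  obtain ⟨r, ⟨⟨r1, r2⟩, r3⟩, r0⟩ := (((e1.and e2).and ((eventually_all_finset T).2 fun t _ =>
    loc_disc hA hP hF hB h t)).and self_mem_nhdsWithin).exists
  have tube : ∀ᶠ s in 𝓝 s₀, ∀ x ∈ K, x ∈ (⋃ t ∈ T, ball t r) ∨ (s, x) ∉ F := by
    refine hK.eventually_forall_of_forall_eventually fun x hx => ?_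
    by_cases k : x ∈ T
    · filter_upwards [continuous_snd.continuousAt.eventually (ball_mem_nhds x r0)] with z hz
      exact .inl (mem_biUnion k hz)
    · obtain ⟨t, ht, q⟩ := mem_iUnion₂.1 (t2 hx)
      obtain ⟨U, hU, hp, f, hf, e⟩ := hF (s₀, x)
      filter_upwards [hU.mem_nhds hp, (hf _ hp).continuousAt.eventually_ne fun z =>
        q (fun e => k (e ▸ ht)) ((e _ hp).2 z)] with z a b using .inr fun c => b ((e _ a).1 c)
  obtain ⟨δ₁, d0, hd⟩ := Metric.eventually_nhds_iff.1 (tube.and hev)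
  obtain ⟨δ, d1, d2⟩ := (((eventually_all_finset T).2 r3).and (Ioo_mem_nhdsGT d0)).exists
  refine ⟨δ, d2.1, loc_mono (loc_biUnion _ T d1 r2) subset_rfl fun s hs => ?_⟩
  have k := hd (hs.trans d2.2)
  ext x
  refine ⟨fun a => ⟨?_, a.2⟩, fun a => ⟨(k.1 x (k.2 a)).resolve_right fun b => b a.2.1, a.2⟩⟩
  obtain ⟨t, ht, q⟩ := mem_iUnion₂.1 a.1
  exact r1 t ht q

end Pool.Agent.P.MP_a11f68_mp.Q

namespace Pool.Agent.P.MP_a11f68_mp.Q

open Complex ComplexConjugate MeasureTheory UnitAddTorus Metric Filter Topology Set Laplacian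
open scoped Real ENNReal

/-- Removable singularities on a locally finite set. -/
theorem fib_extend {g : ℂ → ℂ} {U T : Set ℂ} (hU : IsOpen U)
    (hT : ∀ x ∈ U, ∀ᶠ z in 𝓝[≠] x, z ∉ T) (hg : DifferentiableOn ℂ g (U \ T))
    (ho : ∀ t ∈ U, ∃ M : ℝ, ∀ᶠ z in 𝓝 t, ‖g z‖ ≤ M) :
    ∃ G : ℂ → ℂ, DifferentiableOn ℂ G U ∧ ∀ z ∉ T, G z = g z := by
  classical
  refine ⟨fun z => if z ∈ T then limUnder (𝓝[≠] z) g else g z, ?_, fun z hz => if_neg hz⟩
  intro x hx
  apply DifferentiableAt.differentiableWithinAt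
  have h1 : U \ T ∈ 𝓝[≠] x :=
    inter_mem (mem_nhdsWithin_of_mem_nhds (hU.mem_nhds hx)) (hT x hx)
  have h6 : insert x (U \ T) ∈ 𝓝 x := insert_mem_nhds_iff.2 h1
  by_cases hxT : x ∈ T
  · obtain ⟨M, hM⟩ := ho x hx
    have h2 : (fun z => g z - g x) =o[𝓝[≠] x] fun z => (z - x)⁻¹ := by
      refine IsBoundedUnder.isLittleO_sub_self_inv ⟨M + ‖g x‖, ?_⟩
      rw [eventually_map]
      filter_upwards [mem_nhdsWithin_of_mem_nhds hM] with z hz
      exact (norm_sub_le _ _).trans (by linarith)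
    have h5 := differentiableOn_update_limUnder_insert_of_isLittleO h1 hg h2
    refine (h5.differentiableAt h6).congr_of_eventuallyEq ?_
    filter_upwards [h6] with z hz
    rcases hz with rfl | hz
    · simp [hxT]
    · have : z ≠ x := by rintro rfl; exact hz.2 hxT
      simp [hz.2, this]
  · rw [insert_eq_of_mem (show x ∈ U \ T from ⟨hx, hxT⟩)] at h6
    refine (hg.differentiableAt h6).congr_of_eventuallyEq ?_
    filter_upwards [h6] with z hz
    simp [hz.2]

theorem fib_det {r : ℕ} {M : ℂ → Matrix (Fin r) (Fin r) ℂ} {D : Set ℂ}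
    (h : ∀ a b, DifferentiableOn ℂ (fun s => M s a b) D) :
    DifferentiableOn ℂ (fun s => (M s).det) D := by
  simp only [Matrix.det_apply']
  refine DifferentiableOn.fun_sum fun σ _ => DifferentiableOn.const_mul ?_ _
  exact DifferentiableOn.fun_finsetProd fun i _ => h _ _

theorem fib_adj {r : ℕ} {M : ℂ → Matrix (Fin r) (Fin r) ℂ} {D : Set ℂ}
    (h : ∀ a b, DifferentiableOn ℂ (fun s => M s a b) D) (a b : Fin r) :
    DifferentiableOn ℂ (fun s => (M s).adjugate a b) D := by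
  simp only [Matrix.adjugate_apply]
  refine fib_det fun i j => ?_
  by_cases hi : i = b
  · subst hi; simp only [Matrix.updateRow_self]; exact differentiableOn_const _
  · simp only [Matrix.updateRow_ne hi]; exact h _ _

/-- The local form of the statement. -/
theorem fib_local (hH : S_HANK) {s₀ : ℂ} {δ : ℝ} (hδ : 0 < δ) {M : ℕ} {Z : ℂ → Finset ℂ}
    (hM : ∀ s ∈ ball s₀ δ, (Z s).card ≤ M)
    (hW : ∀ s₁ ∈ ball s₀ δ, ∃ W : ℂ → ℂ → ℂ, (∀ t ∈ Z s₁, W s₁ t ≠ 0) ∧
      ∀ a : ℕ, DifferentiableOn ℂ (fun s => ∑ t ∈ Z s, W s t * t ^ a) (ball s₀ δ)) :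
    ∃ r : ℕ, ∀ s ∈ ball s₀ δ, (Z s).card ≤ r ∧ (∀ᶠ s' in 𝓝[≠] s, (Z s').card = r) ∧
      ((Z s).card = r → DifferentiableAt ℂ (fun s => ∑ t ∈ Z s, t) s) := by
  set P : Set ℕ := {n | ∃ s ∈ ball s₀ δ, (Z s).card = n} with hP
  have hne : P.Nonempty := ⟨_, s₀, mem_ball_self hδ, rfl⟩
  have hbd : BddAbove P := ⟨M, by rintro n ⟨s, hs, rfl⟩; exact hM s hs⟩
  have hle : ∀ s ∈ ball s₀ δ, (Z s).card ≤ sSup P := fun s hs => le_csSup hbd ⟨s, hs, rfl⟩
  set r := sSup P with hr
  have key : ∀ s₁ ∈ ball s₀ δ, (Z s₁).card = r → ∃ H G : ℂ → ℂ,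
      DifferentiableOn ℂ H (ball s₀ δ) ∧ DifferentiableOn ℂ G (ball s₀ δ) ∧ H s₁ ≠ 0 ∧
      ∀ s ∈ ball s₀ δ, H s ≠ 0 → (Z s).card = r ∧ ∑ t ∈ Z s, t = G s / H s := by
    intro s₁ hs₁ hc
    obtain ⟨W, hW1, hW2⟩ := hW s₁ hs₁
    have he : ∀ k (a b : Fin r),
        DifferentiableOn ℂ (fun s => hank r k (Z s) (W s) a b) (ball s₀ δ) :=
      fun k a b => hW2 _
    refine ⟨fun s => (hank r 0 (Z s) (W s)).det,
      fun s => ((hank r 0 (Z s) (W s)).adjugate * hank r 1 (Z s) (W s)).trace, fib_det (he 0), ?_,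
      (hH r _ _ hc.le).1.2 ⟨hc, hW1⟩, fun s hs h0 => ?_⟩
    · simp only [Matrix.trace, Matrix.diag_apply, Matrix.mul_apply]
      exact DifferentiableOn.fun_sum fun a _ => DifferentiableOn.fun_sum fun b _ =>
        (fib_adj (he 0) a b).mul (he 1 b a)
    · refine ⟨((hH r _ _ (hle s hs)).1.1 h0).1, ?_⟩
      rw [eq_div_iff h0, mul_comm]
      exact ((hH r _ _ (hle s hs)).2 h0).symm
  refine ⟨r, fun s hs => ⟨hle s hs, ?_, fun hc => ?_⟩⟩
  · obtain ⟨s₁, hs₁, hc⟩ := Nat.sSup_mem hne hbd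
    obtain ⟨H, G, hH', -, h1, h2⟩ := key s₁ hs₁ hc
    have han : AnalyticOnNhd ℂ H (ball s₀ δ) := hH'.analyticOnNhd isOpen_ball
    rcases (han s hs).eventually_eq_zero_or_eventually_ne_zero with h0 | h0
    · exact absurd (han.eqOn_zero_of_preconnected_of_eventuallyEq_zero
        (convex_ball s₀ δ).isPreconnected hs h0 hs₁) h1
    · filter_upwards [h0, mem_nhdsWithin_of_mem_nhds (isOpen_ball.mem_nhds hs)] with s' a b
      exact (h2 s' b a).1
  · obtain ⟨H, G, hH', hG, h1, h2⟩ := key s hs hc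
    have hb := isOpen_ball.mem_nhds hs
    refine (((hG.differentiableAt hb).div (hH'.differentiableAt hb) h1)).congr_of_eventuallyEq ?_
    filter_upwards [hb, (hH'.differentiableAt hb).continuousAt.eventually_ne h1] with s' a b
    exact (h2 s' a b).2

theorem p_FIB (hL : S_LOC) (hH : S_HANK) : S_FIB := by
  intro F B O Ω hF hB hO hΩ hc hne hK
  rcases Ω.eq_empty_or_nonempty with rfl | ⟨x₀, hx₀⟩
  · exact ⟨0, fun _ => 0, ∅, countable_empty, differentiableOn_const _, fun s hs => hs.elim⟩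
  set S₀ : ℂ → ℂ := fun s => ∑ᶠ t ∈ fib F B O s, t with hS₀
  have loc : ∀ s₀ ∈ Ω, ∃ r : ℕ, ∀ᶠ s in 𝓝 s₀, (fib F B O s).Finite ∧ (fib F B O s).ncard ≤ r ∧
      (∀ᶠ s' in 𝓝[≠] s, (fib F B O s').ncard = r) ∧
      ((fib F B O s).ncard = r → DifferentiableAt ℂ S₀ s) := by
    intro s₀ hs₀
    obtain ⟨K, hK1, hK2, hK3⟩ := hK s₀ hs₀
    obtain ⟨δ, hδ, M, Z, hZ, hW⟩ := hL F B O K s₀ hF hB hO hK1 hK2 (hne s₀ hs₀) hK3
    obtain ⟨r, hr⟩ := fib_local hH hδ (fun s hs => (hZ s hs).2) hW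
    have hcard : ∀ s ∈ ball s₀ δ, (fib F B O s).ncard = (Z s).card := fun s hs => by
      rw [← (hZ s hs).1, ncard_coe_finset]
    refine ⟨r, ?_⟩
    filter_upwards [ball_mem_nhds s₀ hδ] with s hs
    have hb := isOpen_ball.mem_nhds hs
    refine ⟨by rw [← (hZ s hs).1]; exact Finset.finite_toSet _, by
      rw [hcard s hs]; exact (hr s hs).1, ?_, fun h => ?_⟩
    · filter_upwards [(hr s hs).2.1, mem_nhdsWithin_of_mem_nhds hb] with s' a b
      rw [hcard s' b, a]
    · refine ((hr s hs).2.2 (by rw [← hcard s hs, h])).congr_of_eventuallyEq ?_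
      filter_upwards [hb] with s' b
      simp only [hS₀]
      rw [← (hZ s' b).1, finsum_mem_coe_finset]
  choose! r hr using loc
  have hconst : ∀ s ∈ Ω, r s = r x₀ := by
    intro s hs
    refine hc.constant (f := r) (fun x hx => ?_) hs hx₀
    refine (continuousAt_const (y := r x)).continuousWithinAt.congr_of_eventuallyEq ?_ rfl
    filter_upwards [mem_nhdsWithin_of_mem_nhds (hr x hx), self_mem_nhdsWithin] with y hy hyΩ
    obtain ⟨z, h1, h2⟩ := (hy.2.2.1.and (hr y hyΩ).self_of_nhds.2.2.1).exists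
    rw [← h2, h1]
  set d := r x₀ with hd
  have hpt : ∀ s ∈ Ω, (fib F B O s).Finite ∧ (fib F B O s).ncard ≤ d ∧
      (∀ᶠ s' in 𝓝[≠] s, (fib F B O s').ncard = d) ∧
      ((fib F B O s).ncard = d → DifferentiableAt ℂ S₀ s) := fun s hs => by
    rw [← hconst s hs]; exact (hr s hs).self_of_nhds
  set E : Set ℂ := {s | s ∈ Ω ∧ (fib F B O s).ncard ≠ d} with hE
  have hT : ∀ x ∈ Ω, ∀ᶠ z in 𝓝[≠] x, z ∉ E := fun x hx => by
    filter_upwards [(hpt x hx).2.2.1] with z hz h
    exact h.2 hz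
  have hEc : E.Countable := by
    obtain ⟨E', -, h2, h3⟩ := TopologicalSpace.countable_cover_nhdsWithin (s := E)
      (f := fun x => {x}) (fun x hx => by
        have := eventually_nhdsWithin_iff.1 (hT x hx.1)
        rw [mem_nhdsWithin_iff_eventually]
        filter_upwards [this] with z hz hzE
        by_contra hzx
        exact hz hzx hzE)
    exact h2.mono (by simpa using h3)
  obtain ⟨S, hS, hSS⟩ := fib_extend (g := S₀) hΩ hT
    (fun s hs => ((hpt s hs.1).2.2.2 (by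
      by_contra h; exact hs.2 ⟨hs.1, h⟩)).differentiableWithinAt) (fun t ht => by
      obtain ⟨K, hK1, -, hK3⟩ := hK t ht
      obtain ⟨ρ, hρ0, hρ⟩ := hK1.isBounded.exists_pos_norm_le
      refine ⟨d * ρ, ?_⟩
      filter_upwards [hK3, hΩ.mem_nhds ht] with z hz hzΩ
      obtain ⟨h1, h2, -⟩ := hpt z hzΩ
      simp only [hS₀]
      rw [finsum_mem_eq_finite_toFinset_sum _ h1]
      refine (norm_sum_le _ _).trans ((Finset.sum_le_card_nsmul _ _ ρ fun x hx =>
        hρ x (hz (h1.mem_toFinset.1 hx))).trans ?_)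
      rw [nsmul_eq_mul, ← ncard_eq_toFinset_card _ h1]
      exact mul_le_mul_of_nonneg_right (by exact_mod_cast h2) hρ0.le)
  refine ⟨d, S, E, hEc, hS, fun s hs => ⟨(hpt s hs).1, (hpt s hs).2.1, fun h => ?_, fun h => ?_⟩⟩
  · by_contra h'; exact h ⟨hs, h'⟩
  · exact hSS s fun h' => h'.2 h

end Pool.Agent.P.MP_a11f68_mp.Q
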