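import Pool.Agent.P.MP_a11f68_mp.Q.Iface

namespace Pool.Agent.P.MP_a11f68_mp.Q

open Complex ComplexConjugate MeasureTheory UnitAddTorus Metric Filter Topology Set Laplacian
open scoped Real ENNReal

/-- The plane as a product of two lines. -/
noncomputable def lift_h : ℂ ≃ₜ (Fin 2 → ℝ) :=
  equivRealProdCLM.toHomeomorph.trans (Homeomorph.finTwoArrow (X := ℝ)).symm

theorem lift_oq : IsOpenQuotientMap pr := by
  have h := (IsOpenQuotientMap.piMap fun _ : Fin 2 =>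
    QuotientAddGroup.isOpenQuotientMap_mk (N := AddSubgroup.zmultiples (1 : ℝ))).comp
      lift_h.isOpenQuotientMap
  convert h using 1
  funext ζ i
  fin_cases i <;> rfl

theorem lift_eq {a b : ℂ} (h : pr a = pr b) : ∃ m n : ℤ, b = a + m • (1 : ℂ) + n • I := by
  obtain ⟨m, hm⟩ := AddSubgroup.mem_zmultiples_iff.1 (QuotientAddGroup.eq.1 (congrFun h 0))
  obtain ⟨n, hn⟩ := AddSubgroup.mem_zmultiples_iff.1 (QuotientAddGroup.eq.1 (congrFun h 1))
  simp only [zsmul_eq_mul, mul_one] at hm hn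
  refine ⟨m, n, Complex.ext ?_ ?_⟩ <;> simp [hm, hn]

theorem lift_vol :
    (volume : Measure (UnitAddTorus (Fin 2))) = Measure.pi fun _ => AddCircle.haarAddCircle := by
  rw [volume_pi]
  congr 1
  funext _
  rw [AddCircle.volume_eq_smul_haarAddCircle]
  simp

theorem p_LIFT : S_LIFT := by
  refine ⟨lift_oq.surjective, lift_oq.continuous, fun u h1 h2 => ?_,
    fun v h => lift_oq.isQuotientMap.continuous_iff.2 h, fun n ζ => ?_, fun ζ => ⟨?_, ?_⟩,
    fun f n => ?_, lift_vol⟩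
  · refine ⟨fun x => u (Function.surjInv lift_oq.surjective x), fun ζ => ?_⟩
    obtain ⟨m, n, e⟩ := lift_eq (Function.surjInv_eq lift_oq.surjective (pr ζ))
    have p1 : Function.Periodic u 1 := h1
    have p2 : Function.Periodic u I := h2
    conv_rhs => rw [e, p2.zsmul n, p1.zsmul m]
  · simp only [mFourier, ContinuousMap.coe_mk, Fin.prod_univ_two, pr, bl, Matrix.cons_val_zero,
      Matrix.cons_val_one, fourier_coe_apply, ← Complex.exp_add]
    congr 1
    push_cast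
    ring
  · simp [pr]
  · simp [pr]
  · rw [lift_vol]
    rfl

end Pool.Agent.P.MP_a11f68_mp.Q

/-! The Schur complement gives a local analytic equation of the Fermi set. -/

namespace Pool.Agent.P.MP_a11f68_mp.Q

open Complex ComplexConjugate MeasureTheory UnitAddTorus Metric Filter Topology Set Laplacian
open scoped Real ENNReal

lemma schur_diag (x : (Fin 2 → ℤ) → ℂ) {C : ℝ} (hC : 0 ≤ C) (h : ∀ n, ‖x n‖ ≤ C) :
    ∃ D : H2 →L[ℂ] H2, ‖D‖ ≤ C ∧ ∀ (v : H2) n, D v n = x n * v n := by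
  have hb : ∀ n, ‖x n • ContinuousLinearMap.id ℂ ℂ‖ ≤ C := fun n => by
    rw [norm_smul, ContinuousLinearMap.norm_id, mul_one]; exact h n
  exact ⟨lp.mapCLM 2 (fun n => x n • ContinuousLinearMap.id ℂ ℂ) hC hb,
    lp.norm_mapCLM_le 2 _ hC hb, fun v n => rfl⟩

lemma schur_fin (R : ℝ) : {n : Fin 2 → ℤ | ‖gi n‖ ≤ R}.Finite := by
  refine (Set.Finite.pi' fun _ : Fin 2 => Set.finite_Icc (-⌈R⌉) ⌈R⌉).subset fun n hn i => ?_
  have h0 : |(n 0 : ℝ)| ≤ R := by simpa [gi] using (abs_re_le_norm (gi n)).trans hn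
  have h1 : |(n 1 : ℝ)| ≤ R := by simpa [gi] using (abs_im_le_norm (gi n)).trans hn
  have h2 : |(n i : ℝ)| ≤ ⌈R⌉ := by
    have := Int.le_ceil R
    fin_cases i
    · exact h0.trans this
    · exact h1.trans this
  exact abs_le.1 (by exact_mod_cast h2)

lemma schur_det {ι : Type} [Fintype ι] [DecidableEq ι] {M : ℂ × ℂ → Matrix ι ι ℂ} {q : ℂ × ℂ}
    (h : ∀ a b, AnalyticAt ℂ (fun q => M q a b) q) : AnalyticAt ℂ (fun q => (M q).det) q := by
  simp only [Matrix.det_apply']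
  exact Finset.analyticAt_fun_sum _ fun σ _ =>
    analyticAt_const.mul (Finset.analyticAt_fun_prod _ fun i _ => h _ _)

/-- Reduction of the kernel to a finite system. -/
lemma schur_ker (T P : H2 →L[ℂ] H2) (hP : IsUnit P) (G : Finset (Fin 2 → ℤ)) (q : ℂ × ℂ)
    (r : (Fin 2 → ℤ) → ℂ) (hr : ∀ n ∉ G, r n ≠ 0) (h1 : ∀ v : H2, ∀ n ∈ G, P v n = v n)
    (h2 : ∀ v : H2, ∀ n ∉ G, P v n = r n * (Dn n q * v n + T v n)) :
    q ∈ opF T ↔ (Matrix.of fun a b : G => (if a = b then Dn a q else 0) +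
      T (Ring.inverse P (lp.single 2 b.1 1)) a).det = 0 := by
  classical
  have i1 : ∀ v, Ring.inverse P (P v) = v := fun v => by
    rw [← mul_apply_eq_comp, Ring.inverse_mul_cancel _ hP]; rfl
  have i2 : ∀ v, P (Ring.inverse P v) = v := fun v => by
    rw [← mul_apply_eq_comp, Ring.mul_inverse_cancel _ hP]; rfl
  let u : (G → ℂ) → H2 := fun c => ∑ b : G, c b • lp.single 2 b.1 1
  have ua : ∀ c n, u c n = ∑ b : G, if n = b.1 then c b else 0 := fun c n => by
    simp only [u, lp.coeFn_sum, Finset.sum_apply, lp.coeFn_smul, Pi.smul_apply, lp.single_apply,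
      Pi.single_apply, smul_eq_mul, mul_ite, mul_one, mul_zero]
  have u1 : ∀ c (a : G), u c a = c a := fun c a => by
    rw [ua, Finset.sum_eq_single a (fun b _ hb => if_neg fun e => hb (Subtype.ext e.symm))
      (by simp), if_pos rfl]
  have u2 : ∀ c, ∀ n ∉ G, u c n = 0 := fun c n hn => by
    rw [ua]
    exact Finset.sum_eq_zero fun b _ => if_neg fun e => hn (by rw [e]; exact b.2)
  have mv : ∀ (c : G → ℂ) (a : G), (Matrix.of fun a b : G => (if a = b then Dn a q else 0) +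
      T (Ring.inverse P (lp.single 2 b.1 1)) a).mulVec c a =
        Dn a q * c a + T (Ring.inverse P (u c)) a := fun c a => by
    simp only [Matrix.mulVec, dotProduct, Matrix.of_apply, add_mul, Finset.sum_add_distrib,
      ite_mul, zero_mul, Finset.sum_ite_eq, Finset.mem_univ, if_true, u, map_sum, map_smul,
      lp.coeFn_sum, Finset.sum_apply, lp.coeFn_smul, Pi.smul_apply, smul_eq_mul]
    exact congrArg _ (Finset.sum_congr rfl fun _ _ => mul_comm _ _)
  rw [← Matrix.exists_mulVec_eq_zero_iff]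
  constructor
  · rintro ⟨v, v0, hv⟩
    have e : u (fun b => v b) = P v := lp.ext (funext fun n => by
      by_cases hn : n ∈ G
      · rw [u1 _ ⟨n, hn⟩, h1 v n hn]
      · rw [u2 _ n hn, h2 v n hn, hv, mul_zero])
    refine ⟨fun b => v b, fun e0 => v0 ?_, funext fun a => ?_⟩
    · rw [← i1 v, ← e, e0]
      simp [u]
    · rw [mv, e, i1]
      exact hv a
  · rintro ⟨c, c0, hc⟩
    have e : ∀ a : G, Ring.inverse P (u c) a = c a := fun a => by
      rw [← h1 _ a a.2, i2, u1]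
    refine ⟨Ring.inverse P (u c), fun e0 => c0 (funext fun a => ?_), fun n => ?_⟩
    · rw [← e, e0]; rfl
    · by_cases hn : n ∈ G
      · have := congrFun hc ⟨n, hn⟩
        rw [mv, ← e] at this
        exact this
      · have := h2 (Ring.inverse P (u c)) n hn
        rw [i2, u2 c n hn] at this
        exact (mul_eq_zero.1 this.symm).resolve_left (hr n hn)

theorem p_SCHUR : S_SCHUR := by
  classical
  intro T p
  set L : ℝ := ‖T‖ + 1 with hL
  have L1 : 1 ≤ L := by have := norm_nonneg T; linarith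
  set G := (schur_fin (‖p.1‖ + ‖p.2‖ + L)).toFinset with hG
  have off : ∀ n ∉ G, L ≤ ‖p.1 + gi n‖ ∧ L ≤ ‖p.2 + conj (gi n)‖ := fun n hn => by
    have h : ‖p.1‖ + ‖p.2‖ + L < ‖gi n‖ := by simpa [hG] using hn
    have a1 := norm_sub_le (p.1 + gi n) p.1
    have a2 := norm_sub_le (p.2 + conj (gi n)) p.2
    rw [add_sub_cancel_left] at a1 a2
    rw [RCLike.norm_conj] at a2
    constructor <;> linarith [norm_nonneg p.1, norm_nonneg p.2]
  have ne : ∀ n ∉ G, p.1 + gi n ≠ 0 ∧ p.2 + conj (gi n) ≠ 0 := fun n hn =>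
    ⟨norm_pos_iff.1 (by linarith [(off n hn).1]), norm_pos_iff.1 (by linarith [(off n hn).2])⟩
  have L0 : 0 < L := by linarith
  obtain ⟨A, -, hA⟩ := schur_diag (fun n => if n ∈ G then 0 else (p.1 + gi n)⁻¹) zero_le_one
    fun n => by
      split_ifs with hn
      · simp
      · rw [norm_inv]; exact inv_le_one_of_one_le₀ (L1.trans (off n hn).1)
  obtain ⟨B, -, hB⟩ := schur_diag (fun n => if n ∈ G then 0 else (p.2 + conj (gi n))⁻¹)
    zero_le_one fun n => by
      split_ifs with hn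
      · simp
      · rw [norm_inv]; exact inv_le_one_of_one_le₀ (L1.trans (off n hn).2)
  obtain ⟨R, nR, hR⟩ := schur_diag (fun n => if n ∈ G then 0 else (Dn n p)⁻¹)
    (inv_nonneg.2 L0.le) fun n => by
      split_ifs with hn
      · simpa using L0.le
      · rw [norm_inv, Dn, norm_mul]
        refine inv_anti₀ L0 ?_
        nlinarith [(off n hn).1, (off n hn).2]
  let P : ℂ × ℂ → H2 →L[ℂ] H2 := fun q =>
    1 + (q.1 - p.1) • A + (q.2 - p.2) • B + ((q.1 - p.1) * (q.2 - p.2)) • R + R * T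
  have aP : ∀ q, AnalyticAt ℂ P q := fun q => by
    have a1 : AnalyticAt ℂ (fun q : ℂ × ℂ => q.1 - p.1) q := analyticAt_fst.sub analyticAt_const
    have a2 : AnalyticAt ℂ (fun q : ℂ × ℂ => q.2 - p.2) q := analyticAt_snd.sub analyticAt_const
    exact (((analyticAt_const.add (a1.smul analyticAt_const)).add (a2.smul analyticAt_const)).add
      ((a1.mul a2).smul analyticAt_const)).add analyticAt_const
  have Pv : ∀ q (v : H2) n, P q v n = v n + (q.1 - p.1) * A v n + (q.2 - p.2) * B v n +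
      (q.1 - p.1) * (q.2 - p.2) * R v n + R (T v) n := fun q v n => rfl
  have up : IsUnit (P p) := by
    have h1 : ‖-(R * T)‖ < 1 := by
      rw [norm_neg]
      refine ((norm_mul_le _ _).trans (mul_le_mul_of_nonneg_right nR (norm_nonneg T))).trans_lt ?_
      rw [inv_mul_lt_iff₀ L0]
      linarith
    have h2 : P p = 1 - -(R * T) := by simp [P]
    rw [h2]
    exact (Units.oneSub _ h1).isUnit
  refine ⟨P ⁻¹' {x | IsUnit x}, Units.isOpen.preimage
    (continuous_iff_continuousAt.2 fun q => (aP q).continuousAt), up,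
    fun q => (Matrix.of fun a b : G => (if a = b then Dn a q else 0) +
      T (Ring.inverse (P q) (lp.single 2 b.1 1)) a).det, fun q hq => schur_det fun a b => ?_,
    fun q hq => schur_ker T (P q) hq G q (fun n => (Dn n p)⁻¹)
      (fun n hn => inv_ne_zero (mul_ne_zero (ne n hn).1 (ne n hn).2)) (fun v n hn => ?_)
      fun v n hn => ?_⟩
  · refine AnalyticAt.add (f := fun q => if a = b then Dn a q else 0) ?_ ?_
    · split_ifs
      · exact (analyticAt_fst.add analyticAt_const).mul (analyticAt_snd.add analyticAt_const)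
      · exact analyticAt_const
    · exact (((lp.evalCLM ℂ (fun _ : Fin 2 → ℤ => ℂ) 2 a.1).comp (T.comp
        (ContinuousLinearMap.apply ℂ H2 (lp.single 2 b.1 1)))).analyticAt _).comp
          ((analyticOnNhd_inverse _ hq).comp (aP q))
  · rw [Pv, hA, hB, hR, hR]
    simp [hn]
  · rw [Pv, hA, hB, hR, hR]
    obtain ⟨n1, n2⟩ := ne n hn
    simp only [hn, if_false, Dn]
    field_simp
    ring

end Pool.Agent.P.MP_a11f68_mp.Q

/-! Block EST: estimates at infinity. -/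

namespace Pool.Agent.P.MP_a11f68_mp.Q

open Complex ComplexConjugate MeasureTheory UnitAddTorus Metric Filter Topology Set Laplacian
open scoped Real ENNReal

lemma est_cmp (x y : H2) {L : ℝ} (hL : 0 ≤ L) (h : ∀ n, L * ‖x n‖ ≤ ‖y n‖) : L * ‖x‖ ≤ ‖y‖ := by
  have := lp.norm_mono (p := 2) two_ne_zero (x := (L : ℂ) • x) (y := y) fun n => by
    rw [lp.coeFn_smul, Pi.smul_apply, norm_smul, Complex.norm_real, Real.norm_of_nonneg hL]
    exact h n
  rwa [norm_smul, Complex.norm_real, Real.norm_of_nonneg hL] at this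

lemma est_int {x : ℝ} {j : ℤ} (h1 : (j : ℝ) + 1 / 4 < x) (h2 : x < j + 3 / 4) (m : ℤ) :
    1 / 4 < |x + m| := by
  rcases le_or_gt 0 (j + m) with h | h
  · have : (0 : ℝ) ≤ j + m := by exact_mod_cast h
    exact lt_abs.2 (Or.inl (by linarith))
  · have : (j : ℝ) + m ≤ -1 := by exact_mod_cast (show j + m ≤ -1 by omega)
    exact lt_abs.2 (Or.inr (by linarith))

lemma est_perf {s : ℂ} (hs : s ∈ Perf) (m k : ℤ) : 1 / 4 < ‖s + (m + k * I)‖ := by
  obtain ⟨j, ⟨h1, h2⟩ | ⟨h1, h2⟩⟩ := hs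
  · exact (est_int h1 h2 m).trans_le (by simpa using abs_re_le_norm (s + (m + k * I)))
  · exact (est_int h1 h2 k).trans_le (by simpa using abs_im_le_norm (s + (m + k * I)))

lemma est_perf' {s : ℂ} (hs : s ∈ Perf) (n : Fin 2 → ℤ) : 1 / 4 < ‖s + conj (gi n)‖ := by
  have := est_perf hs (n 0) (-n 1)
  simpa [gi] using this

lemma est_gi {n : Fin 2 → ℤ} (hn : n ≠ 0) : 1 ≤ ‖gi n‖ := by
  by_cases h : n 0 = 0
  · have h1 : n 1 ≠ 0 := fun h1 => hn (by ext i; fin_cases i <;> simp [h, h1])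
    have h2 : (1 : ℝ) ≤ |(n 1 : ℝ)| := by exact_mod_cast Int.one_le_abs h1
    exact h2.trans (by simpa [gi] using abs_im_le_norm (gi n))
  · have h2 : (1 : ℝ) ≤ |(n 0 : ℝ)| := by exact_mod_cast Int.one_le_abs h
    exact h2.trans (by simpa [gi] using abs_re_le_norm (gi n))

lemma est_prod {s t a : ℂ} (hx : 1 / 4 ≤ ‖s + a‖) (hy : 1 / 4 ≤ ‖t + conj a‖) :
    ‖s - conj t‖ / 8 ≤ ‖(s + a) * (t + conj a)‖ := by
  have h : ‖s - conj t‖ ≤ ‖s + a‖ + ‖t + conj a‖ := by
    rw [← Complex.norm_conj (t + _), show s - conj t = (s + a) - conj (t + conj a) by simp]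
    exact norm_sub_le _ _
  rw [norm_mul]
  nlinarith [mul_nonneg (sub_nonneg.2 hx) (sub_nonneg.2 hy),
    le_total ‖s + a‖ ‖t + conj a‖, sq_nonneg (‖s + a‖ - ‖t + conj a‖)]

lemma est_e0 {n : Fin 2 → ℤ} (hn : n ≠ 0) : e0 n = 0 := lp.single_apply_ne 2 0 1 hn

lemma est_e00 : e0 0 = 1 := lp.single_apply_self 2 0 1

lemma est_ne0 : ‖e0‖ = 1 := by rw [e0, lp.norm_single (by norm_num), norm_one]

lemma est_coord (T : H2 →L[ℂ] H2) (u : H2) : ‖T u 0‖ ≤ ‖T‖ * ‖u‖ :=
  (lp.norm_apply_le_norm two_ne_zero _ _).trans (T.le_opNorm u)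

section
variable {T : H2 →L[ℂ] H2} {a : (Fin 2 → ℤ) → ℂ} {s t : ℂ}

lemma est_half (ha1 : ∀ n ≠ 0, 1 ≤ ‖a n‖) (ht : ‖t‖ < 1 / 2) {n : Fin 2 → ℤ} (hn : n ≠ 0) :
    1 / 2 ≤ ‖t + conj (a n)‖ := by
  have h := norm_sub_norm_le (conj (a n)) (-t)
  rw [Complex.norm_conj, norm_neg, sub_neg_eq_add, add_comm] at h
  linarith [ha1 n hn]

lemma est_D (ha1 : ∀ n ≠ 0, 1 ≤ ‖a n‖) (hs : ∀ n, 1 / 4 < ‖s + a n‖) (h1 : 1 ≤ ‖s‖)
    (ht : ‖t‖ < 1 / 2) {n : Fin 2 → ℤ} (hn : n ≠ 0) :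
    ‖s‖ / 16 ≤ ‖(s + a n) * (t + conj (a n))‖ := by
  have h := norm_sub_norm_le s (conj t)
  rw [Complex.norm_conj] at h
  have := est_prod (hs n).le (le_trans (by norm_num) (est_half ha1 ht hn))
  linarith

/-- a vector vanishing at the origin and controlled by `T v` elsewhere -/
lemma est_rest (ha1 : ∀ n ≠ 0, 1 ≤ ‖a n‖) (hs : ∀ n, 1 / 4 < ‖s + a n‖) (h1 : 1 ≤ ‖s‖)
    (ht : ‖t‖ < 1 / 2) {w v : H2} (h0 : w 0 = 0)
    (h : ∀ n ≠ 0, (s + a n) * (t + conj (a n)) * w n + T v n = 0) :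
    ‖s‖ / 16 * ‖w‖ ≤ ‖T‖ * ‖v‖ := by
  refine (est_cmp w (T v) (by positivity) fun n => ?_).trans (T.le_opNorm v)
  by_cases hn : n = 0
  · rw [hn, h0, norm_zero, mul_zero]
    exact norm_nonneg _
  · rw [← norm_neg (T v n), ← eq_neg_of_add_eq_zero_left (h n hn), norm_mul _ (w n)]
    exact mul_le_mul_of_nonneg_right (est_D ha1 hs h1 ht hn) (norm_nonneg _)

lemma est_norm (ha0 : a 0 = 0) (ha1 : ∀ n ≠ 0, 1 ≤ ‖a n‖) (hs : ∀ n, 1 / 4 < ‖s + a n‖)
    (h1 : 1 ≤ ‖s‖) (h2 : 32 * ‖T‖ ≤ ‖s‖) (ht : ‖t‖ < 1 / 2)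
    (h : ∃ v : H2, v ≠ 0 ∧ ∀ n, (s + a n) * (t + conj (a n)) * v n + T v n = 0) :
    ∃ u : H2, u 0 = 0 ∧ ‖s‖ * ‖u‖ ≤ 32 * ‖T‖ ∧ s * t + T e0 0 + T u 0 = 0 ∧
      ∀ n ≠ 0, (s + a n) * (t + conj (a n)) * u n + T (e0 + u) n = 0 := by
  obtain ⟨v, hv, h⟩ := h
  have hc : v 0 ≠ 0 := fun h0 => by
    have h3 := est_rest ha1 hs h1 ht h0 fun n _ => h n
    have h4 := norm_pos_iff.2 hv
    nlinarith
  have h' : ∀ n, (s + a n) * (t + conj (a n)) * ((v 0)⁻¹ • v) n + T ((v 0)⁻¹ • v) n = 0 :=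
    fun n => by
      rw [map_smul, lp.coeFn_smul, lp.coeFn_smul, Pi.smul_apply, Pi.smul_apply, smul_eq_mul,
        smul_eq_mul]
      linear_combination (v 0)⁻¹ * h n
  have h0 : ((v 0)⁻¹ • v) 0 = 1 := by
    rw [lp.coeFn_smul, Pi.smul_apply, smul_eq_mul, inv_mul_cancel₀ hc]
  obtain ⟨u, hu⟩ : ∃ u, (v 0)⁻¹ • v = e0 + u := ⟨_, (add_sub_cancel _ _).symm⟩
  rw [hu] at h' h0
  have hu0 : u 0 = 0 := by
    rw [lp.coeFn_add, Pi.add_apply, est_e00] at h0
    linear_combination h0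
  have hn : ∀ n ≠ 0, (s + a n) * (t + conj (a n)) * u n + T (e0 + u) n = 0 := fun n hn => by
    have := h' n
    rwa [lp.coeFn_add e0 u, Pi.add_apply, est_e0 hn, zero_add] at this
  refine ⟨u, hu0, ?_, ?_, hn⟩
  · have h3 := est_rest ha1 hs h1 ht hu0 hn
    have h4 : ‖e0 + u‖ ≤ 1 + ‖u‖ := est_ne0 ▸ norm_add_le e0 u
    have h5 := mul_le_mul_of_nonneg_left h4 (norm_nonneg T)
    nlinarith [norm_nonneg u]
  · have := h' 0
    rw [h0, ha0, map_add T, lp.coeFn_add, Pi.add_apply] at this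
    simpa [add_assoc] using this

lemma est_end (T : H2 →L[ℂ] H2) (F : Set (ℂ × ℂ)) (ha0 : a 0 = 0) (ha1 : ∀ n ≠ 0, 1 ≤ ‖a n‖)
    (hs : ∀ s ∈ Perf, ∀ n, 1 / 4 < ‖s + a n‖) {N : ℕ} (hN : 32 * ‖T‖ + 1 ≤ N)
    (hF : ∀ s t, (s, t) ∈ F →
      ∃ v : H2, v ≠ 0 ∧ ∀ n, (s + a n) * (t + conj (a n)) * v n + T v n = 0) :
    End F (-T e0 0) N (32 * ‖T‖ ^ 2) := by
  have hT := norm_nonneg T
  have far : ∀ s ∈ Perf ∩ Far N, 1 ≤ ‖s‖ ∧ 32 * ‖T‖ ≤ ‖s‖ := fun s h => by
    have : (N : ℝ) < ‖s‖ := h.2.elim (·.trans_le (abs_re_le_norm s)) (·.trans_le (abs_im_le_norm s))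
    constructor <;> linarith
  refine ⟨fun s h t t' ht ht' hm hm' => ?_, fun s h t ht hm => ?_, fun s h t ht hm => ?_⟩
  · obtain ⟨h1, h2⟩ := far s h
    obtain ⟨u, u0, -, u2, u3⟩ := est_norm ha0 ha1 (hs s h.1) h1 h2 ht (hF s t hm)
    obtain ⟨w, w0, w1, w2, w3⟩ := est_norm ha0 ha1 (hs s h.1) h1 h2 ht' (hF s t' hm')
    have hb : ∀ n, ‖(t' - t) * w n / (t + conj (a n))‖ ≤ ‖((2 * (t' - t)) • w) n‖ := fun n => by
      rw [lp.coeFn_smul, Pi.smul_apply, smul_eq_mul]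
      by_cases hn : n = 0
      · simp [hn, w0]
      · have := est_half ha1 ht hn
        rw [norm_div, div_le_iff₀ (by linarith), mul_assoc, norm_mul 2, Complex.norm_two]
        nlinarith [norm_nonneg ((t' - t) * w n)]
    let p : H2 := ⟨fun n => (t' - t) * w n / (t + conj (a n)), (lp.memℓp _).mono' hb⟩
    have hp : ∀ n, p n = (t' - t) * w n / (t + conj (a n)) := fun _ => rfl
    have hpn : ‖p‖ ≤ 2 * ‖t' - t‖ * ‖w‖ := by
      have := lp.norm_mono (p := 2) two_ne_zero (x := p) hb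
      rwa [norm_smul, norm_mul, Complex.norm_two] at this
    have hr := est_rest (T := T) ha1 (hs s h.1) h1 ht (w := u - w - p) (v := u - w)
      (by simp [u0, w0, hp]) fun n hn => by
        have hne : t + conj (a n) ≠ 0 := fun e => by
          have := est_half ha1 ht hn
          rw [e, norm_zero] at this
          norm_num at this
        have e1 := u3 n hn
        have e2 := w3 n hn
        rw [map_add T, lp.coeFn_add, Pi.add_apply] at e1 e2
        have e3 : (t + conj (a n)) * p n = (t' - t) * w n := by rw [hp, mul_div_cancel₀ _ hne]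
        rw [map_sub T, lp.coeFn_sub, lp.coeFn_sub, lp.coeFn_sub, Pi.sub_apply, Pi.sub_apply,
          Pi.sub_apply]
        linear_combination e1 - e2 - (s + a n) * e3
    have hd : ‖u - w‖ ≤ ‖u - w - p‖ + ‖p‖ := by simpa using norm_add_le (u - w - p) p
    have hw : ‖w‖ ≤ 1 := by nlinarith [norm_nonneg w]
    have hr' : ‖u - w - p‖ ≤ ‖u - w‖ / 2 := by
      have : ‖s‖ * ‖u - w - p‖ ≤ ‖s‖ * (‖u - w‖ / 2) := by nlinarith [norm_nonneg (u - w)]
      exact le_of_mul_le_mul_left this (by linarith)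
    have hδ := norm_nonneg (t' - t)
    have hd' : ‖u - w‖ ≤ 4 * ‖t' - t‖ := by nlinarith
    have h0 : ‖s‖ * ‖t' - t‖ ≤ ‖T‖ * ‖u - w‖ := by
      refine le_trans (le_of_eq ?_) (est_coord T (u - w))
      rw [← norm_mul, map_sub T, lp.coeFn_sub, Pi.sub_apply]
      congr 1
      linear_combination w2 - u2
    have : ‖t' - t‖ ≤ 0 := by nlinarith
    exact (sub_eq_zero.1 (norm_le_zero_iff.1 this)).symm
  · obtain ⟨h1, h2⟩ := far s h
    obtain ⟨u, -, u1, u2, -⟩ := est_norm ha0 ha1 (hs s h.1) h1 h2 ht (hF s t hm)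
    have hu : ‖u‖ ≤ 1 := by nlinarith [norm_nonneg u]
    have h3 : ‖s‖ * ‖t‖ ≤ ‖T‖ * ‖e0‖ + ‖T‖ * ‖u‖ := by
      rw [← norm_mul, show s * t = -(T e0 0 + T u 0) by linear_combination u2, norm_neg]
      exact (norm_add_le _ _).trans (add_le_add (est_coord T _) (est_coord T _))
    rw [est_ne0] at h3
    have : ‖s‖ * ‖t‖ ≤ ‖s‖ * (1 / 4) := by nlinarith
    exact le_of_mul_le_mul_left this (by linarith)
  · obtain ⟨h1, h2⟩ := far s h
    obtain ⟨u, -, u1, u2, -⟩ := est_norm ha0 ha1 (hs s h.1) h1 h2 ht (hF s t hm)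
    rw [show s * t - -T e0 0 = -T u 0 by linear_combination u2, norm_neg, le_div_iff₀ (by linarith)]
    have := mul_le_mul_of_nonneg_right (est_coord T u) (norm_nonneg s)
    nlinarith

end

theorem p_EST : S_EST := by
  intro T
  have hN := Nat.le_ceil (32 * ‖T‖ + 1)
  refine ⟨⌈32 * ‖T‖ + 1⌉₊, 32 * ‖T‖ ^ 2, ?_, ?_, ?_⟩
  · rintro w hw z hz h ⟨v, hv, h1⟩
    have h2 := est_cmp v (T v) (L := ‖w - conj z‖ / 8) (by positivity) fun n => by
      rw [← norm_neg (T v n), ← eq_neg_of_add_eq_zero_left (h1 n), norm_mul _ (v n)]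
      exact mul_le_mul_of_nonneg_right
        (est_prod (est_perf hw (n 0) (n 1)).le (est_perf' hz n).le) (norm_nonneg _)
    have h3 := T.le_opNorm v
    have h4 := norm_pos_iff.2 hv
    nlinarith [norm_nonneg T]
  · exact est_end (a := gi) T _ (by simp [gi]) (fun n => est_gi)
      (fun s hs n => est_perf hs (n 0) (n 1)) hN fun s t h => h
  · refine est_end (a := fun n => conj (gi n)) T _ (by simp [gi])
      (fun n hn => by rw [Complex.norm_conj]; exact est_gi hn) (fun s hs n => est_perf' hs n) hN ?_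
    rintro s t ⟨v, hv, h⟩
    refine ⟨v, hv, fun n => ?_⟩
    rw [Complex.conj_conj, mul_comm (s + _)]
    exact h n

end Pool.Agent.P.MP_a11f68_mp.Q

/-! The multiplication operator in Fourier coordinates. -/

namespace Pool.Agent.P.MP_a11f68_mp.Q

open Complex ComplexConjugate MeasureTheory UnitAddTorus Metric Filter Topology Set Laplacian
open scoped Real ENNReal

theorem op_basis (ν : Measure (UnitAddTorus (Fin 2)))
    (h : ν = Measure.pi fun _ => AddCircle.haarAddCircle) :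
    IsProbabilityMeasure ν ∧ ∃ R : Lp ℂ 2 ν ≃ₗᵢ[ℂ] H2, (∀ f n, R f n = mFourierCoeff f n) ∧
      R.symm e0 =ᵐ[ν] fun _ => 1 := by
  subst h
  refine ⟨inferInstance, mFourierBasis.repr, mFourierBasis_repr, ?_⟩
  have h1 := (mFourierBasis (d := Fin 2)).repr_symm_single 0
  rw [coe_mFourierBasis] at h1
  have h2 := coeFn_mFourierLp (d := Fin 2) 2 0
  rw [← h1, mFourier_zero] at h2
  exact h2

theorem op_norm (n : Fin 2 → ℤ) (x : UnitAddTorus (Fin 2)) : ‖mFourier n x‖ = 1 := by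
  simp [mFourier]

theorem op_sum (k : Fin 2 → ℂ) (n : Fin 2 → ℤ) :
    Dn n (k 0 + k 1 * I, k 0 - k 1 * I) = ∑ i, (k i + n i) ^ 2 := by
  simp only [Dn, gi, Fin.sum_univ_two, map_add, map_mul, map_intCast, conj_I]
  linear_combination (-(k 1 + n 1) ^ 2) * I_sq

theorem p_OP (hL : S_LIFT) : S_OP := by
  obtain ⟨-, -, -, -, -, -, hc, hv⟩ := hL
  intro V lam hV
  obtain ⟨hP, R, hR, h0⟩ := op_basis _ hv
  have cg : ∀ (f g : UnitAddTorus (Fin 2) → ℂ) (n : Fin 2 → ℤ), f =ᵐ[volume] g →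
      mFourierCoeff f n = mFourierCoeff g n := fun f g n h => by
    rw [hc, hc]
    exact integral_congr_ae (h.mono fun x hx => by simp only [hx])
  refine ⟨?_, ?_⟩
  · rintro k ⟨v, h1, h2, h3⟩ m
    have sh : ∀ (f : UnitAddTorus (Fin 2) → ℂ) (n : Fin 2 → ℤ),
        mFourierCoeff (fun x => mFourier (-m) x * f x) n = mFourierCoeff f (n + m) := fun f n => by
      simp only [hc, neg_add, mFourier_add, mul_assoc]
    refine ⟨fun x => mFourier (-m) x * v x,
      h1.congr_norm ((mFourier (-m)).continuous.aestronglyMeasurable.mul h1.1)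
        (.of_forall fun x => by rw [norm_mul, op_norm, one_mul]),
      fun h => h2 (h.mono fun x hx => (mul_eq_zero.1 hx).resolve_left fun e => ?_), fun n => ?_⟩
    · simpa [e] using op_norm (-m) x
    · simp only [mul_left_comm (V _), sh]
      simpa [add_assoc, add_comm (m _ : ℂ)] using h3 (n + m)
  let M := (ContinuousLinearMap.mul ℂ ℂ).holderL volume ∞ 2 2 (hV.toLp V)
  have hM : ∀ f, M f =ᵐ[volume] fun x => V x * f x := fun f => by
    filter_upwards [(ContinuousLinearMap.mul ℂ ℂ).coeFn_holder (r := 2) (hV.toLp V) f,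
      hV.coeFn_toLp] with x h1 h2
    rw [← h2]
    exact h1
  let T : H2 →L[ℂ] H2 := (4 * π ^ 2 : ℂ)⁻¹ •
    ((R : _ →L[ℂ] H2) ∘L M ∘L (R.symm : H2 →L[ℂ] _) - lam • .id ℂ H2)
  have hT : ∀ f n, T (R f) n = (4 * π ^ 2 : ℂ)⁻¹ *
      (mFourierCoeff (fun x => V x * f x) n - lam * R f n) := fun f n => by
    rw [← cg _ _ n (hM f), ← hR]
    simp [T]
  have hπ : (4 * π ^ 2 : ℂ) ≠ 0 := by simp
  have key : ∀ (k : Fin 2 → ℂ) f n, Dn n (k 0 + k 1 * I, k 0 - k 1 * I) * R f n + T (R f) n = 0 ↔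
      (4 * π ^ 2 * ∑ i, (k i + n i) ^ 2 - lam) * mFourierCoeff f n
        + mFourierCoeff (fun x => V x * f x) n = 0 := fun k f n => by
    rw [hT, op_sum, hR, ← mul_right_inj' hπ, mul_add, mul_inv_cancel_left₀ hπ, mul_zero]
    exact Eq.congr_left (by ring)
  refine ⟨T, ?_, fun k => ⟨?_, ?_⟩⟩
  · have := hT (R.symm e0) 0
    rw [R.apply_symm_apply, cg _ V 0 (h0.mono fun x hx => by simp only [hx, mul_one]), hc] at this
    rw [this, div_eq_inv_mul]
    simp [e0, mFourier_zero]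
  · rintro ⟨v, h1, h2, h3⟩
    refine ⟨R (h1.toLp v), fun e => h2 (h1.coeFn_toLp.symm.trans
      (Lp.eq_zero_iff_ae_eq_zero.1 (R.map_eq_zero_iff.1 e))), fun n => (key k _ n).2 ?_⟩
    rw [cg _ v n h1.coeFn_toLp, cg (fun x => V x * h1.toLp v x) (fun x => V x * v x) n
      (h1.coeFn_toLp.mono fun x hx => by simp only [hx])]
    exact h3 n
  · rintro ⟨u, h1, h2⟩
    obtain ⟨f, rfl⟩ := R.surjective u
    exact ⟨f, Lp.memLp f, fun e => h1 (R.map_eq_zero_iff.2 (Lp.eq_zero_iff_ae_eq_zero.2 e)),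
      fun n => (key k f n).1 (h2 n)⟩

end Pool.Agent.P.MP_a11f68_mp.Q
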