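import Pool.Agent.P.MP_a11f68_mp.Q.Iface
import Pool.Agent.P.MP_a11f68_mp.Main

/-! The potential and its Bloch solutions. -/

namespace Pool.Agent.P.MP_a11f68_mp.Q

open Complex ComplexConjugate MeasureTheory UnitAddTorus Metric Filter Topology Set Laplacian
open scoped Real ENNReal

noncomputable section

variable {d : ℕ} {f g A : ℂ → ℂ}

/-- The Wronskian. -/
def sol_W (f g : ℂ → ℂ) (z : ℂ) : ℂ := f z * deriv g z - g z * deriv f z

/-- The denominator. -/
def sol_r (f g : ℂ → ℂ) (z : ℂ) : ℂ := f z * f (conj z) + g z * g (conj z)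

/-- The solution. -/
def sol_u (f g : ℂ → ℂ) (a b z : ℂ) : ℂ :=
  (f (conj z) * (cexp (a * z) * f (z - b)) + g (conj z) * (cexp (a * z) * g (z - b))) *
    (sol_r f g z)⁻¹

/-- The antiholomorphic derivative of the solution. -/
def sol_q (f g : ℂ → ℂ) (a b z : ℂ) : ℂ :=
  sol_W f g (conj z) * ((f z * (cexp (a * z) * g (z - b)) - g z * (cexp (a * z) * f (z - b))) *
    ((sol_r f g z)⁻¹ * (sol_r f g z)⁻¹))

lemma sol_dy (h : Th d f g A) (x y : ℂ) : f x * deriv g y - g x * deriv f y =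
    deriv A (x + y) * A (x - y) - A (x + y) * deriv A (x - y) := by
  have h1 := ((h.dg y).hasDerivAt.const_mul (f x)).sub ((h.df y).hasDerivAt.const_mul (g x))
  have h2 := ((h.dA (x + y)).hasDerivAt.comp_const_add x y).mul
    ((h.dA (x - y)).hasDerivAt.comp_const_sub x y)
  have := h1.unique (h2.congr_of_eventuallyEq (.of_forall fun y => h.add x y))
  linear_combination this

lemma sol_dx (h : Th d f g A) (x y : ℂ) : deriv f x * g y - deriv g x * f y =
    deriv A (x + y) * A (x - y) + A (x + y) * deriv A (x - y) := by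
  have h1 := ((h.df x).hasDerivAt.mul_const (g y)).sub ((h.dg x).hasDerivAt.mul_const (f y))
  have h2 := ((h.dA (x + y)).hasDerivAt.comp_add_const x y).mul
    ((h.dA (x - y)).hasDerivAt.comp_sub_const x y)
  exact h1.unique (h2.congr_of_eventuallyEq (.of_forall fun x => h.add x y))

lemma sol_A (h : Th d f g A) : ∃ t, A t ≠ 0 := by
  by_contra hc
  push Not at hc
  exact h.A_der (by rw [show A = fun _ => 0 from funext hc]; simp)

lemma sol_nz (h : Th d f g A) (z : ℂ) (h1 : f z = 0) (h2 : g z = 0) : False := by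
  obtain ⟨t, ht⟩ := sol_A h
  have hA := h.dA
  obtain ⟨y, e1, e2⟩ := exists_ne_zero₂ (f := fun y => A (z + y)) (g := fun y => A (z - y))
    (by fun_prop) (by fun_prop) (a := t - z) (b := z - t) (by simpa using ht) (by simpa using ht)
  exact mul_ne_zero e1 e2 (by rw [← h.add, h1, h2]; ring)

lemma sol_r_eq (h : Th d f g A) (z : ℂ) :
    sol_r f g z = ((normSq (f z) + normSq (g z) : ℝ) : ℂ) := by
  rw [sol_r, h.f_conj, h.g_conj, mul_conj, mul_conj, ofReal_add]

lemma sol_pos (h : Th d f g A) (z : ℂ) : normSq (f z) + normSq (g z) ≠ 0 := fun e => by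
  have h1 := normSq_nonneg (f z)
  have h2 := normSq_nonneg (g z)
  exact sol_nz h z (normSq_eq_zero.1 (by linarith)) (normSq_eq_zero.1 (by linarith))

lemma sol_r_ne (h : Th d f g A) (z : ℂ) : sol_r f g z ≠ 0 := by
  rw [sol_r_eq h]
  exact ofReal_ne_zero.2 (sol_pos h z)

lemma sol_pot (h : Th d f g A) (z : ℂ) :
    (pot f g z : ℂ) = -8 * (sol_W f g z * sol_W f g (conj z)) / sol_r f g z ^ 2 := by
  have : sol_W f g (conj z) = conj (sol_W f g z) := by
    simp only [sol_W, h.f_conj, h.g_conj, conj_deriv h.f_conj, conj_deriv h.g_conj, map_sub,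
      map_mul]
  rw [this, mul_conj, sol_r_eq h, pot, sol_W]
  push_cast
  rfl

lemma sol_pot_conj (h : Th d f g A) (z : ℂ) : (pot f g (conj z) : ℂ) = pot f g z := by
  rw [sol_pot h, sol_pot h, sol_r, sol_r, conj_conj]
  ring

lemma sol_an (h : Th d f g A) : AnalyticOnNhd ℝ (pot f g) univ := fun z _ => by
  have key : ∀ φ : ℂ → ℂ, Differentiable ℂ φ → AnalyticAt ℝ (fun z => normSq (φ z)) z :=
    fun φ hφ => by
      have h1 : AnalyticAt ℝ φ z := (hφ.analyticAt z).restrictScalars
      have h2 := (reCLM.analyticAt _).fun_comp h1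
      have h3 := (imCLM.analyticAt _).fun_comp h1
      exact (h2.mul h2).add (h3.mul h3)
  exact (analyticAt_const.mul (key _ ((h.df.mul h.dg.deriv).sub (h.dg.mul h.df.deriv)))).div
    (((key _ h.df).add (key _ h.dg)).pow 2) (pow_ne_zero 2 (sol_pos h z))

lemma sol_sq (d : ℕ) : ((-1 : ℂ) ^ d) * (-1) ^ d = 1 := by rw [← mul_pow]; simp

lemma sol_r_one (h : Th d f g A) (z : ℂ) : sol_r f g (z + 1) = sol_r f g z := by
  rw [sol_r, sol_r, map_add, map_one, h.f_one, h.f_one, h.g_one, h.g_one]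
  linear_combination g z * g (conj z) * sol_sq d

lemma sol_W_one (h : Th d f g A) (z : ℂ) : sol_W f g (z + 1) = (-1) ^ d * sol_W f g z := by
  rw [sol_W, sol_W, shift_deriv h.df h.df (K := 1) (α := 0) fun z => by simp [h.f_one],
    shift_deriv h.dg h.dg (K := (-1) ^ d) (α := 0) fun z => by simp [h.g_one], h.f_one, h.g_one]
  simp only [zero_mul, exp_zero]
  ring

lemma sol_pot_one (h : Th d f g A) (z : ℂ) : pot f g (z + 1) = pot f g z := by
  apply ofReal_injective
  rw [sol_pot h, sol_pot h, sol_r_one h, map_add, map_one, sol_W_one h, sol_W_one h]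
  linear_combination -8 * (sol_W f g z * sol_W f g (conj z)) / sol_r f g z ^ 2 * sol_sq d

lemma sol_pot_I (h : Th d f g A) (z : ℂ) : pot f g (z + I) = pot f g z := by
  have e : ∀ x : ℂ, cexp (π * d / 2 - π * I * d * x) =
      cexp (π * d / 2) * cexp (-(π * I * d) * x) := fun x => by
    rw [← exp_add]; congr 1; ring
  have hW : f (z + I) * deriv g (z + I) - g (z + I) * deriv f (z + I) =
      -(cexp (π * d / 2 - π * I * d * z) * cexp (π * d / 2 - π * I * d * z) *
        (f z * deriv g z - g z * deriv f z)) := by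
    rw [shift_deriv h.df h.dg fun z => (h.f_I z).trans (by rw [e]),
      shift_deriv h.dg h.df fun z => (h.g_I z).trans (by rw [e]), h.f_I, h.g_I, e]
    ring
  have h0 : normSq (cexp (π * d / 2 - π * I * d * z)) ≠ 0 := normSq_eq_zero.not.2 (exp_ne_zero _)
  have h1 := sol_pos h z
  rw [pot, pot, hW, h.f_I, h.g_I]
  simp only [normSq_neg, map_mul]
  generalize normSq (cexp (π * d / 2 - π * I * d * z)) = E at h0
  rw [← mul_add, add_comm (normSq (g z))]
  field_simp

lemma sol_ct {φ : ℂ → ℂ} (hφ : Differentiable ℂ φ) (z : ℂ) :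
    HasW (fun z => φ (conj z)) 0 (deriv φ (conj z)) z :=
  (HasW.of_hol (hφ (conj z)).hasDerivAt).of_conj

lemma sol_t {φ : ℂ → ℂ} (hφ : Differentiable ℂ φ) (a b z : ℂ) :
    HasW (fun z => cexp (a * z) * φ (z - b))
      (cexp (a * z) * (a * φ (z - b) + deriv φ (z - b))) 0 z := by
  have h1 : HasDerivAt (fun z => cexp (a * z)) (cexp (a * z) * a) z := by
    simpa using ((hasDerivAt_id z).const_mul a).cexp
  exact (HasW.of_hol (h1.mul ((hφ (z - b)).hasDerivAt.comp_sub_const z b))).congr (by ring) rfl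

lemma sol_hr (h : Th d f g A) (z : ℂ) : HasW (fun z => (sol_r f g z)⁻¹)
    (-(sol_r f g z ^ 2)⁻¹ * (deriv f z * f (conj z) + deriv g z * g (conj z)))
    (-(sol_r f g z ^ 2)⁻¹ * (f z * deriv f (conj z) + g z * deriv g (conj z))) z :=
  ((((HasW.of_hol (h.df z).hasDerivAt).mul (sol_ct h.df z)).add
    ((HasW.of_hol (h.dg z).hasDerivAt).mul (sol_ct h.dg z))).comp_hol
      (hasDerivAt_inv (sol_r_ne h z))).congr (by rw [sol_r]; ring) (by rw [sol_r]; ring)

lemma sol_hu (h : Th d f g A) (a b z : ℂ) : ∃ p, HasW (sol_u f g a b) p (sol_q f g a b z) z := by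
  refine ⟨_, ((((sol_ct h.df z).mul (sol_t h.df a b z)).add
    ((sol_ct h.dg z).mul (sol_t h.dg a b z))).mul (sol_hr h z)).congr rfl ?_⟩
  have h0 := sol_r_ne h z
  rw [sol_q, sol_W]
  field_simp
  rw [sol_r]
  ring

lemma sol_hq (h : Th d f g A) {a b : ℂ} (hab : a * A b - 2 * deriv A b = 0) (z : ℂ) :
    ∃ q, HasW (sol_q f g a b) (pot f g z * sol_u f g a b z / 4) q z := by
  have hW : Differentiable ℂ (sol_W f g) := (h.df.mul h.dg.deriv).sub (h.dg.mul h.df.deriv)
  refine ⟨_, ((sol_ct hW z).mul (((((HasW.of_hol (h.df z).hasDerivAt).mul (sol_t h.dg a b z)).sub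
    ((HasW.of_hol (h.dg z).hasDerivAt).mul (sol_t h.df a b z))).mul
      ((sol_hr h z).mul (sol_hr h z))))).congr ?_ rfl⟩
  have h0 := sol_r_ne h z
  have e0 := h.add z (z - b)
  have e1 := sol_dy h z (z - b)
  have e2 := sol_dx h z (z - b)
  rw [sub_sub_cancel] at e0 e1 e2
  have K : f z * (a * g (z - b) + deriv g (z - b)) - g z * (a * f (z - b) + deriv f (z - b)) =
      deriv f z * g (z - b) - deriv g z * f (z - b) := by
    linear_combination a * e0 + e1 - e2 + A (z + (z - b)) * hab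
  rw [sol_pot h, sol_u]
  generalize sol_W f g (conj z) = Wb
  rw [sol_W]
  field_simp
  rw [sol_r]
  linear_combination 4 * Wb * (f z * f (conj z) + g z * g (conj z)) * K

lemma sol_cd (h : Th d f g A) (a b : ℂ) : ContDiff ℝ 2 (sol_u f g a b) := by
  have hf : ContDiff ℝ 2 f := h.df.contDiff.restrict_scalars ℝ
  have hg : ContDiff ℝ 2 g := h.dg.contDiff.restrict_scalars ℝ
  have hc : ContDiff ℝ 2 fun z : ℂ => conj z := conjCLE.contDiff
  have he : ContDiff ℝ 2 fun z : ℂ => cexp (a * z) := (contDiff_const.mul contDiff_id).cexp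
  have hs : ContDiff ℝ 2 fun z : ℂ => z - b := contDiff_id.sub contDiff_const
  exact (((hf.comp hc).mul (he.mul (hf.comp hs))).add ((hg.comp hc).mul (he.mul (hg.comp hs)))).mul
    (((hf.mul (hf.comp hc)).add (hg.mul (hg.comp hc))).inv (sol_r_ne h))

lemma sol_ne (h : Th d f g A) (a b : ℂ) : ∃ z, sol_u f g a b z ≠ 0 := by
  by_contra hc
  push Not at hc
  obtain ⟨t, ht⟩ := sol_A h
  set z := conj (t / 2) with hz
  have hW : sol_W f g (conj z) ≠ 0 := by
    rw [hz, conj_conj, sol_W, sol_dy h, sub_self, h.A_zero, add_halves]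
    simpa using ⟨ht, h.A_der⟩
  obtain ⟨p, hp⟩ := sol_hu h a b z
  have h0 := sol_r_ne h z
  have h1 : sol_q f g a b z = 0 := by
    rw [show sol_u f g a b = fun _ => 0 from funext hc] at hp
    exact (hp.unique (HasW.of_hol (hasDerivAt_const z 0))).2
  have h2 := (mul_eq_zero.1 (hc z)).resolve_right (inv_ne_zero h0)
  have h3 := (mul_eq_zero.1 ((mul_eq_zero.1 h1).resolve_left hW)).resolve_right
    (mul_ne_zero (inv_ne_zero h0) (inv_ne_zero h0))
  have h4 := mul_ne_zero h0 (exp_ne_zero (a * z))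
  refine sol_nz h (z - b) (mul_left_cancel₀ h4 ?_) (mul_left_cancel₀ h4 ?_) <;> rw [sol_r]
  · linear_combination f z * h2 - g (conj z) * h3
  · linear_combination g z * h2 + f (conj z) * h3

lemma sol_u_one (h : Th d f g A) (a b z : ℂ) :
    sol_u f g a b (z + 1) = cexp a * sol_u f g a b z := by
  rw [sol_u, sol_u, sol_r_one h, map_add, map_one, add_sub_right_comm, h.f_one, h.f_one, h.g_one,
    h.g_one, mul_add a, mul_one, exp_add]
  linear_combination
    cexp a * g (conj z) * cexp (a * z) * g (z - b) * (sol_r f g z)⁻¹ * sol_sq d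

lemma sol_u_I (h : Th d f g A) (a b z : ℂ) :
    sol_u f g a b (z + I) = cexp (a * I + π * I * d * b) * sol_u f g a b z := by
  have e : cexp (π * d / 2 - π * I * d * (z - b)) =
      cexp (π * d / 2 - π * I * d * z) * cexp (π * I * d * b) := by
    rw [← exp_add]; congr 1; ring
  have h0 := sol_r_ne h z
  have h1 := exp_ne_zero (π * d / 2 - π * I * d * z)
  have h2 := (map_ne_zero (starRingEnd ℂ)).2 h1
  have hr : sol_r f g (z + I) = cexp (π * d / 2 - π * I * d * z) *
      conj (cexp (π * d / 2 - π * I * d * z)) * sol_r f g z := by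
    rw [sol_r, sol_r, h.f_conj, h.g_conj, h.f_I, h.g_I, map_mul, map_mul, h.f_conj, h.g_conj]
    ring
  rw [sol_u, sol_u, hr, h.f_conj, h.g_conj, add_sub_right_comm, h.f_I, h.f_I, h.g_I, h.g_I, map_mul,
    map_mul, h.f_conj, h.g_conj, e, mul_add a, exp_add, exp_add]
  field_simp
  ring

lemma sol_qp {u : ℂ → ℂ} {k : Fin 2 → ℂ} (h : QP k u) : QP ![k 0, -k 1] fun z => u (conj z) := by
  refine ⟨fun z => ?_, fun z => ?_⟩
  · simp only [map_add, map_one, h.1, Matrix.cons_val_zero]
  · have := h.2 (conj (z + I))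
    rw [show conj (z + I) + I = conj z by simp] at this
    simp only [Matrix.cons_val_one, Matrix.cons_val_zero, this]
    rw [← mul_assoc, ← exp_add]
    simp

lemma sol_conj {V : ℂ → ℂ} (hV : ∀ z, V (conj z) = V z) {k : Fin 2 → ℂ} (h : Sol V 0 k) :
    Sol V 0 ![k 0, -k 1] := by
  obtain ⟨u, h1, h2, h3, h4⟩ := h
  refine ⟨fun z => u (conj z), h1.comp conjCLE.contDiff, fun e => h2 ?_, fun z => ?_, sol_qp h4⟩
  · ext z
    simpa using congrFun e (conj z)
  · exact (laplacian_comp_isometry conjLIE h1 z).trans ((h3 (conj z)).trans (by rw [hV]))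

lemma sol_main (hd : 0 < d) (h : Th d f g A) (k : Fin 2 → ℂ)
    (hk : GG d A (k 0 + k 1 * I, k 0 - k 1 * I) = 0) :
    Sol (fun ζ => (pot f g ζ : ℂ)) 0 ![k 0, -k 1] := by
  have hab : 2 * π * I * k 0 * A (-2 * I * (k 0 + k 1 * I) / d) -
      2 * deriv A (-2 * I * (k 0 + k 1 * I) / d) = 0 := by
    rw [← hk, GG]
    ring
  generalize hb : -2 * I * (k 0 + k 1 * I) / d = b at hab
  generalize ha : 2 * π * I * k 0 = a at hab
  have hc : ContDiff ℝ 2 fun z => sol_u f g a b (conj z) := (sol_cd h a b).comp conjCLE.contDiff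
  refine ⟨_, hc, fun e => ?_, fun z => ?_, sol_qp ⟨fun z => ?_, fun z => ?_⟩⟩
  · obtain ⟨z, hz⟩ := sol_ne h a b
    exact hz (by simpa using congrFun e (conj z))
  · have h1 : wd (fun z => sol_u f g a b (conj z)) = fun z => sol_q f g a b (conj z) :=
      funext fun z => (sol_hu h a b (conj z)).choose_spec.of_conj.wd_eq
    have h2 := wb_wd hc z
    rw [h1, (sol_hq h hab (conj z)).choose_spec.of_conj.wb_eq, sol_pot_conj h] at h2
    linear_combination -4 * h2
  · rw [sol_u_one h, ha]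
  · rw [sol_u_I h, ← ha, ← hb]
    have : (d : ℂ) ≠ 0 := Nat.cast_ne_zero.2 hd.ne'
    congr 2
    field_simp
    linear_combination -(k 1) * I_sq

theorem p_SOL : S_SOL := by
  intro d f g A hd h
  refine ⟨sol_an h, sol_pot_one h, sol_pot_I h, fun k hk => ?_⟩
  have e : ![k 0, - -k 1] = k := by
    ext i
    fin_cases i <;> simp
  rcases hk with hk | hk
  · exact e ▸ sol_conj (sol_pot_conj h) (sol_main hd h k hk)
  · refine e ▸ sol_main hd h ![k 0, -k 1] ?_
    simpa [sub_eq_add_neg] using hk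

end

end Pool.Agent.P.MP_a11f68_mp.Q
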