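import Pool.Agent.P.MP_a11f68_mp.Q.Iface

/-! Elementary properties of the three theta functions. -/

namespace Pool.Agent.P.MP_a11f68_mp.Q

open Complex ComplexConjugate MeasureTheory UnitAddTorus Metric Filter Topology Set Laplacian
open scoped Real ENNReal

theorem th1_nat (z τ : ℂ) (d : ℕ) : jacobiTheta₂ (z + d) τ = jacobiTheta₂ z τ := by
  induction d with
  | zero => simp
  | succ d ih => rw [Nat.cast_succ, ← add_assoc, jacobiTheta₂_add_left, ih]

theorem th1_diff {τ : ℂ} (h : 0 < τ.im) : Differentiable ℂ (jacobiTheta₂ · τ) :=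
  fun z => differentiableAt_jacobiTheta₂_fst z h

theorem th1_two (d : ℕ) (y : ℂ) : s0 d (y + 2 * I) = cexp (2 * π * d - 2 * π * I * d * y) * s0 d y := by
  rw [s0, s0, show d * (y + 2 * I) = d * y + 2 * d * I by ring, jacobiTheta₂_add_left']
  congr 2
  linear_combination (-2 * π * d : ℂ) * I_mul_I

theorem th1_conj (d : ℕ) (x : ℂ) : s0 d (conj x) = conj (s0 d x) := by
  rw [s0, s0, jacobiTheta₂_conj]
  simp [map_ofNat]

theorem th1_zero (τ : ℂ) : jacobiTheta₂ (1 / 2 + τ / 2) τ = 0 := by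
  have h1 := jacobiTheta₂_add_left' (1 / 2 - τ / 2) τ
  have h2 := jacobiTheta₂_add_left (-(1 / 2 + τ / 2)) τ
  rw [jacobiTheta₂_neg_left, show -(1 / 2 + τ / 2) + 1 = 1 / 2 - τ / 2 by ring] at h2
  rw [show 1 / 2 - τ / 2 + τ = 1 / 2 + τ / 2 by ring, h2,
    show -π * I * (τ + 2 * (1 / 2 - τ / 2)) = -(π * I) by ring, exp_neg, exp_pi_mul_I] at h1
  linear_combination h1 / 2

theorem th1_norm (d : ℕ) (n : ℤ) : ‖jacobiTheta₂'_term n (1 / 2 + d * I / 2) (d * I)‖ =
    2 * π * |(n : ℝ)| * Real.exp (-(π * d * (n * (n + 1)))) := by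
  rw [jacobiTheta₂'_term, norm_mul, norm_jacobiTheta₂_term]
  congr 1
  · simp [Real.pi_pos.le]
  · congr 1
    simp
    ring

theorem th1_der {d : ℕ} (hd : 0 < d) : jacobiTheta₂' (1 / 2 + d * I / 2) (d * I) ≠ 0 := by
  intro h0
  have hd' : (1 : ℝ) ≤ d := by exact_mod_cast hd
  have hp := Real.pi_gt_three
  have h1 := (hasSum_jacobiTheta₂'_term (1 / 2 + d * I / 2) (τ := d * I)
    (by simpa using hd)).nat_add_neg_add_one
  have h2 := ((hasSum_geometric_of_lt_one (r := 1 / 5) (by norm_num) (by norm_num)).mul_left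
    (2 * π * (1 / 5)))
  have h3 := ((hasSum_nat_add_iff' 1).2 h1).norm_le_of_bounded h2 fun n => by
    refine (norm_add_le _ _).trans ?_
    rw [th1_norm, th1_norm]
    push_cast
    have n0 : (0 : ℝ) ≤ n := Nat.cast_nonneg n
    have e5 : Real.exp (-4) ≤ 1 / 5 := by
      rw [Real.exp_neg, one_div]
      exact inv_anti₀ (by norm_num) (by linarith [Real.add_one_le_exp 4])
    have e1 : Real.exp (-(π * d * ((n + 1) * (n + 1 + 1)))) ≤ Real.exp (-(6 * (n + 1))) := by
      refine Real.exp_le_exp.2 (neg_le_neg ?_)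
      have : 3 ≤ π * d := by nlinarith
      nlinarith [mul_le_mul_of_nonneg_right this (by positivity : 0 ≤ (n + 1 : ℝ) * (n + 1 + 1))]
    have e2 := Real.add_one_le_exp (2 * (n + 1 : ℝ))
    have e3 : Real.exp (2 * (n + 1 : ℝ)) * Real.exp (-(6 * (n + 1))) ≤ (1 / 5) ^ (n + 1) := by
      rw [← Real.exp_add, show 2 * (n + 1 : ℝ) + -(6 * (n + 1)) = (n + 1 : ℕ) * (-4) by
        push_cast; ring, Real.exp_nat_mul]
      exact pow_le_pow_left₀ (Real.exp_pos _).le e5 _
    rw [abs_neg, abs_of_nonneg (by positivity), abs_of_nonneg (by positivity),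
      show -((n : ℝ) + 1 + 1) * (-(n + 1 + 1) + 1) = (n + 1) * (n + 1 + 1) by ring]
    calc _ = 2 * π * ((2 * (n + 1) + 1) * Real.exp (-(π * d * ((n + 1) * (n + 1 + 1))))) := by ring
      _ ≤ 2 * π * (1 / 5) ^ (n + 1) := by
        gcongr
        exact (mul_le_mul e2 e1 (Real.exp_pos _).le (Real.exp_pos _).le).trans e3
      _ = _ := by ring
  have h4 := th1_norm d 0
  have h5 := th1_norm d (-1)
  simp only [Int.cast_zero, abs_zero, mul_zero, zero_mul, norm_eq_zero] at h4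
  rw [h0, Finset.sum_range_one, zero_sub, norm_neg, Nat.cast_zero, h4, zero_add, zero_add,
    h5] at h3
  norm_num at h3
  linarith

theorem p_TH1 : S_TH1 := by
  intro d hd
  have d0 : (d : ℂ) ≠ 0 := Nat.cast_ne_zero.2 hd.ne'
  have t1 : 0 < (d * I : ℂ).im := by simpa using hd
  have a0 : Differentiable ℂ (s0 d) :=
    (th1_diff (τ := 2 * d * I) (by simpa using hd)).comp (f := fun x : ℂ => d * x) (by fun_prop)
  have a1 (x : ℂ) : s0 d (x + 1) = s0 d x := by rw [s0, s0, mul_add, mul_one, th1_nat]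
  have a2 : jacobiTheta₂ (d * 0 / 2 + 1 / 2 + d * I / 2) (d * I) = 0 := by
    rw [mul_zero, zero_div, zero_add, th1_zero]
  refine ⟨a0, ?_, ?_, a1, fun x => ?_, fun x => ?_, fun x => ?_, th1_conj d, fun x => ?_, ?_,
    fun t => ?_, fun t => ?_, ?_⟩
  · exact Differentiable.mul (by fun_prop) (a0.comp (f := fun x => x + I) (by fun_prop))
  · exact Differentiable.mul (by fun_prop) ((th1_diff t1).comp
      (f := fun t : ℂ => d * t / 2 + 1 / 2 + d * I / 2) (by fun_prop))
  · rw [s1, s1, add_right_comm x, a1, ← exp_pi_mul_I, ← exp_nat_mul, ← mul_assoc, ← exp_add]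
    congr 2
    ring
  · rw [s1, ← mul_assoc, ← exp_add]
    simp
  · rw [s1, add_assoc x, ← two_mul, th1_two, ← mul_assoc, ← exp_add]
    congr 2
    linear_combination (π * d : ℂ) * I_mul_I
  · rw [s1, s1, map_mul, ← th1_conj, map_add, conj_I, ← exp_conj,
      show conj x + I = conj x + -I + 2 * I by ring, th1_two, ← mul_assoc, ← exp_add]
    congr 2
    simp only [map_add, map_neg, map_mul, map_div₀, conj_ofReal, conj_I, map_natCast, map_ofNat]
    linear_combination (2 * π * d : ℂ) * I_mul_I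
  · rw [AA, a2, mul_zero]
  · rw [AA, AA, show d * (t + 2 / d) / 2 + 1 / 2 + d * I / 2 = d * t / 2 + 1 / 2 + d * I / 2 + 1 by
      field_simp; ring, jacobiTheta₂_add_left, show -(π * d / 4) + π * I * d * (t + 2 / d) / 2 =
        -(π * d / 4) + π * I * d * t / 2 + π * I by field_simp; ring, exp_add, exp_pi_mul_I]
    ring
  · have h := jacobiTheta₂_add_left' (d * (t - 2 * I) / 2 + 1 / 2 + d * I / 2) (d * I)
    rw [show d * (t - 2 * I) / 2 + 1 / 2 + d * I / 2 + d * I = d * t / 2 + 1 / 2 + d * I / 2 by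
      ring] at h
    have e : cexp (-(π * d / 4) + π * I * d * (t - 2 * I) / 2) = cexp (π * I) *
        (cexp (π * d + π * I * d * t) * cexp (-(π * d / 4) + π * I * d * t / 2) *
        cexp (-π * I * (d * I + 2 * (d * (t - 2 * I) / 2 + 1 / 2 + d * I / 2)))) := by
      simp only [← exp_add]
      congr 1
      linear_combination (-π * d : ℂ) * I_mul_I
    rw [AA, AA, h, e, exp_pi_mul_I]
    ring
  · have h1 : HasDerivAt (fun t : ℂ => d * t / 2 + 1 / 2 + d * I / 2) (d / 2) 0 := by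
      simpa using ((((hasDerivAt_id (0 : ℂ)).const_mul (d : ℂ)).div_const 2).add_const
        (1 / 2)).add_const (d * I / 2)
    have h2 := (hasDerivAt_jacobiTheta₂_fst (d * 0 / 2 + 1 / 2 + d * I / 2) t1).comp 0 h1
    have h3 : DifferentiableAt ℂ (fun t : ℂ => I * cexp (-(π * d / 4) + π * I * d * t / 2)) 0 := by
      fun_prop
    have h4 : deriv (AA d) 0 = _ := (h3.hasDerivAt.mul h2).deriv
    rw [h4, Function.comp_apply, a2, mul_zero, zero_add, mul_zero (d : ℂ), zero_div, zero_add]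
    exact mul_ne_zero (mul_ne_zero I_ne_zero (exp_ne_zero _))
      (mul_ne_zero (th1_der hd) (div_ne_zero d0 two_ne_zero))

end Pool.Agent.P.MP_a11f68_mp.Q

namespace Pool.Agent.P.MP_a11f68_mp.Q

open Complex ComplexConjugate MeasureTheory UnitAddTorus Metric Filter Topology Set Laplacian
open scoped Real ENNReal

/-- The exponent of the terms of the two theta functions. -/
noncomputable def th2_F (d : ℕ) (n x : ℂ) : ℂ := -(π * d / 2) * n ^ 2 + π * I * d * n * x

/-- The terms of the odd theta function. -/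
noncomputable def th2_a (d : ℕ) (j : ℤ) (t : ℂ) : ℂ :=
  I * cexp (-(π * d / 4) * (2 * j + 1) ^ 2 + π * I * d * (2 * j + 1) * t / 2 + π * I * j)

lemma th2_cg {ι : Type} {f g : ι → ℂ} {s : ℂ} (h : HasSum f s) (e : ∀ i, g i = f i) :
    HasSum g s := (funext e : g = f) ▸ h

lemma th2_s0 {d : ℕ} (hd : 0 < d) (x : ℂ) :
    HasSum (fun n : ℤ => cexp (th2_F d (2 * n) x)) (s0 d x) := by
  have h := hasSum_jacobiTheta₂_term (d * x) (τ := 2 * d * I) (by simpa using hd)
  refine th2_cg h fun n => ?_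
  rw [jacobiTheta₂_term, th2_F]
  congr 1
  linear_combination (-2 * π * d * n ^ 2 : ℂ) * I_mul_I

lemma th2_s1 {d : ℕ} (hd : 0 < d) (x : ℂ) :
    HasSum (fun n : ℤ => cexp (th2_F d (2 * n + 1) x)) (s1 d x) := by
  have h := (th2_s0 hd (x + I)).mul_left (cexp (-(π * d / 2) + π * I * d * x))
  refine th2_cg h fun n => ?_
  rw [← Complex.exp_add, th2_F, th2_F]
  congr 1
  linear_combination (-2 * π * d * n : ℂ) * I_mul_I

lemma th2_AA {d : ℕ} (hd : 0 < d) (t : ℂ) : HasSum (fun j : ℤ => th2_a d j t) (AA d t) := by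
  have h := (hasSum_jacobiTheta₂_term (d * t / 2 + 1 / 2 + d * I / 2) (τ := d * I)
    (by simpa using hd)).mul_left (I * cexp (-(π * d / 4) + π * I * d * t / 2))
  refine th2_cg h fun n => ?_
  rw [jacobiTheta₂_term, th2_a, mul_assoc I, ← Complex.exp_add]
  congr 2
  linear_combination (-π * d * n - π * d * n ^ 2 : ℂ) * I_mul_I

lemma th2_mul {f g : ℤ → ℂ} {s t : ℂ} (hf : HasSum f s) (hg : HasSum g t) :
    HasSum (fun x : ℤ × ℤ => f x.1 * g x.2) (s * t) :=
  hf.mul hg (summable_mul_of_summable_norm hf.summable.norm hg.summable.norm)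

/-- Splitting of the pairs of integers by the parity of the sum. -/
def th2_m : (ℤ × ℤ) ⊕ (ℤ × ℤ) → ℤ × ℤ :=
  Sum.elim (fun p => (p.1 + p.2, p.1 - p.2 - 1)) fun p => (p.1 + p.2, p.1 - p.2)

lemma th2_bij : Function.Bijective th2_m := by
  constructor
  · rintro (⟨n, m⟩ | ⟨n, m⟩) (⟨n', m'⟩ | ⟨n', m'⟩) h <;>
      simp only [th2_m, Sum.elim_inl, Sum.elim_inr, Prod.mk.injEq, Sum.inl.injEq, Sum.inr.injEq,
        reduceCtorEq] at h ⊢ <;> omega
  · rintro ⟨j, l⟩
    by_cases h : (j + l) % 2 = 0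
    · refine ⟨.inr ((j + l) / 2, (j - l) / 2), ?_⟩
      simp only [th2_m, Sum.elim_inr, Prod.mk.injEq]
      omega
    · refine ⟨.inl ((j + l + 1) / 2, (j - l - 1) / 2), ?_⟩
      simp only [th2_m, Sum.elim_inl, Prod.mk.injEq]
      omega

lemma th2_odd (d : ℕ) (n m : ℤ) (x y : ℂ) :
    th2_a d (n + m) (x + y) * th2_a d (n - m - 1) (x - y) =
      cexp (th2_F d (2 * n) x) * cexp (th2_F d (2 * m + 1) y) := by
  have h1 : cexp (th2_F d (2 * n) x + th2_F d (2 * m + 1) y + (n - 1 : ℤ) * (2 * π * I) + π * I) =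
      -cexp (th2_F d (2 * n) x + th2_F d (2 * m + 1) y) := by
    rw [Complex.exp_add_pi_mul_I, Complex.exp_add _ (_ * _), exp_int_mul_two_pi_mul_I, mul_one]
  rw [th2_a, th2_a, mul_mul_mul_comm, I_mul_I, ← Complex.exp_add, ← Complex.exp_add, neg_one_mul,
    neg_eq_iff_eq_neg, ← h1]
  congr 1
  simp only [th2_F]
  push_cast
  ring

lemma th2_even (d : ℕ) (n m : ℤ) (x y : ℂ) :
    th2_a d (n + m) (x + y) * th2_a d (n - m) (x - y) =
      -(cexp (th2_F d (2 * n + 1) x) * cexp (th2_F d (2 * m) y)) := by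
  have h1 : cexp (th2_F d (2 * n + 1) x + th2_F d (2 * m) y + n * (2 * π * I)) =
      cexp (th2_F d (2 * n + 1) x + th2_F d (2 * m) y) := by
    rw [Complex.exp_add _ (_ * _), exp_int_mul_two_pi_mul_I, mul_one]
  rw [th2_a, th2_a, mul_mul_mul_comm, I_mul_I, ← Complex.exp_add, ← Complex.exp_add, neg_one_mul,
    neg_inj, ← h1]
  congr 1
  simp only [th2_F]
  push_cast
  ring

theorem p_TH2 : S_TH2 := by
  intro d hd x y
  have h1 := th2_mul (th2_AA hd (x + y)) (th2_AA hd (x - y))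
  have h2 := th2_mul (th2_s0 hd x) (th2_s1 hd y)
  have h3 := (th2_mul (th2_s1 hd x) (th2_s0 hd y)).neg
  rw [sub_eq_add_neg]
  refine HasSum.unique (HasSum.sum ?_ ?_) ((Equiv.ofBijective _ th2_bij).hasSum_iff.2 h1)
  · exact th2_cg h2 fun p => th2_odd d p.1 p.2 x y
  · exact th2_cg h3 fun p => th2_even d p.1 p.2 x y

end Pool.Agent.P.MP_a11f68_mp.Q

/-! Geometry of the branch. -/

namespace Pool.Agent.P.MP_a11f68_mp.Q

open Complex ComplexConjugate MeasureTheory UnitAddTorus Metric Filter Topology Set Laplacian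
open scoped Real ENNReal

theorem aset_I {d : ℕ} {f g A : ℂ → ℂ} (h : Th d f g A) (w z : ℂ) :
    GG d A (w + I, z - I) = -GG d A (w, z) := by
  have e : -2 * I * (w + I) / d = -2 * I * w / d + 2 / d := by
    linear_combination (-2 / d : ℂ) * I_mul_I
  have h1 : ∀ t, deriv A (t + 2 / d) = -deriv A t := fun t => by
    rw [← deriv_comp_add_const, funext h.A_re, deriv.fun_neg]
  simp only [GG, e, h.A_re, h1]
  ring

theorem aset_d {d : ℕ} {f g A : ℂ → ℂ} (hd : 0 < d) (h : Th d f g A) (w z : ℂ) :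
    GG d A (w + d, z + d) =
      -cexp (π * d + π * I * d * (-2 * I * w / d)) * GG d A (w, z) := by
  have hd' : (d : ℂ) ≠ 0 := Nat.cast_ne_zero.2 hd.ne'
  have e : -2 * I * (w + d) / d = -2 * I * w / d - 2 * I := by
    field_simp
    ring
  have h1 : ∀ t, deriv A (t - 2 * I) =
      -cexp (π * d + π * I * d * t) * (π * I * d * A t + deriv A t) := fun t => by
    rw [← deriv_comp_sub_const, funext h.A_im]
    have h2 : HasDerivAt (fun t : ℂ => (π * d + π * I * d * t : ℂ)) (π * I * d) t := by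
      simpa using ((hasDerivAt_id t).const_mul (π * I * d : ℂ)).const_add (π * d : ℂ)
    rw [(h2.cexp.fun_neg.fun_mul (h.dA t).hasDerivAt).deriv]
    ring
  simp only [GG, e, h.A_im, h1]
  ring

theorem aset_shift {P : ℂ → ℂ → Prop} {a b : ℂ} (h : ∀ w z, P (w + a) (z + b) ↔ P w z) (k : ℤ) :
    ∀ w z, P (w + k * a) (z + k * b) ↔ P w z := by
  induction k using Int.induction_on with
  | zero => simp
  | succ k ih =>
    intro w z
    rw [← ih w z, ← h (w + (k : ℤ) * a) (z + (k : ℤ) * b)]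
    push_cast
    simp only [add_mul, one_mul, add_assoc]
  | pred k ih =>
    intro w z
    rw [← ih w z, ← h (w + _) (z + _)]
    push_cast
    simp only [sub_mul, one_mul, add_assoc, sub_add_cancel]

theorem aset_mem {d : ℕ} {f g A : ℂ → ℂ} (hd : 0 < d) (h : Th d f g A) (q : ℂ × ℂ) :
    q ∈ Aset d A ↔ ∃ j ∈ Finset.range d, GG d A (q.1 + j, q.2 + j) = 0 := by
  refine ⟨fun ⟨n, hn⟩ => ?_, fun ⟨j, _, hj⟩ => ⟨![j, 0], by simpa [gi] using hj⟩⟩
  have hd' : (0 : ℤ) < d := by exact_mod_cast hd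
  obtain ⟨j, hj⟩ := Int.eq_ofNat_of_zero_le (Int.emod_nonneg (n 0) hd'.ne')
  have h1 : (j : ℤ) < d := hj ▸ Int.emod_lt_of_pos _ hd'
  have h2 : (n 0 : ℂ) = j + (n 0 / d : ℤ) * d := by
    have := Int.emod_add_ediv_mul (n 0) d
    rw [hj] at this
    exact_mod_cast this.symm
  refine ⟨j, Finset.mem_range.2 (by exact_mod_cast h1), ?_⟩
  rw [← aset_shift (P := fun w z => GG d A (w, z) = 0) (a := d) (b := d)
      (fun w z => by simp [aset_d hd h]) (n 0 / d),
    ← aset_shift (P := fun w z => GG d A (w, z) = 0) (a := I) (b := -I)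
      (fun w z => by simp [← sub_eq_add_neg, aset_I h]) (n 1), ← hn]
  congr 2
  · rw [gi, h2]
    ring
  · simp only [gi, map_add, map_mul, map_intCast, conj_I]
    rw [h2]
    ring

theorem aset_an {d : ℕ} {A : ℂ → ℂ} (h : Differentiable ℂ A) (q : ℂ × ℂ) :
    AnalyticAt ℂ (GG d A) q := by
  have h0 : AnalyticAt ℂ (fun q : ℂ × ℂ => -2 * I * q.1 / d) q :=
    (analyticAt_const.mul analyticAt_fst).mul analyticAt_const
  have h1 : AnalyticAt ℂ (fun q : ℂ × ℂ => A (-2 * I * q.1 / d)) q :=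
    (h.analyticAt _).fun_comp h0
  have h2 : AnalyticAt ℂ (fun q : ℂ × ℂ => deriv A (-2 * I * q.1 / d)) q :=
    (h.analyticAt _).deriv.fun_comp h0
  exact ((analyticAt_const.mul (analyticAt_snd.add analyticAt_fst)).mul h1).sub
    (analyticAt_const.mul h2)

theorem aset_ne {F : ℂ → ℂ} (h : Differentiable ℂ F) (h0 : ∃ x, F x ≠ 0) :
    ∀ᶠ w in 𝓝[≠] (0 : ℂ), F w ≠ 0 := by
  refine (h.analyticAt 0).eventually_eq_zero_or_eventually_ne_zero.resolve_left fun h1 => ?_
  obtain ⟨x, hx⟩ := h0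
  exact hx (AnalyticOnNhd.eqOn_zero_of_preconnected_of_eventuallyEq_zero
    (fun y _ => h.analyticAt y) isPreconnected_univ (mem_univ 0) h1 (mem_univ x))

theorem aset_fin {d : ℕ} {f g A : ℂ → ℂ} (hd : 0 < d) (h : Th d f g A) :
    ∃ w, {z | (w, z) ∈ Aset d A}.Finite := by
  have hd' : (d : ℂ) ≠ 0 := Nat.cast_ne_zero.2 hd.ne'
  obtain ⟨t, ht⟩ : ∃ t, A t ≠ 0 := by
    by_contra h1
    push Not at h1
    exact h.A_der (by rw [funext h1]; simp)
  have h1 : ∀ j ∈ Finset.range d, ∀ᶠ w in 𝓝[≠] (0 : ℂ), A (-2 * I * (w + (j : ℕ)) / d) ≠ 0 := by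
    intro j _
    refine aset_ne (h.dA.comp (by fun_prop)) ⟨I * d * t / 2 - j, ?_⟩
    have e : -2 * I * (I * d * t / 2 - j + j) / d = t := by
      rw [div_eq_iff hd']
      linear_combination (-d * t : ℂ) * I_mul_I
    rwa [e]
  obtain ⟨w, hw⟩ := ((eventually_all_finset _).2 h1).exists
  refine ⟨w, ((Finset.range d).finite_toSet.image fun j : ℕ =>
    2 * deriv A (-2 * I * (w + j) / d) / (π * I * A (-2 * I * (w + j) / d)) - (w + j) - j).subset
      fun z hz => ?_⟩
  obtain ⟨j, hj, hz⟩ := (aset_mem hd h _).1 hz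
  refine ⟨j, hj, ?_⟩
  have h2 : (π * I * A (-2 * I * (w + j) / d) : ℂ) ≠ 0 :=
    mul_ne_zero (mul_ne_zero (ofReal_ne_zero.2 Real.pi_ne_zero) I_ne_zero) (hw j hj)
  simp only [GG] at hz ⊢
  rw [sub_sub, sub_eq_iff_eq_add, div_eq_iff h2]
  linear_combination -hz

theorem aset_cov {d : ℕ} {f g A : ℂ → ℂ} (hd : 0 < d) (h : Th d f g A) (ε : ℝ) (hε : 0 < ε) :
    ∃ R : ℝ, ∀ z, R < ‖z‖ → ∃ w, ‖w‖ < ε ∧ GG d A (w, z) = 0 ∧ ‖w * z - d / π‖ < ε := by
  have hd' : (d : ℂ) ≠ 0 := Nat.cast_ne_zero.2 hd.ne'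
  have hp : (π : ℂ) ≠ 0 := ofReal_ne_zero.2 Real.pi_ne_zero
  let N : ℂ → ℂ := fun w => π * I * A (-2 * I * w / d)
  let D : ℂ → ℂ := fun w => 2 * deriv A (-2 * I * w / d) - w * N w
  have h0 : AnalyticAt ℂ (fun w : ℂ => -2 * I * w / d) 0 := by fun_prop
  have hN : AnalyticAt ℂ N 0 := analyticAt_const.mul ((h.dA.analyticAt _).fun_comp h0)
  have hD : AnalyticAt ℂ D 0 :=
    (analyticAt_const.mul ((h.dA.analyticAt _).deriv.fun_comp h0)).sub (analyticAt_id.mul hN)
  have N0 : N 0 = 0 := by simp [N, h.A_zero]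
  have D0 : D 0 = 2 * deriv A 0 := by simp [D]
  have D1 : D 0 ≠ 0 := D0 ▸ mul_ne_zero two_ne_zero h.A_der
  have hN' : HasDerivAt N (π * I * (deriv A 0 * (-2 * I / d))) 0 := by
    have h1 : HasDerivAt (fun w : ℂ => -2 * I * w / d) (-2 * I / d) 0 := by
      simpa using ((hasDerivAt_id (0 : ℂ)).const_mul (-2 * I : ℂ)).div_const (d : ℂ)
    have h2 : HasDerivAt A (deriv A 0) (-2 * I * 0 / d) := by
      simpa using (h.dA 0).hasDerivAt
    exact (h2.comp 0 h1).const_mul _
  have hz : HasDerivAt (fun w => N w / D w) (π / d) 0 := by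
    refine (hN'.fun_div hD.differentiableAt.hasDerivAt D1).congr_deriv ?_
    have := h.A_der
    rw [N0, D0]
    field_simp
    linear_combination (-4 * π * deriv A 0 ^ 2 : ℂ) * I_mul_I
  have hs := (hN.fun_div hD D1).hasStrictDerivAt
  rw [hz.deriv] at hs
  have hm := hs.map_nhds_eq (div_ne_zero hp hd')
  have h1 := (hasDerivAt_iff_tendsto_slope_zero.1 hz).inv₀ (div_ne_zero hp hd')
  simp only [N0, zero_div, zero_add, sub_zero, smul_eq_mul, inv_div] at hm h1
  have h2 := eventually_nhdsWithin_iff.1 (Metric.tendsto_nhds.1 h1 ε hε)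
  have h3 : ∀ᶠ w in 𝓝 (0 : ℂ), D w ≠ 0 := hD.continuousAt.eventually_ne D1
  have h4 : ∀ᶠ w in 𝓝 (0 : ℂ), ‖w‖ < ε := by
    filter_upwards [ball_mem_nhds (0 : ℂ) hε] with w hw using by simpa using hw
  have h5 := image_mem_map (m := fun w => N w / D w) (h2.and (h3.and h4))
  rw [hm] at h5
  obtain ⟨δ, hδ, h6⟩ := Metric.mem_nhds_iff.1 h5
  refine ⟨δ⁻¹, fun z hz => ?_⟩
  have hz0 : 0 < ‖z‖ := (inv_pos.2 hδ).trans hz
  have hz1 : z ≠ 0 := norm_pos_iff.1 hz0
  obtain ⟨w, ⟨w1, w2, w3⟩, hw⟩ := @h6 z⁻¹ (by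
    rw [mem_ball_zero_iff, norm_inv]
    exact inv_lt_of_inv_lt₀ hδ hz)
  have hw0 : w ≠ 0 := by
    rintro rfl
    simp [N0, eq_comm] at hw
    exact hz1 hw
  refine ⟨w, w3, ?_, ?_⟩
  · have h7 : N w * z = D w := by
      have : N w / D w = z⁻¹ := hw
      field_simp at this
      linear_combination this
    simp only [GG]
    simp only [N, D] at h7
    linear_combination h7
  · have h7 := w1 hw0
    have h8 : N w / D w = z⁻¹ := hw
    rwa [h8, mul_inv, inv_inv, inv_inv, dist_eq_norm] at h7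

theorem p_ASET : S_ASET := by
  intro d f g A hd h
  refine ⟨fun p => ⟨univ, isOpen_univ, mem_univ _, 1,
    fun _ q => ∏ j ∈ Finset.range d, GG d A (q.1 + j, q.2 + j), fun _ q _ => ?_, fun q _ => ?_⟩,
    aset_fin hd h, aset_cov hd h⟩
  · exact Finset.analyticAt_fun_prod _ fun j _ => (aset_an h.dA _).fun_comp
      ((analyticAt_fst.add analyticAt_const).prod (analyticAt_snd.add analyticAt_const))
  · rw [aset_mem hd h, forall_const, Finset.prod_eq_zero_iff]

end Pool.Agent.P.MP_a11f68_mp.Q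

/-! The free operator at energy zero. -/

namespace Pool.Agent.P.MP_a11f68_mp.Q

open Complex ComplexConjugate MeasureTheory UnitAddTorus Metric Filter Topology Set Laplacian
open scoped Real ENNReal

theorem zero_coeff (n m : Fin 2 → ℤ) :
    mFourierCoeff (mFourier n : UnitAddTorus (Fin 2) → ℂ) m = if m = n then 1 else 0 := by
  rw [← mFourierCoeff_toLp, ← mFourierBasis_repr, HilbertBasis.repr_apply_apply, coe_mFourierBasis]
  exact orthonormal_iff_ite.1 orthonormal_mFourier m n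

theorem zero_ae (hL : S_LIFT) (v : UnitAddTorus (Fin 2) → ℂ) (hv : MemLp v 2 volume)
    (h : ∀ n, mFourierCoeff v n = 0) : v =ᵐ[volume] 0 := by
  rw [hL.2.2.2.2.2.2.2] at hv ⊢
  have a := hv.coeFn_toLp
  have : mFourierBasis.repr (hv.toLp v) = 0 := by
    ext n
    rw [mFourierBasis_repr, lp.coeFn_zero, Pi.zero_apply, ← h n]
    exact integral_congr_ae (a.mono fun x hx => congrArg (mFourier (-n) x • ·) hx)
  rw [LinearIsometryEquiv.map_eq_zero_iff] at this
  rw [this] at a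
  exact a.symm.trans (Lp.coeFn_zero _ _ _)

theorem zero_mem (hL : S_LIFT) (k : Fin 2 → ℂ) :
    k ∈ weakFermi (fun _ => 0) 0 ↔ ∃ n : Fin 2 → ℤ, ∑ i, (k i + n i) ^ 2 = 0 := by
  have z : ∀ (v : UnitAddTorus (Fin 2) → ℂ) n, mFourierCoeff (fun x => 0 * v x) n = 0 :=
    fun v n => by simp [mFourierCoeff]
  constructor
  · rintro ⟨v, h1, h2, h3⟩
    by_contra c
    push Not at c
    refine h2 (zero_ae hL v h1 fun n => ?_)
    have := h3 n
    rw [z, add_zero, sub_zero] at this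
    exact (mul_eq_zero.1 this).resolve_left (mul_ne_zero (by simp [Real.pi_ne_zero]) (c n))
  · rintro ⟨n, hn⟩
    have c := (mFourier n : C(UnitAddTorus (Fin 2), ℂ)).continuous
    refine ⟨mFourier n, c.memLp_of_hasCompactSupport (HasCompactSupport.of_compactSpace _),
      fun h => ?_, fun m => ?_⟩
    · have := zero_coeff n n
      rw [(c.ae_eq_iff_eq volume continuous_zero).1 h] at this
      simp [mFourierCoeff] at this
    · rw [z, zero_coeff]
      split_ifs with e
      · simp [e, hn]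
      · simp

theorem zero_far {n m : Fin 2 → ℤ} (h : ‖gi n - gi m‖ < 1) : gi n = gi m := by
  have a := (abs_re_le_norm _).trans_lt h
  have b := (abs_im_le_norm _).trans_lt h
  simp only [gi, sub_re, add_re, intCast_re, mul_re, I_re, mul_zero, intCast_im, I_im, mul_one,
    sub_self, add_zero, sub_im, add_im, mul_im, zero_add] at a b
  have a' : n 0 - m 0 = 0 := Int.abs_lt_one_iff.1 (by exact_mod_cast a)
  have b' : n 1 - m 1 = 0 := Int.abs_lt_one_iff.1 (by exact_mod_cast b)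
  rw [gi, gi, sub_eq_zero.1 a', sub_eq_zero.1 b']

theorem zero_closed : IsClosed (range gi) :=
  Metric.isClosed_of_pairwise_le_dist one_pos (by
    rintro _ ⟨n, rfl⟩ _ ⟨m, rfl⟩ h
    rw [dist_eq_norm]
    exact not_lt.1 fun c => h (zero_far c))

theorem zero_an (c : ℂ) : IsAnalyticSubset {k | k 0 + k 1 * c ∈ range gi} := by
  intro p
  have cont : Continuous fun k : Fin 2 → ℂ => k 0 + k 1 * c := by fun_prop
  by_cases h : p 0 + p 1 * c ∈ range gi
  · obtain ⟨n, hn⟩ := h
    refine ⟨{k | ‖k 0 + k 1 * c - gi n‖ < 1}, isOpen_lt (by fun_prop) continuous_const,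
      by simp [hn], 1, fun _ k => k 0 + k 1 * c - gi n, fun _ k _ => ?_, fun k hk => ?_⟩
    · have a := fun i : Fin 2 =>
        (ContinuousLinearMap.proj (R := ℂ) (φ := fun _ : Fin 2 => ℂ) i).analyticAt k
      exact ((a 0).add ((a 1).mul analyticAt_const)).sub analyticAt_const
    constructor
    · rintro ⟨m, hm⟩ _
      rw [mem_ofPred_eq, ← hm] at hk
      simp only
      rw [← hm, zero_far hk, sub_self]
    · exact fun h => ⟨n, (sub_eq_zero.1 (h 0)).symm⟩
  · exact ⟨_, zero_closed.isOpen_compl.preimage cont, h, 1, fun _ _ => 1,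
      fun _ _ _ => analyticAt_const, fun k hk => ⟨fun a => absurd a hk, fun a => by simpa using a 0⟩⟩

theorem p_ZERO (hL : S_LIFT) : S_ZERO := by
  intro h
  have key : ∀ k : Fin 2 → ℂ, k ∈ weakFermi (fun _ => 0) 0 ↔
      k 0 + k 1 * I ∈ range gi ∨ k 0 + k 1 * (-I) ∈ range gi := fun k => by
    have e : ∀ n : Fin 2 → ℤ, ∑ i, (k i + n i) ^ 2 =
        (k 0 + k 1 * I + gi n) * (k 0 + k 1 * (-I) + gi ![n 0, -n 1]) := fun n => by
      simp only [Fin.sum_univ_two, gi, Matrix.cons_val_zero, Matrix.cons_val_one]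
      push_cast
      linear_combination (k 1 + n 1) ^ 2 * I_mul_I
    rw [zero_mem hL]
    simp only [e, mul_eq_zero]
    constructor
    · rintro ⟨n, a | a⟩
      · exact Or.inl ⟨-n, by simp only [gi, Pi.neg_apply] at a ⊢; push_cast; linear_combination -a⟩
      · exact Or.inr ⟨![-n 0, n 1], by
          simp only [gi, Matrix.cons_val_zero, Matrix.cons_val_one] at a ⊢
          push_cast at a ⊢; linear_combination -a⟩
    · rintro (⟨n, a⟩ | ⟨n, a⟩)
      · exact ⟨-n, Or.inl (by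
          simp only [gi, Pi.neg_apply] at a ⊢; push_cast; linear_combination -a)⟩
      · exact ⟨![-n 0, n 1], Or.inr (by
          simp only [gi, Matrix.cons_val_zero, Matrix.cons_val_one] at a ⊢
          push_cast; linear_combination -a)⟩
  have z : (0 : ℂ) ∈ range gi := ⟨0, by simp [gi]⟩
  have hf : (1 / 2 : ℂ) ∉ range gi := by
    rintro ⟨n, hn⟩
    have := congrArg re hn
    simp only [gi, add_re, intCast_re, mul_re, I_re, mul_zero, intCast_im, I_im, mul_one, sub_self,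
      add_zero] at this
    norm_num at this
    have : 2 * n 0 = 1 := by exact_mod_cast (by rw [this]; norm_num : (2 : ℝ) * n 0 = 1)
    omega
  refine h ⟨_, _, zero_an I, zero_an (-I), ?_, ?_,
    ⟨fun k hk => (key k).2 (Or.inl hk), fun c => hf ?_⟩,
    ⟨fun k hk => (key k).2 (Or.inr hk), fun c => hf ?_⟩, Set.ext fun k => (key k).symm⟩
  · rintro k ⟨m, hm⟩ n
    exact ⟨m + n, by simp only [gi, Pi.add_apply] at hm ⊢; push_cast; linear_combination hm⟩
  · rintro k ⟨m, hm⟩ n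
    exact ⟨m + ![n 0, -n 1], by
      simp only [gi, Pi.add_apply, Matrix.cons_val_zero, Matrix.cons_val_one] at hm ⊢
      push_cast; linear_combination hm⟩
  · have := c ((key ![1 / 4, -I / 4]).2 (Or.inr (by
      convert z; simp; linear_combination (1 / 4) * I_mul_I)))
    rw [mem_ofPred_eq] at this
    convert this using 1; simp; linear_combination (1 / 4) * I_mul_I
  · have := c ((key ![1 / 4, I / 4]).2 (Or.inl (by
      convert z; simp; linear_combination (1 / 4) * I_mul_I)))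
    rw [mem_ofPred_eq] at this
    convert this using 1; simp; linear_combination (1 / 4) * I_mul_I

end Pool.Agent.P.MP_a11f68_mp.Q
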