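import Pool.Agent.P.MP_a11f68_mp.Q.Fibres
import Pool.Agent.P.MP_a11f68_mp.Q.Oper
import Pool.Agent.P.MP_a11f68_mp.Q.Bridge
import Pool.Agent.P.MP_a11f68_mp.Q.Thetas
import Pool.Agent.P.MP_a11f68_mp.Q.Solutions
import Pool.Agent.P.MP_a11f68_mp.Q.Ends

namespace Pool.Agent.P.MP_a11f68_mp.Q

open Complex MeasureTheory Set
open scoped Real ENNReal

theorem exceptional_set (μ : ℂ) : List.TFAE
    [∃ V : UnitAddTorus (Fin 2) → ℂ, MemLp V ∞ volume ∧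
        ¬ IrreducibleModPeriodicity (weakFermi V ((∫ x, V x) + μ)),
      ∃ V : EuclideanSpace ℝ (Fin 2) → ℂ, ContDiff ℝ 2 V ∧
        (∀ (n : Fin 2 → ℤ) (x : EuclideanSpace ℝ (Fin 2)), V (x + latticePoint n) = V x) ∧
        ¬ IrreducibleModPeriodicity (fermiVariety V (average V + μ)),
      ∃ V : EuclideanSpace ℝ (Fin 2) → ℝ, AnalyticOnNhd ℝ V Set.univ ∧
        (∀ (n : Fin 2 → ℤ) (x : EuclideanSpace ℝ (Fin 2)), V (x + latticePoint n) = V x) ∧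
        ¬ IrreducibleModPeriodicity
          (fermiVariety (fun x => (V x : ℂ)) (average (fun x => (V x : ℂ)) + μ)),
      ∃ d : ℕ, μ = 4 * π * d] := by
  have hF := p_FIB (p_LOC p_ARG p_PAR) p_HANK
  have hD := p_DICH hF p_PERF
  have hM := p_MAIN hF p_PERF p_LEG p_PSI
  have hI := p_IBP p_LIFT
  have b1 := p_BR1 p_LIFT hI
  have b2 := p_BR2 p_LIFT hI (p_WIE p_LIFT hI) (p_REG p_LIFT)
  have b3 := p_BR3 p_LIFT
  tfae_have 1 → 4 := fun ⟨_, hV, h⟩ => necessity (p_OP p_LIFT) p_SCHUR p_EST hD hM hV h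
  tfae_have 4 → 3 := by
    rintro ⟨d, rfl⟩
    exact sufficiency (p_OP p_LIFT) p_SCHUR p_EST hD hM p_SOL p_ASET p_LIFT b1 b2 b3 p_TH1 p_TH2
      (p_ZERO p_LIFT) d
  tfae_have 3 → 2 := fun ⟨V, h1, h2, h3⟩ =>
    ⟨fun x => (V x : ℂ), ofRealCLM.contDiff.comp h1.contDiff, fun n x => congrArg _ (h2 n x), h3⟩
  tfae_have 2 → 1 := fun ⟨W, h1, h2, h3⟩ => by
    obtain ⟨V, hV, -, ha, hb⟩ := bridge p_LIFT b1 b2 b3 h1 h2
    exact ⟨V, memLp_top hV, by rwa [← hb, ← ha]⟩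
  tfae_finish

end Pool.Agent.P.MP_a11f68_mp.Q
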