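import Pool.Agent.P.MP_a11f68_mp.Q.Defs
import Pool.Agent.P.MP_a11f68_mp.Wirt

/-!
Interface of the project FQ: definitions and the statements of the blocks.
Coordinates: `q = (w, z)` with `w = k 0 + k 1 * I`, `z = k 0 - k 1 * I`.
-/

namespace Pool.Agent.P.MP_a11f68_mp.Q

open Complex ComplexConjugate MeasureTheory UnitAddTorus Metric Filter Topology Set Laplacian
open scoped Real ENNReal

noncomputable section

/-- The Gaussian integer attached to `n`. -/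
def gi (n : Fin 2 → ℤ) : ℂ := n 0 + n 1 * I

/-- Analytic subsets of `ℂ × ℂ`. -/
def An (A : Set (ℂ × ℂ)) : Prop :=
  ∀ p : ℂ × ℂ, ∃ U : Set (ℂ × ℂ), IsOpen U ∧ p ∈ U ∧
    ∃ (m : ℕ) (f : Fin m → ℂ × ℂ → ℂ), (∀ j, AnalyticOnNhd ℂ (f j) U) ∧
      ∀ q ∈ U, q ∈ A ↔ ∀ j, f j q = 0

/-- Sets that are locally the zero set of one analytic function. -/
def Hyp (F : Set (ℂ × ℂ)) : Prop :=
  ∀ p : ℂ × ℂ, ∃ U : Set (ℂ × ℂ), IsOpen U ∧ p ∈ U ∧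
    ∃ f : ℂ × ℂ → ℂ, AnalyticOnNhd ℂ f U ∧ ∀ q ∈ U, q ∈ F ↔ f q = 0

/-- Lattice invariance in the coordinates `(w, z)`. -/
def Inv (A : Set (ℂ × ℂ)) : Prop :=
  ∀ q ∈ A, ∀ n : Fin 2 → ℤ, (q.1 + gi n, q.2 + conj (gi n)) ∈ A

/-- The part of the fibre of `F \ B` over `s` that lies in `O`. -/
def fib (F B : Set (ℂ × ℂ)) (O : Set ℂ) (s : ℂ) : Set ℂ :=
  {t | t ∈ O ∧ (s, t) ∈ F ∧ (s, t) ∉ B}

/-- The plane with a closed square of half side `1/4` removed around each Gaussian integer. -/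
def Perf : Set ℂ :=
  {w | ∃ j : ℤ, ((j : ℝ) + 1 / 4 < w.re ∧ w.re < j + 3 / 4) ∨
    ((j : ℝ) + 1 / 4 < w.im ∧ w.im < j + 3 / 4)}

/-- The outside of the square of half side `N`. -/
def Far (N : ℕ) : Set ℂ := {w | (N : ℝ) < |w.re| ∨ (N : ℝ) < |w.im|}

/-- The end of `F` on which the first coordinate is large and the second small. -/
structure End (F : Set (ℂ × ℂ)) (c : ℂ) (N : ℕ) (C : ℝ) : Prop where
  uniq : ∀ s ∈ Perf ∩ Far N, ∀ t t' : ℂ, ‖t‖ < 1 / 2 → ‖t'‖ < 1 / 2 → (s, t) ∈ F → (s, t') ∈ F →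
    t = t'
  small : ∀ s ∈ Perf ∩ Far N, ∀ t : ℂ, ‖t‖ < 1 / 2 → (s, t) ∈ F → ‖t‖ ≤ 1 / 4
  asym : ∀ s ∈ Perf ∩ Far N, ∀ t : ℂ, ‖t‖ < 1 / 2 → (s, t) ∈ F → ‖s * t - c‖ ≤ C / ‖s‖

/-- The points of the end. -/
def endSet (F : Set (ℂ × ℂ)) (N : ℕ) : Set (ℂ × ℂ) :=
  {q | q ∈ F ∧ q.1 ∈ Perf ∩ Far N ∧ ‖q.2‖ < 1 / 2}

/-- All that the geometric part uses about a Fermi curve. -/
structure Data (F : Set (ℂ × ℂ)) (c : ℂ) (N : ℕ) (C : ℝ) : Prop where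
  hyp : Hyp F
  inv : Inv F
  gap : ∀ w ∈ Perf, ∀ z ∈ Perf, (N : ℝ) ≤ ‖w - conj z‖ → (w, z) ∉ F
  e1 : End F c N C
  e2 : End (Prod.swap ⁻¹' F) c N C

/-- The Hankel matrix of the weighted power sums, shifted by `k`. -/
def hank (r k : ℕ) (Z : Finset ℂ) (W : ℂ → ℂ) : Matrix (Fin r) (Fin r) ℂ :=
  Matrix.of fun a b => ∑ t ∈ Z, W t * t ^ ((a : ℕ) + b + k)

/-- The sequence space. -/
abbrev H2 : Type := lp (fun _ : Fin 2 → ℤ => ℂ) 2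

/-- The free symbol. -/
def Dn (n : Fin 2 → ℤ) (q : ℂ × ℂ) : ℂ := (q.1 + gi n) * (q.2 + conj (gi n))

/-- The Fermi set of the operator `diag (Dn n q) + T`. -/
def opF (T : H2 →L[ℂ] H2) : Set (ℂ × ℂ) :=
  {q | ∃ v : H2, v ≠ 0 ∧ ∀ n, Dn n q * v n + T v n = 0}

/-- The basis vector at the origin. -/
def e0 : H2 := lp.single 2 0 1

/-- The projection of the plane onto the torus. -/
def pr (ζ : ℂ) : UnitAddTorus (Fin 2) := ![(ζ.re : UnitAddCircle), (ζ.im : UnitAddCircle)]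

/-- The Bloch factor `exp (2 π i k·x)`. -/
def bl (k : Fin 2 → ℂ) (ζ : ℂ) : ℂ := cexp (2 * π * I * (k 0 * ζ.re + k 1 * ζ.im))

/-- Quasi-periodicity with quasimomentum `k`. -/
def QP (k : Fin 2 → ℂ) (u : ℂ → ℂ) : Prop :=
  (∀ ζ, u (ζ + 1) = cexp (2 * π * I * k 0) * u ζ) ∧ ∀ ζ, u (ζ + I) = cexp (2 * π * I * k 1) * u ζ

/-- Classical Bloch solutions, in the complex coordinate of the plane. -/
def Sol (Vc : ℂ → ℂ) (lam : ℂ) (k : Fin 2 → ℂ) : Prop :=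
  ∃ u : ℂ → ℂ, ContDiff ℝ 2 u ∧ u ≠ 0 ∧ (∀ ζ, Δ u ζ = (Vc ζ - lam) * u ζ) ∧ QP k u

/-- The even theta function. -/
def s0 (d : ℕ) (x : ℂ) : ℂ := jacobiTheta₂ (d * x) (2 * d * I)

/-- The odd-index theta function. -/
def s1 (d : ℕ) (x : ℂ) : ℂ := cexp (-(π * d / 2) + π * I * d * x) * s0 d (x + I)

/-- The odd theta function of the addition formula. -/
def AA (d : ℕ) (t : ℂ) : ℂ :=
  I * cexp (-(π * d / 4) + π * I * d * t / 2) * jacobiTheta₂ (d * t / 2 + 1 / 2 + d * I / 2) (d * I)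

/-- The properties of the three theta functions that are used. -/
structure Th (d : ℕ) (f g A : ℂ → ℂ) : Prop where
  df : Differentiable ℂ f
  dg : Differentiable ℂ g
  dA : Differentiable ℂ A
  f_one : ∀ x, f (x + 1) = f x
  g_one : ∀ x, g (x + 1) = (-1) ^ d * g x
  f_I : ∀ x, f (x + I) = cexp (π * d / 2 - π * I * d * x) * g x
  g_I : ∀ x, g (x + I) = cexp (π * d / 2 - π * I * d * x) * f x
  f_conj : ∀ x, f (conj x) = conj (f x)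
  g_conj : ∀ x, g (conj x) = conj (g x)
  A_zero : A 0 = 0
  A_re : ∀ t, A (t + 2 / d) = -A t
  A_im : ∀ t, A (t - 2 * I) = -cexp (π * d + π * I * d * t) * A t
  A_der : deriv A 0 ≠ 0
  add : ∀ x y, f x * g y - g x * f y = A (x + y) * A (x - y)

/-- The potential `-8 |W|² / ρ²`. -/
def pot (f g : ℂ → ℂ) (ζ : ℂ) : ℝ :=
  -8 * normSq (f ζ * deriv g ζ - g ζ * deriv f ζ) / (normSq (f ζ) + normSq (g ζ)) ^ 2

/-- The equation of one branch of the Fermi curve. -/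
def GG (d : ℕ) (A : ℂ → ℂ) (q : ℂ × ℂ) : ℂ :=
  π * I * (q.2 + q.1) * A (-2 * I * q.1 / d) - 2 * deriv A (-2 * I * q.1 / d)

/-- The translates of that branch. -/
def Aset (d : ℕ) (A : ℂ → ℂ) : Set (ℂ × ℂ) :=
  {q | ∃ n : Fin 2 → ℤ, GG d A (q.1 + gi n, q.2 + conj (gi n)) = 0}

/-! ### Statements of the blocks -/

/-- Weighted argument principle. -/
def S_ARG : Prop :=
  ∀ (f : ℂ → ℂ) (c : ℂ) (R : ℝ), 0 < R → AnalyticOnNhd ℂ f (closedBall c R) →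
    (∀ t ∈ sphere c R, f t ≠ 0) →
    ∃ (Z : Finset ℂ) (m : ℂ → ℕ), (∀ t, t ∈ Z ↔ t ∈ ball c R ∧ f t = 0) ∧ (∀ t ∈ Z, 0 < m t) ∧
      ∀ h : ℂ → ℂ, AnalyticOnNhd ℂ h (closedBall c R) →
        (∮ t in C(c, R), h t * (deriv f t / f t)) = 2 * π * I * ∑ t ∈ Z, (m t : ℂ) * h t

/-- Circle integrals with a holomorphic parameter. -/
def S_PAR : Prop :=
  ∀ (G : ℂ × ℂ → ℂ) (D : Set ℂ) (c : ℂ) (R : ℝ), IsOpen D → 0 < R →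
    AnalyticOnNhd ℂ G (D ×ˢ sphere c R) →
    DifferentiableOn ℂ (fun s => ∮ t in C(c, R), G (s, t)) D

/-- Hankel determinants count points and give their sum. -/
def S_HANK : Prop :=
  ∀ (r : ℕ) (Z : Finset ℂ) (W : ℂ → ℂ), Z.card ≤ r →
    ((hank r 0 Z W).det ≠ 0 ↔ (Z.card = r ∧ ∀ t ∈ Z, W t ≠ 0)) ∧
    ((hank r 0 Z W).det ≠ 0 →
      ((hank r 0 Z W).adjugate * hank r 1 Z W).trace = (hank r 0 Z W).det * ∑ t ∈ Z, t)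

/-- Local weights on the fibres of `F \ B`. -/
def S_LOC : Prop :=
  ∀ (F B : Set (ℂ × ℂ)) (O K : Set ℂ) (s₀ : ℂ), Hyp F → An B → IsOpen O → IsCompact K → K ⊆ O →
    (∃ t, (s₀, t) ∉ F) → (∀ᶠ s in 𝓝 s₀, fib F B O s ⊆ K) →
    ∃ δ : ℝ, 0 < δ ∧ ∃ (M : ℕ) (Z : ℂ → Finset ℂ),
      (∀ s ∈ ball s₀ δ, (Z s : Set ℂ) = fib F B O s ∧ (Z s).card ≤ M) ∧
      ∀ s₁ ∈ ball s₀ δ, ∃ W : ℂ → ℂ → ℂ, (∀ t ∈ Z s₁, W s₁ t ≠ 0) ∧
        ∀ a : ℕ, DifferentiableOn ℂ (fun s => ∑ t ∈ Z s, W s t * t ^ a) (ball s₀ δ)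

/-- Degree and trace of a proper part of `F \ B` over a connected base. -/
def S_FIB : Prop :=
  ∀ (F B : Set (ℂ × ℂ)) (O Ω : Set ℂ), Hyp F → An B → IsOpen O → IsOpen Ω → IsPreconnected Ω →
    (∀ s ∈ Ω, ∃ t, (s, t) ∉ F) →
    (∀ s₀ ∈ Ω, ∃ K, IsCompact K ∧ K ⊆ O ∧ ∀ᶠ s in 𝓝 s₀, fib F B O s ⊆ K) →
    ∃ (d : ℕ) (S : ℂ → ℂ) (E : Set ℂ), E.Countable ∧ DifferentiableOn ℂ S Ω ∧
      ∀ s ∈ Ω, (fib F B O s).Finite ∧ (fib F B O s).ncard ≤ d ∧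
        (s ∉ E → (fib F B O s).ncard = d) ∧
        ((fib F B O s).ncard = d → S s = ∑ᶠ t ∈ fib F B O s, t)

/-- The two far domains are connected. -/
def S_PERF : Prop := ∀ N : ℕ, IsPreconnected (Perf ∩ Far N) ∧ IsPreconnected (Far N)

/-- The Legendre relation. -/
def S_LEG : Prop :=
  ∀ (S : ℂ → ℂ) (d c : ℂ), DifferentiableOn ℂ S (range gi)ᶜ →
    (∀ w ∉ range gi, S (w + 1) = S w + d ∧ S (w + I) = S w - d * I) →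
    Tendsto (fun w => w * S w) (𝓝[≠] 0) (𝓝 c) → c = d / π

/-- A bounded holomorphic function near infinity with `z S z → c ≠ 0` along a sequence. -/
def S_PSI : Prop :=
  ∀ (S : ℂ → ℂ) (c : ℂ) (R : ℝ), c ≠ 0 → 0 < R → DifferentiableOn ℂ S {z | R < ‖z‖} →
    (∀ z, R < ‖z‖ → ‖S z‖ ≤ 1) →
    (∀ ε : ℝ, 0 < ε → ∀ R' : ℝ, ∃ z, R' < ‖z‖ ∧ ‖z * S z - c‖ < ε) →
    (∀ δ : ℝ, 0 < δ → ∃ R₁ : ℝ, ∀ z, R₁ < ‖z‖ → ‖S z‖ < δ) ∧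
    ∃ R₂ : ℝ, R ≤ R₂ ∧ ∀ ε : ℝ, 0 < ε → ∀ᶠ w in 𝓝[≠] (0 : ℂ), ∃ z, R₂ < ‖z‖ ∧ S z = w ∧
      ‖w * z - c‖ ≤ ε ∧ ∀ z', R₂ < ‖z'‖ → S z' = w → z' = z

/-- Dichotomy for one end. -/
def S_DICH : Prop :=
  ∀ (F B : Set (ℂ × ℂ)) (c : ℂ) (N : ℕ) (C : ℝ), Hyp F → End F c N C → An B →
    endSet F N ⊆ B ∨ ∃ E : Set ℂ, E.Countable ∧
      ∀ s ∈ Perf ∩ Far N, s ∉ E → ∃ t, ‖t‖ < 1 / 2 ∧ (s, t) ∈ F ∧ (s, t) ∉ B

/-- The main geometric lemma. -/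
def S_MAIN : Prop :=
  ∀ (F B : Set (ℂ × ℂ)) (c : ℂ) (N : ℕ) (C : ℝ), Data F c N C → c ≠ 0 → An B → Inv B →
    endSet F N ⊆ B →
    F ⊆ B ∨ (¬ endSet (Prod.swap ⁻¹' F) N ⊆ Prod.swap ⁻¹' B ∧ ∃ d : ℕ, c = d / π)

/-- Schur complement: a local equation. -/
def S_SCHUR : Prop := ∀ T : H2 →L[ℂ] H2, Hyp (opF T)

/-- Estimates at infinity. -/
def S_EST : Prop :=
  ∀ T : H2 →L[ℂ] H2, ∃ (N : ℕ) (C : ℝ),
    (∀ w ∈ Perf, ∀ z ∈ Perf, (N : ℝ) ≤ ‖w - conj z‖ → (w, z) ∉ opF T) ∧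
    End (opF T) (-T e0 0) N C ∧ End (Prod.swap ⁻¹' opF T) (-T e0 0) N C

/-- The multiplication operator in Fourier coordinates. -/
def S_OP : Prop :=
  ∀ (V : UnitAddTorus (Fin 2) → ℂ) (lam : ℂ), MemLp V ∞ volume →
    IsLatticeInvariant (weakFermi V lam) ∧
    ∃ T : H2 →L[ℂ] H2, T e0 0 = ((∫ x, V x) - lam) / (4 * π ^ 2) ∧
      ∀ k : Fin 2 → ℂ, k ∈ weakFermi V lam ↔ (k 0 + k 1 * I, k 0 - k 1 * I) ∈ opF T

/-- Transformation laws of the theta functions. -/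
def S_TH1 : Prop :=
  ∀ d : ℕ, 0 < d → Differentiable ℂ (s0 d) ∧ Differentiable ℂ (s1 d) ∧ Differentiable ℂ (AA d) ∧
    (∀ x, s0 d (x + 1) = s0 d x) ∧ (∀ x, s1 d (x + 1) = (-1) ^ d * s1 d x) ∧
    (∀ x, s0 d (x + I) = cexp (π * d / 2 - π * I * d * x) * s1 d x) ∧
    (∀ x, s1 d (x + I) = cexp (π * d / 2 - π * I * d * x) * s0 d x) ∧
    (∀ x, s0 d (conj x) = conj (s0 d x)) ∧ (∀ x, s1 d (conj x) = conj (s1 d x)) ∧
    AA d 0 = 0 ∧ (∀ t, AA d (t + 2 / d) = -AA d t) ∧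
    (∀ t, AA d (t - 2 * I) = -cexp (π * d + π * I * d * t) * AA d t) ∧ deriv (AA d) 0 ≠ 0

/-- The addition formula. -/
def S_TH2 : Prop :=
  ∀ d : ℕ, 0 < d → ∀ x y, s0 d x * s1 d y - s1 d x * s0 d y = AA d (x + y) * AA d (x - y)

/-- The potential and its Bloch solutions. -/
def S_SOL : Prop :=
  ∀ (d : ℕ) (f g A : ℂ → ℂ), 0 < d → Th d f g A →
    AnalyticOnNhd ℝ (pot f g) univ ∧ (∀ ζ, pot f g (ζ + 1) = pot f g ζ) ∧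
    (∀ ζ, pot f g (ζ + I) = pot f g ζ) ∧
    ∀ k : Fin 2 → ℂ, (GG d A (k 0 + k 1 * I, k 0 - k 1 * I) = 0 ∨
      GG d A (k 0 - k 1 * I, k 0 + k 1 * I) = 0) → Sol (fun ζ => (pot f g ζ : ℂ)) 0 k

/-- Geometry of the branch. -/
def S_ASET : Prop :=
  ∀ (d : ℕ) (f g A : ℂ → ℂ), 0 < d → Th d f g A →
    An (Aset d A) ∧ (∃ w, {z | (w, z) ∈ Aset d A}.Finite) ∧
    ∀ ε : ℝ, 0 < ε → ∃ R : ℝ, ∀ z, R < ‖z‖ →
      ∃ w, ‖w‖ < ε ∧ GG d A (w, z) = 0 ∧ ‖w * z - d / π‖ < ε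

/-- Periodic functions descend to the torus. -/
def S_LIFT : Prop :=
  Function.Surjective pr ∧ Continuous pr ∧
  (∀ u : ℂ → ℂ, (∀ ζ, u (ζ + 1) = u ζ) → (∀ ζ, u (ζ + I) = u ζ) →
    ∃ v : UnitAddTorus (Fin 2) → ℂ, ∀ ζ, v (pr ζ) = u ζ) ∧
  (∀ v : UnitAddTorus (Fin 2) → ℂ, Continuous (fun ζ => v (pr ζ)) → Continuous v) ∧
  (∀ (n : Fin 2 → ℤ) (ζ : ℂ), mFourier n (pr ζ) = bl (fun i => n i) ζ) ∧
  (∀ ζ, pr (ζ + 1) = pr ζ ∧ pr (ζ + I) = pr ζ) ∧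
  (∀ (f : UnitAddTorus (Fin 2) → ℂ) (n : Fin 2 → ℤ),
    mFourierCoeff f n = ∫ x, mFourier (-n) x * f x) ∧
  (volume : Measure (UnitAddTorus (Fin 2))) = Measure.pi fun _ => AddCircle.haarAddCircle

/-- Integration by parts on the torus. -/
def S_IBP : Prop :=
  ∀ (k : Fin 2 → ℂ) (u : ℂ → ℂ) (v g : UnitAddTorus (Fin 2) → ℂ), ContDiff ℝ 2 u →
    (∀ ζ, u ζ = bl k ζ * v (pr ζ)) → (∀ ζ, Δ u ζ = bl k ζ * g (pr ζ)) →
    ∀ n : Fin 2 → ℤ, mFourierCoeff g n = -(4 * π ^ 2 * ∑ i, (k i + n i) ^ 2) * mFourierCoeff v n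

/-- Classical solutions are weak solutions. -/
def S_BR1 : Prop :=
  ∀ (V : UnitAddTorus (Fin 2) → ℂ) (lam : ℂ) (k : Fin 2 → ℂ), Continuous V →
    Sol (fun ζ => V (pr ζ)) lam k → k ∈ weakFermi V lam

/-- The Fourier series of a `C²` potential converges absolutely. -/
def S_WIE : Prop :=
  ∀ V : UnitAddTorus (Fin 2) → ℂ, ContDiff ℝ 2 (fun ζ => V (pr ζ)) → Summable (mFourierCoeff V)

/-- Regularity of weak solutions in Fourier terms. -/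
def S_REG : Prop :=
  ∀ (V v : UnitAddTorus (Fin 2) → ℂ) (lam : ℂ) (k : Fin 2 → ℂ), Continuous V →
    Summable (mFourierCoeff V) → MemLp v 2 volume →
    (∀ n : Fin 2 → ℤ, (4 * π ^ 2 * ∑ i, (k i + n i) ^ 2 - lam) * mFourierCoeff v n
      + mFourierCoeff (fun x => V x * v x) n = 0) →
    Summable fun n : Fin 2 → ℤ => (1 + ‖gi n‖ ^ 2) * ‖mFourierCoeff v n‖

/-- Weak solutions are classical when the potential is `C²`. -/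
def S_BR2 : Prop :=
  ∀ (V : UnitAddTorus (Fin 2) → ℂ) (lam : ℂ) (k : Fin 2 → ℂ), ContDiff ℝ 2 (fun ζ => V (pr ζ)) →
    k ∈ weakFermi V lam → Sol (fun ζ => V (pr ζ)) lam k

/-- From the Euclidean plane to the complex coordinate and the torus. -/
def S_BR3 : Prop :=
  ∀ (W : EuclideanSpace ℝ (Fin 2) → ℂ) (V : UnitAddTorus (Fin 2) → ℂ),
    (∀ x : EuclideanSpace ℝ (Fin 2), W x = V (pr (x 0 + x 1 * I))) →
    average W = ∫ x, V x ∧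
    ∀ (lam : ℂ) (k : Fin 2 → ℂ), k ∈ fermiVariety W lam ↔ Sol (fun ζ => V (pr ζ)) lam k

/-- The free operator at energy zero. -/
def S_ZERO : Prop := ¬ IrreducibleModPeriodicity (weakFermi (fun _ => 0) 0)

end

end Pool.Agent.P.MP_a11f68_mp.Q
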