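import Pool.Agent.P.MP_a11f68_mp.Q.Iface

namespace Pool.Agent.P.MP_a11f68_mp.Q

open Complex ComplexConjugate MeasureTheory UnitAddTorus Metric Filter Topology Set Laplacian
open scoped Real ENNReal

@[simp] lemma gi_re (n : Fin 2 → ℤ) : (gi n).re = n 0 := by simp [gi]

@[simp] lemma gi_im (n : Fin 2 → ℤ) : (gi n).im = n 1 := by simp [gi]

lemma gi_neg (n : Fin 2 → ℤ) : gi (-n) = -gi n := by simp [gi]; ring

lemma gi_add (n m : Fin 2 → ℤ) : gi (n + m) = gi n + gi m := by simp [gi]; ring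

@[simp] lemma gi_zero : gi 0 = 0 := by simp [gi]

lemma gi_conj (n : Fin 2 → ℤ) : gi ![n 0, -n 1] = conj (gi n) := by simp [gi]

lemma gi_norm {n : Fin 2 → ℤ} (h : ‖gi n‖ < 1) : gi n = 0 := by
  have h1 := (abs_re_le_norm (gi n)).trans_lt h
  have h2 := (abs_im_le_norm (gi n)).trans_lt h
  rw [gi_re] at h1
  rw [gi_im] at h2
  have h3 : |n 0| < 1 := by exact_mod_cast h1
  have h4 : |n 1| < 1 := by exact_mod_cast h2
  simp [gi, Int.abs_lt_one_iff.1 h3, Int.abs_lt_one_iff.1 h4]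

lemma isClosed_gi : IsClosed (range gi) := by
  refine isClosed_of_pairwise_le_dist one_pos ?_
  rintro _ ⟨n, rfl⟩ _ ⟨m, rfl⟩ hne
  by_contra h
  rw [not_le, dist_eq_norm, sub_eq_add_neg, ← gi_neg, ← gi_add] at h
  have := gi_norm h
  rw [gi_add, gi_neg, ← sub_eq_add_neg, sub_eq_zero] at this
  exact hne this

lemma add_gi_notMem {w : ℂ} (h : w ∉ range gi) (n : Fin 2 → ℤ) : w + gi n ∉ range gi := by
  rintro ⟨m, hm⟩
  exact h ⟨m + -n, by rw [gi_add, gi_neg, hm]; ring⟩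

lemma isOpen_Perf : IsOpen Perf := by
  have : Perf = ⋃ j : ℤ, ({w : ℂ | (j : ℝ) + 1 / 4 < w.re} ∩ {w : ℂ | w.re < j + 3 / 4}) ∪
      ({w : ℂ | (j : ℝ) + 1 / 4 < w.im} ∩ {w : ℂ | w.im < j + 3 / 4}) := by
    ext w; simp [Perf]
  rw [this]
  exact isOpen_iUnion fun j =>
    ((isOpen_lt continuous_const continuous_re).inter
      (isOpen_lt continuous_re continuous_const)).union
    ((isOpen_lt continuous_const continuous_im).inter (isOpen_lt continuous_im continuous_const))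

lemma isOpen_Far (N : ℕ) : IsOpen (Far N) :=
  (isOpen_lt continuous_const continuous_re.abs).union
    (isOpen_lt continuous_const continuous_im.abs)

lemma Perf_add {w : ℂ} (h : w ∈ Perf) (n : Fin 2 → ℤ) : w + gi n ∈ Perf := by
  obtain ⟨j, h | h⟩ := h
  · refine ⟨j + n 0, Or.inl ?_⟩
    simp only [add_re, gi_re, Int.cast_add]; constructor <;> linarith [h.1, h.2]
  · refine ⟨j + n 1, Or.inr ?_⟩
    simp only [add_im, gi_im, Int.cast_add]; constructor <;> linarith [h.1, h.2]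

lemma norm_small {t : ℂ} (h1 : |t.re| ≤ 1 / 4) (h2 : |t.im| ≤ 1 / 4) : ‖t‖ ≤ 2 / 5 := by
  have h3 : ‖t‖ ^ 2 = t.re ^ 2 + t.im ^ 2 := by rw [Complex.sq_norm, normSq_apply]; ring
  have h4 := abs_le.1 h1
  have h5 := abs_le.1 h2
  refine le_of_sq_le_sq ?_ (by norm_num)
  nlinarith [h4.1, h4.2, h5.1, h5.2]

lemma not_Perf {w : ℂ} (h : w ∉ Perf) : ∃ n, ‖w + gi n‖ ≤ 2 / 5 := by
  have key : ∀ x : ℝ, (∀ j : ℤ, ¬ ((j : ℝ) + 1 / 4 < x ∧ x < j + 3 / 4)) →
      ∃ j : ℤ, |x + j| ≤ 1 / 4 := fun x hx => by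
    refine ⟨-⌊x + 1 / 4⌋, abs_le.2 ⟨?_, ?_⟩⟩
    · push_cast; linarith [Int.floor_le (x + 1 / 4)]
    · by_contra h'
      push_cast at h'
      exact hx ⌊x + 1 / 4⌋ ⟨by linarith, by linarith [Int.lt_floor_add_one (x + 1 / 4)]⟩
  obtain ⟨a, ha⟩ := key w.re fun j hj => h ⟨j, Or.inl hj⟩
  obtain ⟨b, hb⟩ := key w.im fun j hj => h ⟨j, Or.inr hj⟩
  exact ⟨![a, b], norm_small (by simpa using ha) (by simpa using hb)⟩

lemma not_Perf_small {w : ℂ} (h : w ∉ Perf) (hw : ‖w‖ < 1 / 2) : ‖w‖ ≤ 2 / 5 := by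
  obtain ⟨n, hn⟩ := not_Perf h
  have : gi n = 0 := gi_norm (by
    have := norm_sub_le (w + gi n) w
    rw [add_sub_cancel_left] at this
    linarith)
  rwa [this, add_zero] at hn

lemma Far_norm {N : ℕ} {w : ℂ} (h : w ∈ Far N) : (N : ℝ) < ‖w‖ := by
  rcases h with h | h
  · exact h.trans_le (abs_re_le_norm w)
  · exact h.trans_le (abs_im_le_norm w)

lemma not_Far {N : ℕ} {w : ℂ} (h : w ∉ Far N) : ‖w‖ ≤ 2 * N := by
  simp only [Far, mem_ofPred_eq, not_or, not_lt] at h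
  linarith [norm_le_abs_re_add_abs_im w, h.1, h.2]

lemma Far_mono {N M : ℕ} (h : N ≤ M) : Far M ⊆ Far N := fun w hw => by
  have : (N : ℝ) ≤ M := by exact_mod_cast h
  rcases hw with hw | hw
  · exact Or.inl (this.trans_lt hw)
  · exact Or.inr (this.trans_lt hw)

lemma exists_far {E : Set ℂ} (hE : E.Countable) (N : ℕ) (R : ℝ) :
    ∃ s ∈ Perf ∩ Far N, s ∉ E ∧ R < ‖s‖ := by
  obtain ⟨M, hM⟩ := exists_nat_ge (max (N : ℝ) R)
  have hx : (N : ℝ) < M + 1 / 2 ∧ R < M + 1 / 2 :=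
    ⟨by linarith [le_max_left (N : ℝ) R], by linarith [le_max_right (N : ℝ) R]⟩
  have h0 : (0 : ℝ) ≤ M + 1 / 2 := by positivity
  obtain ⟨s, h1, h2⟩ := (hE.dense_compl ℝ).exists_mem_open
    (U := (Perf ∩ Far N) ∩ {s | R < ‖s‖})
    ((isOpen_Perf.inter (isOpen_Far N)).inter (isOpen_lt continuous_const continuous_norm))
    ⟨((M + 1 / 2 : ℝ) : ℂ), ⟨⟨M, Or.inl (by
        rw [ofReal_re]; push_cast; constructor <;> linarith)⟩,
      Or.inl (by rw [ofReal_re, abs_of_nonneg h0]; exact hx.1)⟩,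
      by rw [mem_ofPred_eq, Complex.norm_real, Real.norm_of_nonneg h0]; exact hx.2⟩
  exact ⟨s, h2.1, h1, h2.2⟩

lemma closed_of_dense {Ω E C : Set ℂ} {g : ℂ → ℂ} (hΩ : IsOpen Ω) (hE : E.Countable)
    (hg : ContinuousOn g Ω) (hC : IsClosed C) (h : ∀ w ∈ Ω, w ∉ E → g w ∈ C) :
    ∀ w ∈ Ω, g w ∈ C := fun w hw => by
  have h1 : w ∈ closure (Ω ∩ Eᶜ) := (hE.dense_compl ℝ).open_subset_closure_inter hΩ hw
  have h2 := ((hg w hw).mono inter_subset_left).mem_closure_image h1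
  refine hC.closure_subset_iff.2 ?_ h2
  rintro _ ⟨x, hx, rfl⟩
  exact h x hx.1 hx.2

lemma an_swap (q : ℂ × ℂ) : AnalyticAt ℂ (Prod.swap : ℂ × ℂ → ℂ × ℂ) q :=
  analyticAt_snd.prod analyticAt_fst

lemma An.swap {A : Set (ℂ × ℂ)} (h : An A) : An (Prod.swap ⁻¹' A) := fun p => by
  obtain ⟨U, h1, h2, m, f, h3, h4⟩ := h p.swap
  exact ⟨Prod.swap ⁻¹' U, h1.preimage continuous_swap, h2, m, fun j q => f j q.swap,
    fun j q hq => (h3 j _ hq).comp (an_swap q), fun q hq => h4 _ hq⟩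

lemma Hyp.swap {A : Set (ℂ × ℂ)} (h : Hyp A) : Hyp (Prod.swap ⁻¹' A) := fun p => by
  obtain ⟨U, h1, h2, f, h3, h4⟩ := h p.swap
  exact ⟨Prod.swap ⁻¹' U, h1.preimage continuous_swap, h2, fun q => f q.swap,
    fun q hq => (h3 _ hq).comp (an_swap q), fun q hq => h4 _ hq⟩

lemma Inv.swap {A : Set (ℂ × ℂ)} (h : Inv A) : Inv (Prod.swap ⁻¹' A) := fun q hq n => by
  have := h _ hq ![n 0, -n 1]
  rw [gi_conj, conj_conj] at this
  exact this

lemma Data.swap {F : Set (ℂ × ℂ)} {c : ℂ} {N : ℕ} {C : ℝ} (h : Data F c N C) :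
    Data (Prod.swap ⁻¹' F) c N C where
  hyp := h.hyp.swap
  inv := h.inv.swap
  gap := fun w hw z hz hN => h.gap z hz w hw (by
    rwa [← norm_conj, map_sub, conj_conj, norm_sub_rev] at hN)
  e1 := h.e2
  e2 := h.e1

lemma An.union {A B : Set (ℂ × ℂ)} (hA : An A) (hB : An B) : An (A ∪ B) := fun p => by
  obtain ⟨U, h1, h2, m, f, h3, h4⟩ := hA p
  obtain ⟨U', h1', h2', m', f', h3', h4'⟩ := hB p
  refine ⟨U ∩ U', h1.inter h1', ⟨h2, h2'⟩, m * m',
    fun j q => f (finProdFinEquiv.symm j).1 q * f' (finProdFinEquiv.symm j).2 q,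
    fun j q hq => (h3 _ q hq.1).mul (h3' _ q hq.2), fun q hq => ?_⟩
  rw [mem_union, h4 q hq.1, h4' q hq.2]
  constructor
  · rintro (h | h) j <;> simp only [h, zero_mul, mul_zero]
  · intro h
    by_contra h'
    push Not at h'
    obtain ⟨⟨i, hi⟩, j, hj⟩ := h'
    have := h (finProdFinEquiv (i, j))
    simp only [Equiv.symm_apply_apply] at this
    exact mul_ne_zero hi hj this

lemma Inv.union {A B : Set (ℂ × ℂ)} (hA : Inv A) (hB : Inv B) : Inv (A ∪ B) :=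
  fun q hq n => hq.imp (fun h => hA q h n) fun h => hB q h n

lemma Inv.iff {A : Set (ℂ × ℂ)} (h : Inv A) (w z : ℂ) (n : Fin 2 → ℤ) :
    (w + gi n, z + conj (gi n)) ∈ A ↔ (w, z) ∈ A := by
  refine ⟨fun h' => ?_, fun h' => h _ h' n⟩
  have := h _ h' (-n)
  simpa [gi_neg] using this

/-- No horizontal line lies in `F` when `c ≠ 0`. -/
lemma Data.line {F : Set (ℂ × ℂ)} {c : ℂ} {N : ℕ} {C : ℝ} (D : Data F c N C) (hc : c ≠ 0)
    (z : ℂ) : ∃ w, (w, z) ∉ F := by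
  by_cases hz : z ∈ Perf
  · obtain ⟨s, hs, -, hR⟩ := exists_far countable_empty N (N + ‖z‖)
    refine ⟨s, D.gap s hs.1 z hz ?_⟩
    have := norm_sub_norm_le s (conj z)
    rw [norm_conj] at this
    linarith
  · obtain ⟨n, hn⟩ := not_Perf hz
    set t := z + gi n with ht
    have h0 : 0 < ‖c‖ := norm_pos_iff.2 hc
    suffices h : ∃ s, (s, t) ∉ F by
      obtain ⟨s, hs⟩ := h
      refine ⟨s - conj (gi n), fun h => hs ?_⟩
      have := D.inv _ h ![n 0, -n 1]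
      rw [gi_conj, conj_conj] at this
      simpa using this
    by_cases ht0 : t = 0
    · obtain ⟨s, hs, -, hR⟩ := exists_far countable_empty N (|C| / ‖c‖)
      refine ⟨s, fun h => ?_⟩
      have h1 := D.e1.asym s hs t (by linarith) h
      have h2 : 0 < ‖s‖ := lt_of_le_of_lt (by positivity) hR
      rw [ht0, mul_zero, zero_sub, norm_neg, le_div_iff₀ h2] at h1
      rw [div_lt_iff₀ h0] at hR
      linarith [le_abs_self C]
    · have h3 : 0 < ‖t‖ := norm_pos_iff.2 ht0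
      obtain ⟨s, hs, -, hR⟩ := exists_far countable_empty N (max 1 ((‖c‖ + |C|) / ‖t‖))
      refine ⟨s, fun h => ?_⟩
      have h1 := D.e1.asym s hs t (by linarith) h
      have h2 : 1 < ‖s‖ := (le_max_left _ _).trans_lt hR
      have h4 := (le_max_right _ _).trans_lt hR
      rw [div_lt_iff₀ h3, ← norm_mul] at h4
      have h5 : C / ‖s‖ ≤ |C| := by
        rw [div_le_iff₀ (by linarith)]
        nlinarith [le_abs_self C, abs_nonneg C]
      linarith [norm_sub_norm_le (s * t) c]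

theorem p_DICH (hF : S_FIB) (hP : S_PERF) : S_DICH := by
  intro F B c N C hH e hB
  obtain ⟨d, S, E, hE, -, h⟩ := hF F B (ball 0 (1 / 2)) (Perf ∩ Far N) hH hB isOpen_ball
    (isOpen_Perf.inter (isOpen_Far N)) (hP N).1 (fun s hs => by
      by_contra h
      push Not at h
      have := e.uniq s hs 0 (1 / 4) (by norm_num) (by norm_num) (h _) (h _)
      norm_num at this) (fun s₀ hs₀ => ⟨closedBall 0 (1 / 4), isCompact_closedBall _ _,
      closedBall_subset_ball (by norm_num), by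
        filter_upwards [(isOpen_Perf.inter (isOpen_Far N)).mem_nhds hs₀] with s hs t ht
        exact mem_closedBall_zero_iff.2 (e.small s hs t (mem_ball_zero_iff.1 ht.1) ht.2.1)⟩)
  rcases Nat.eq_zero_or_pos d with rfl | hd
  · left
    rintro ⟨s, t⟩ ⟨h1, h2, h3⟩
    by_contra h4
    obtain ⟨h5, h6, -⟩ := h s h2
    rw [Nat.le_zero, ncard_eq_zero h5] at h6
    exact (h6 ▸ (show t ∈ fib F B (ball 0 (1 / 2)) s from ⟨mem_ball_zero_iff.2 h3, h1, h4⟩) :
      t ∈ (∅ : Set ℂ))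
  · right
    refine ⟨E, hE, fun s hs hsE => ?_⟩
    obtain ⟨t, ht⟩ := nonempty_of_ncard_ne_zero
      (show (fib F B (ball 0 (1 / 2)) s).ncard ≠ 0 by rw [(h s hs).2.2.1 hsE]; exact hd.ne')
    exact ⟨t, mem_ball_zero_iff.1 ht.1, ht.2⟩

end Pool.Agent.P.MP_a11f68_mp.Q

/-! The far domains are connected. -/

namespace Pool.Agent.P.MP_a11f68_mp.Q

open Complex ComplexConjugate MeasureTheory UnitAddTorus Metric Filter Topology Set Laplacian
open scoped Real ENNReal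

lemma perf_line {S : Set ℂ} (f : ℝ → ℂ) (hf : Continuous f) {a b : ℝ}
    (h : ∀ t ∈ uIcc a b, f t ∈ S) : JoinedIn S (f a) (f b) :=
  ((((convex_uIcc a b).isPathConnected nonempty_uIcc).image hf).joinedIn _
    (mem_image_of_mem f left_mem_uIcc) _ (mem_image_of_mem f right_mem_uIcc)).mono
    (image_subset_iff.2 h)

lemma perf_h {S : Set ℂ} {a b y : ℝ} (h : ∀ t ∈ uIcc a b, (⟨t, y⟩ : ℂ) ∈ S) :
    JoinedIn S ⟨a, y⟩ ⟨b, y⟩ :=
  perf_line (fun t => ⟨t, y⟩)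
    (equivRealProdCLM.symm.continuous.comp (continuous_id.prodMk continuous_const)) h

lemma perf_v {S : Set ℂ} {a b x : ℝ} (h : ∀ t ∈ uIcc a b, (⟨x, t⟩ : ℂ) ∈ S) :
    JoinedIn S ⟨x, a⟩ ⟨x, b⟩ :=
  perf_line (fun t => ⟨x, t⟩)
    (equivRealProdCLM.symm.continuous.comp (continuous_const.prodMk continuous_id)) h

lemma perf_gen (g : ℝ → Prop) (N c : ℝ) (hc : N < c) (g1 : g c) (g2 : g (-c)) :
    IsPreconnected {w : ℂ | (g w.re ∨ g w.im) ∧ (N < |w.re| ∨ N < |w.im|)} := by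
  have c1 : N < |c| := hc.trans_le (le_abs_self c)
  have key : ∀ x y : ℝ, (N < |x| ∨ N < |y|) → ∃ s, g s ∧ N < |s| ∧
      ∀ t ∈ uIcc s x, N < |t| ∨ N < |y| := fun x y h => by
    rcases h with h | h
    · rcases lt_abs.1 h with h | h
      · exact ⟨c, g1, c1, fun t ht =>
          Or.inl (((lt_min hc h).trans_le ht.1).trans_le (le_abs_self t))⟩
      · refine ⟨-c, g2, by rwa [abs_neg], fun t ht => Or.inl (lt_abs.2 (Or.inr ?_))⟩
        have := ht.2.trans_lt (max_lt (by linarith : -c < -N) (by linarith : x < -N))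
        linarith
    · exact ⟨c, g1, c1, fun _ _ => Or.inr h⟩
  refine (IsPathConnected.isConnected ?_).isPreconnected
  refine ⟨⟨c, c⟩, ⟨Or.inl g1, Or.inl c1⟩, ?_⟩
  rintro ⟨x, y⟩ ⟨h1 | h1, h2⟩
  · obtain ⟨s, a1, a2, a3⟩ := key y x h2.symm
    refine ((perf_v (b := s) fun t _ => ?_).trans (perf_h (b := x) fun t _ => ?_)).trans
      (perf_v fun t ht => ?_)
    exacts [⟨Or.inl g1, Or.inl c1⟩, ⟨Or.inr a1, Or.inr a2⟩, ⟨Or.inl h1, (a3 t ht).symm⟩]
  · obtain ⟨s, a1, a2, a3⟩ := key x y h2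
    refine ((perf_h (b := s) fun t _ => ?_).trans (perf_v (b := y) fun t _ => ?_)).trans
      (perf_h fun t ht => ?_)
    exacts [⟨Or.inr g1, Or.inr c1⟩, ⟨Or.inl a1, Or.inl a2⟩, ⟨Or.inr h1, a3 t ht⟩]

theorem p_PERF : S_PERF := by
  intro N
  constructor
  · convert perf_gen (fun x => ∃ j : ℤ, (j : ℝ) + 1 / 4 < x ∧ x < j + 3 / 4) N (N + 1 / 2)
      (by linarith) ⟨N, by push_cast; constructor <;> linarith⟩
      ⟨-N - 1, by push_cast; constructor <;> linarith⟩ using 1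
    ext w
    simp only [Perf, Far, mem_inter_iff, mem_ofPred_eq, exists_or]
  · convert perf_gen (fun _ => True) N (N + 1) (by linarith) trivial trivial using 1
    ext w
    simp only [Far, mem_ofPred_eq, or_self, true_and]

end Pool.Agent.P.MP_a11f68_mp.Q

namespace Pool.Agent.P.MP_a11f68_mp.Q

open Complex ComplexConjugate MeasureTheory UnitAddTorus Metric Filter Topology Set Laplacian
open scoped Real ENNReal

lemma psi_inv {r : ℝ} (hr : 0 < r) {z : ℂ} (hz : r⁻¹ < ‖z‖) : z ≠ 0 ∧ ‖z⁻¹‖ < r := by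
  have h0 : 0 < ‖z‖ := (inv_pos.2 hr).trans hz
  exact ⟨norm_pos_iff.1 h0, by rw [norm_inv]; exact inv_lt_of_inv_lt₀ hr hz⟩

lemma psi_inv' {r : ℝ} (hr : 0 < r) {u : ℂ} (h0 : u ≠ 0) (hu : ‖u‖ < r⁻¹) : r < ‖u⁻¹‖ := by
  rw [norm_inv]
  exact (lt_inv_comm₀ hr (norm_pos_iff.2 h0)).2 hu

theorem p_PSI : S_PSI := by
  intro S c R hc hR hS hb hf
  have hball : ball (0 : ℂ) R⁻¹ ∈ 𝓝 (0 : ℂ) := ball_mem_nhds _ (inv_pos.2 hR)
  have hm : ∀ u ∈ ball (0 : ℂ) R⁻¹ \ {0}, R < ‖u⁻¹‖ := fun u hu =>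
    psi_inv' hR hu.2 (mem_ball_zero_iff.1 hu.1)
  have hd : DifferentiableOn ℂ (fun u : ℂ => S u⁻¹) (ball 0 R⁻¹ \ {0}) :=
    hS.comp (differentiableOn_inv.mono fun u hu => hu.2) hm
  have hd2 := differentiableOn_update_limUnder_of_bddAbove hball hd
    ⟨1, by rintro _ ⟨u, hu, rfl⟩; exact hb _ (hm u hu)⟩
  set ψ := Function.update (fun u : ℂ => S u⁻¹) 0 (limUnder (𝓝[≠] 0) fun u : ℂ => S u⁻¹) with hψ
  have e : ∀ z : ℂ, z ≠ 0 → ψ z⁻¹ = S z := fun z hz => by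
    rw [hψ, Function.update_of_ne (inv_ne_zero hz), inv_inv]
  clear_value ψ
  have han : AnalyticAt ℂ ψ 0 := hd2.analyticAt hball
  choose z hz1 hz2 using fun n : ℕ => hf (1 / ((n : ℝ) + 1)) (by positivity) n
  have hz0 : ∀ n, z n ≠ 0 := fun n => norm_pos_iff.1 ((Nat.cast_nonneg n).trans_lt (hz1 n))
  have t1 : Tendsto (fun n => z n * S (z n)) atTop (𝓝 c) := by
    rw [tendsto_iff_norm_sub_tendsto_zero]
    exact squeeze_zero (fun _ => norm_nonneg _) (fun n => (hz2 n).le)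
      tendsto_one_div_add_atTop_nhds_zero_nat
  have t2 : Tendsto (fun n => (z n)⁻¹) atTop (𝓝 0) := by
    rw [tendsto_zero_iff_norm_tendsto_zero]
    simp only [norm_inv]
    exact tendsto_inv_atTop_zero.comp
      (tendsto_atTop_mono (fun n => (hz1 n).le) tendsto_natCast_atTop_atTop)
  have h0 : ψ 0 = 0 := by
    refine tendsto_nhds_unique (han.continuousAt.tendsto.comp t2) ?_
    have := t2.mul t1
    rw [zero_mul] at this
    refine this.congr fun n => ?_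
    rw [Function.comp, e _ (hz0 n), inv_mul_cancel_left₀ (hz0 n)]
  have hsl : Tendsto (fun u => u⁻¹ * ψ u) (𝓝[≠] 0) (𝓝 (deriv ψ 0)) := by
    simpa [h0] using hasDerivAt_iff_tendsto_slope_zero.1 han.differentiableAt.hasDerivAt
  have hdc : deriv ψ 0 = c := by
    have t3 : Tendsto (fun n => (z n)⁻¹) atTop (𝓝[≠] 0) :=
      tendsto_nhdsWithin_iff.2 ⟨t2, Eventually.of_forall fun n => inv_ne_zero (hz0 n)⟩
    refine tendsto_nhds_unique (hsl.comp t3) (t1.congr fun n => ?_)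
    rw [Function.comp, e _ (hz0 n), inv_inv]
  have hst : HasStrictDerivAt ψ c 0 := hdc ▸ han.hasStrictDerivAt
  rw [hdc] at hsl
  refine ⟨fun δ hδ => ?_, ?_⟩
  · obtain ⟨r, hr, h⟩ := Metric.continuousAt_iff.1 han.continuousAt δ hδ
    refine ⟨r⁻¹, fun w hw => ?_⟩
    obtain ⟨h1, h2⟩ := psi_inv hr hw
    have := h (x := w⁻¹) (by rwa [dist_zero_right])
    rwa [h0, dist_zero_right, e w h1] at this
  obtain ⟨r, hr, hinj⟩ := Metric.eventually_nhds_iff.1 (hst.eventually_left_inverse hc)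
  have hR2 : 0 < max R r⁻¹ := lt_max_of_lt_left hR
  refine ⟨max R r⁻¹, le_max_left _ _, fun ε hε => ?_⟩
  have h1 : ∀ᶠ u in 𝓝 (0 : ℂ), u ≠ 0 → ‖u⁻¹ * ψ u - c‖ ≤ ε := by
    have := hsl.eventually (closedBall_mem_nhds c hε)
    rw [eventually_nhdsWithin_iff] at this
    exact this.mono fun u hu h => by simpa [dist_eq_norm] using hu h
  have h2 : ∀ᶠ u in 𝓝 (0 : ℂ), ‖u‖ < (max R r⁻¹)⁻¹ :=
    (show ∀ᶠ u in 𝓝 (0 : ℂ), u ∈ ball (0 : ℂ) (max R r⁻¹)⁻¹ from
      ball_mem_nhds _ (inv_pos.2 hR2)).mono fun u hu => mem_ball_zero_iff.1 hu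
  have h3 := image_mem_map (m := ψ) (h1.and h2)
  rw [hst.map_nhds_eq hc, h0] at h3
  filter_upwards [mem_nhdsWithin_of_mem_nhds h3, self_mem_nhdsWithin] with w hw hw0
  obtain ⟨u, ⟨hu1, hu2⟩, rfl⟩ := hw
  have hu0 : u ≠ 0 := fun h => hw0 (by rw [h, h0]; rfl)
  have hu3 := psi_inv' hR2 hu0 hu2
  have e1 : S u⁻¹ = ψ u := by rw [← e _ (inv_ne_zero hu0), inv_inv]
  refine ⟨u⁻¹, hu3, e1, by rw [mul_comm]; exact hu1 hu0, fun z' h4 h5 => ?_⟩
  obtain ⟨a1, a2⟩ := psi_inv hr ((le_max_right _ _).trans_lt h4)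
  obtain ⟨-, b2⟩ := psi_inv hr ((le_max_right _ _).trans_lt hu3)
  rw [inv_inv] at b2
  have c1 := hinj (y := z'⁻¹) (by rwa [dist_zero_right])
  have c2 := hinj (y := u) (by rwa [dist_zero_right])
  rw [e _ a1, h5, c2] at c1
  rw [c1, inv_inv]

end Pool.Agent.P.MP_a11f68_mp.Q

namespace Pool.Agent.P.MP_a11f68_mp.Q

open Complex ComplexConjugate MeasureTheory UnitAddTorus Metric Filter Topology Set Laplacian
open scoped Real ENNReal

theorem leg_not_mem {w : ℂ} (h0 : w ≠ 0) (h1 : |w.re| ≤ 1 / 2) (h2 : |w.im| ≤ 1 / 2) :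
    w ∉ range gi := by
  rintro ⟨n, rfl⟩
  have e1 : (gi n).re = n 0 := by simp [gi]
  have e2 : (gi n).im = n 1 := by simp [gi]
  rw [e1] at h1
  rw [e2] at h2
  have a1 : n 0 = 0 := Int.abs_lt_one_iff.1 (by exact_mod_cast h1.trans_lt (by norm_num : (1 / 2 : ℝ) < 1))
  have a2 : n 1 = 0 := Int.abs_lt_one_iff.1 (by exact_mod_cast h2.trans_lt (by norm_num : (1 / 2 : ℝ) < 1))
  exact h0 (by simp [gi, a1, a2])

theorem leg_int (d c : ℂ) :
    ∫ x in (-1 / 2 : ℝ)..(1 / 2), (d - c * (((1 / 2) ^ 2 + x ^ 2)⁻¹ : ℝ)) = d - c * π := by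
  have hc : Continuous fun x : ℝ => (((1 / 2 : ℝ) ^ 2 + x ^ 2)⁻¹ : ℝ) :=
    Continuous.inv₀ (by fun_prop) fun x => by positivity
  rw [intervalIntegral.integral_sub (by simp)
    (Continuous.intervalIntegrable (by fun_prop) _ _),
    intervalIntegral.integral_const_mul, intervalIntegral.integral_ofReal,
    integral_inv_sq_add_sq (by norm_num)]
  norm_num [Real.arctan_neg]
  exact Or.inl (by ring)

theorem p_LEG : S_LEG := by
  intro S d c hS hper hlim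
  set Sq : Set ℂ := uIcc (-1 / 2 : ℝ) (1 / 2) ×ℂ uIcc (-1 / 2 : ℝ) (1 / 2) with hSq
  have hI : ∀ x : ℝ, x ∈ uIcc (-1 / 2 : ℝ) (1 / 2) ↔ |x| ≤ 1 / 2 := fun x => by
    rw [uIcc_of_le (by norm_num), abs_le, mem_Icc, neg_div]
  have hm : ∀ w, w ∈ Sq ↔ |w.re| ≤ 1 / 2 ∧ |w.im| ≤ 1 / 2 := fun w => by
    rw [hSq, mem_reProdIm, hI, hI]
  have hn : Sq ∈ 𝓝 (0 : ℂ) := mem_of_superset (ball_mem_nhds 0 (by norm_num : (0 : ℝ) < 1 / 2))
    fun w hw => (hm w).2 ⟨(abs_re_le_norm w).trans (mem_ball_zero_iff.1 hw).le,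
      (abs_im_le_norm w).trans (mem_ball_zero_iff.1 hw).le⟩
  set H : ℂ → ℂ := Function.update (fun w => w * S w) 0 c with hH
  have h1 : DifferentiableOn ℂ H Sq := by
    refine (differentiableOn_compl_singleton_and_continuousAt_iff hn).1
      ⟨?_, continuousAt_update_same.2 hlim⟩
    refine (differentiableOn_id.mul (hS.mono fun w hw => ?_)).congr fun w hw => ?_
    · exact leg_not_mem hw.2 ((hm w).1 hw.1).1 ((hm w).1 hw.1).2
    · exact Function.update_of_ne hw.2 _ _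
  have h2 := (differentiableOn_dslope hn).2 h1
  set g := dslope H 0 with hg
  have h3 : ∀ w, w ≠ 0 → g w = S w - c / w := fun w hw => by
    rw [hg, dslope_of_ne _ hw, slope_def_field, hH, Function.update_of_ne hw,
      Function.update_self]
    field_simp
    ring
  have h4 := integral_boundary_rect_eq_zero_of_differentiableOn g ⟨-1 / 2, -1 / 2⟩ ⟨1 / 2, 1 / 2⟩ h2
  have h5 : ∀ p : ℝ → ℂ, Continuous p → (∀ x : ℝ, |x| ≤ 1 / 2 → p x ∈ Sq) →
      IntervalIntegrable (fun x => g (p x)) volume (-1 / 2) (1 / 2) := fun p hp hq =>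
    (h2.continuousOn.comp hp.continuousOn fun x hx => hq x ((hI x).1 hx)).intervalIntegrable
  have a1 : |(-1 / 2 : ℝ)| ≤ 1 / 2 := by rw [abs_le]; norm_num
  have a2 : |(1 / 2 : ℝ)| ≤ 1 / 2 := by rw [abs_le]; norm_num
  simp only [smul_eq_mul] at h4
  rw [add_sub_assoc, ← mul_sub, ← intervalIntegral.integral_sub, ← intervalIntegral.integral_sub,
    intervalIntegral.integral_congr (g := fun x : ℝ => I * (d - c * (((1 / 2) ^ 2 + x ^ 2)⁻¹ : ℝ))),
    intervalIntegral.integral_congr (g := fun x : ℝ => d - c * (((1 / 2) ^ 2 + x ^ 2)⁻¹ : ℝ))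
      (f := fun x : ℝ => g _ - g _), intervalIntegral.integral_const_mul, leg_int] at h4
  · have hp : (π : ℂ) ≠ 0 := ofReal_ne_zero.2 Real.pi_ne_zero
    rw [eq_div_iff hp]
    have : I * (2 * (d - c * π)) = 0 := by linear_combination h4
    have := (mul_eq_zero.1 this).resolve_left I_ne_zero
    linear_combination (-1 / 2) * this
  · intro y hy
    have n1 : ((-1 / 2 : ℝ) : ℂ) + y * I ≠ 0 := fun h => by simpa using congrArg re h
    have n2 : ((1 / 2 : ℝ) : ℂ) + y * I ≠ 0 := fun h => by simpa using congrArg re h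
    have := (hper _ (leg_not_mem n1 (by simpa using a1) (by simpa using (hI y).1 hy))).1
    have n3 : (((1 / 2 : ℝ) ^ 2 + y ^ 2 : ℝ) : ℂ) ≠ 0 := ofReal_ne_zero.2 (by positivity)
    have e : (((1 / 2 : ℝ) ^ 2 + y ^ 2 : ℝ) : ℂ) =
        -((((-1 / 2 : ℝ) : ℂ) + y * I) * (((1 / 2 : ℝ) : ℂ) + y * I)) := by
      push_cast
      linear_combination (y : ℂ) ^ 2 * I_mul_I
    have e' : ((1 / 2 : ℝ) : ℂ) + y * I = ((-1 / 2 : ℝ) : ℂ) + y * I + 1 := by
      push_cast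
      ring
    simp only
    rw [h3 _ n1, h3 _ n2, ofReal_inv, e, e', this]
    rw [e'] at n2
    generalize ((-1 / 2 : ℝ) : ℂ) + y * I = u at n1 n2 ⊢
    field_simp
    ring
  · intro x hx
    have n1 : (x : ℂ) + ((-1 / 2 : ℝ) : ℂ) * I ≠ 0 := fun h => by simpa using congrArg im h
    have n2 : (x : ℂ) + ((1 / 2 : ℝ) : ℂ) * I ≠ 0 := fun h => by simpa using congrArg im h
    have := (hper _ (leg_not_mem n1 (by simpa using (hI x).1 hx) (by simpa using a1))).2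
    have e : (((1 / 2 : ℝ) ^ 2 + x ^ 2 : ℝ) : ℂ) =
        ((x : ℂ) + ((-1 / 2 : ℝ) : ℂ) * I) * ((x : ℂ) + ((1 / 2 : ℝ) : ℂ) * I) := by
      push_cast
      linear_combination (1 / 4 : ℂ) * I_mul_I
    have e' : (x : ℂ) + ((1 / 2 : ℝ) : ℂ) * I = (x : ℂ) + ((-1 / 2 : ℝ) : ℂ) * I + I := by
      push_cast
      ring
    simp only
    rw [h3 _ n1, h3 _ n2, ofReal_inv, e, e', this]
    rw [e'] at n2
    generalize (x : ℂ) + ((-1 / 2 : ℝ) : ℂ) * I = u at n1 n2 ⊢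
    field_simp
    ring
  all_goals
    refine h5 _ (by fun_prop) fun x hx => (hm _).2 ?_
    simp only [add_re, add_im, mul_re, mul_im, ofReal_re, ofReal_im, I_re, I_im, mul_zero, mul_one,
      sub_zero, add_zero, zero_add, hx, a1, a2, and_self]

end Pool.Agent.P.MP_a11f68_mp.Q
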